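import Pool.Agent.Lib.MP_17a322_nt.VB.Defs0

/-!
Minors and the space of the rows of a matrix.
-/

namespace Pool.Agent.Lib.MP_17a322_nt.VB

section

variable {R ι κ : Type*} [CommRing R] [Fintype ι] [DecidableEq ι]

theorem mnr_row (M : ι → κ → R) (i₀ : ι) (e : ι → κ) :
    ∃ c : ι → R, ∀ z : κ → R, mnr (Function.update M i₀ z) e = ∑ j, z (e j) * c j := by
  obtain ⟨A, hA⟩ : ∃ A : Matrix ι ι R, A = Matrix.of fun i j => M i (e j) := ⟨_, rfl⟩
  refine ⟨fun j => Matrix.adjugate A.transpose i₀ j, fun z => ?_⟩
  have h1 : (Matrix.of fun i j => Function.update M i₀ z i (e j)) =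
      A.updateRow i₀ fun j => z (e j) := by
    ext i j
    rw [Matrix.of_apply, Matrix.updateRow_apply, hA]
    by_cases h : i = i₀
    · rw [h, Function.update_self, if_pos rfl]
    · rw [Function.update_of_ne h, if_neg h, Matrix.of_apply]
  unfold mnr
  rw [h1, ← Matrix.cramer_transpose_apply, Matrix.cramer_eq_adjugate_mulVec, Matrix.mulVec,
    dotProduct]
  exact Finset.sum_congr rfl fun j _ => mul_comm _ _

omit [Fintype ι] in
theorem elim_update (M : ι → κ → R) (z : κ → R) :
    (Sum.elim M fun _ => z : ι ⊕ Unit → κ → R) =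
      Function.update (Sum.elim M fun _ => 0) (Sum.inr ()) z := by
  funext i
  rcases i with i | i
  · rw [Function.update_of_ne (by simp)]
    rfl
  · rw [Function.update_self]
    rfl

/-- Expansion along the last row. -/
theorem mnr_last (M : ι → κ → R) (e : ι ⊕ Unit → κ) :
    ∃ c : ι ⊕ Unit → R, ∀ z : κ → R, mnr (Sum.elim M fun _ => z) e = ∑ j, z (e j) * c j := by
  obtain ⟨c, hc⟩ := mnr_row (Sum.elim M fun _ => 0) (Sum.inr ()) e
  refine ⟨c, fun z => ?_⟩
  rw [elim_update, hc]

theorem inRow_add {M : ι → κ → R} {z z' : κ → R} (h : InRow M z) (h' : InRow M z') :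
    InRow M (z + z') := by
  intro e
  obtain ⟨c, hc⟩ := mnr_last M e
  have h1 := h e
  have h2 := h' e
  rw [hc] at h1 h2 ⊢
  simp only [Pi.add_apply, add_mul, Finset.sum_add_distrib, h1, h2, add_zero]

theorem inRow_smul {M : ι → κ → R} {z : κ → R} (c : R) (h : InRow M z) : InRow M (c • z) := by
  intro e
  obtain ⟨c', hc⟩ := mnr_last M e
  have h1 := h e
  rw [hc] at h1 ⊢
  simp only [Pi.smul_apply, smul_eq_mul, mul_assoc]
  rw [← Finset.mul_sum, h1, mul_zero]

theorem inRow_zero' (M : ι → κ → R) : InRow M 0 := by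
  intro e
  obtain ⟨c, hc⟩ := mnr_last M e
  rw [hc]
  simp

theorem inRow_sum {σ : Type*} {M : ι → κ → R} (s : Finset σ) (z : σ → κ → R)
    (h : ∀ i ∈ s, InRow M (z i)) : InRow M (∑ i ∈ s, z i) := by
  classical
  induction s using Finset.induction_on with
  | empty => exact inRow_zero' M
  | insert i s hi ih =>
    rw [Finset.sum_insert hi]
    exact inRow_add (h i (Finset.mem_insert_self i s))
      (ih fun j hj => h j (Finset.mem_insert_of_mem hj))

theorem inRow_row (M : ι → κ → R) (i : ι) : InRow M (M i) := by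
  intro e
  unfold mnr
  refine Matrix.det_zero_of_row_eq (i := Sum.inl i) (j := Sum.inr ()) (by simp) ?_
  rfl

theorem mnr_map {S : Type*} [CommRing S] (φ : R →+* S) (M : ι → κ → R) (e : ι → κ) :
    mnr (fun i l => φ (M i l)) e = φ (mnr M e) := by
  unfold mnr
  rw [RingHom.map_det]
  rfl

theorem inRow_map {S : Type*} [CommRing S] (φ : R →+* S) {M : ι → κ → R} {z : κ → R}
    (h : InRow M z) : InRow (fun i l => φ (M i l)) fun l => φ (z l) := by
  intro e
  have h1 := mnr_map φ (Sum.elim M fun _ => z) e
  rw [h e, map_zero] at h1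
  rw [← h1]
  unfold mnr
  congr 1
  ext i j
  rw [Matrix.of_apply, Matrix.of_apply]
  rcases i with i | i <;> rfl

/-- The minor of the columns `e` and `l`. -/
theorem mnr_col (M : ι → κ → R) (e : ι → κ) :
    ∃ c : (κ → R) → ι → R, ∀ (z : κ → R) (l : κ),
      mnr (Sum.elim M fun _ => z) (Sum.elim e fun _ : Unit => l) =
        mnr M e * z l + ∑ i, c z i * M i l := by
  obtain ⟨B, hB⟩ : ∃ B : (κ → R) → Matrix (ι ⊕ Unit) (ι ⊕ Unit) R, ∀ z, B z =
      Matrix.of fun i j => Sum.elim (fun j => Sum.elim M (fun _ => z) i (e j)) (fun _ => 0) j :=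
    ⟨_, fun z => rfl⟩
  refine ⟨fun z i => Matrix.adjugate (B z) (Sum.inr ()) (Sum.inl i), fun z l => ?_⟩
  have h1 : (Matrix.of fun i j => Sum.elim M (fun _ => z) i
      ((Sum.elim e fun _ : Unit => l) j)) =
      (B z).updateCol (Sum.inr ()) fun i => Sum.elim M (fun _ => z) i l := by
    ext i j
    rw [Matrix.of_apply, Matrix.updateCol_apply, hB]
    rcases j with j | j
    · rw [if_neg (by simp)]
      rfl
    · rw [if_pos rfl]
      rfl
  have h2 : Matrix.adjugate (B z) (Sum.inr ()) (Sum.inr ()) = mnr M e := by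
    rw [Matrix.adjugate_apply]
    have h3 : (B z).updateRow (Sum.inr ()) (Pi.single (Sum.inr ()) 1) =
        Matrix.fromBlocks (Matrix.of fun i j => M i (e j)) 0 0 1 := by
      ext i j
      rw [Matrix.updateRow_apply, hB]
      rcases i with i | i <;> rcases j with j | j
      · rw [if_neg (by simp)]
        rfl
      · rw [if_neg (by simp)]
        rfl
      · rw [if_pos rfl, Pi.single_eq_of_ne (by simp)]
        rfl
      · rw [if_pos rfl]
        have : i = j := rfl
        subst this
        simp
    rw [h3, Matrix.det_fromBlocks_zero₂₁, Matrix.det_one, mul_one]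
    rfl
  unfold mnr
  rw [h1, ← Matrix.cramer_apply, Matrix.cramer_eq_adjugate_mulVec, Matrix.mulVec, dotProduct,
    Fintype.sum_sum_type, add_comm]
  congr 1
  rw [Fintype.sum_unique]
  show Matrix.adjugate (B z) (Sum.inr ()) (Sum.inr ()) * z l = _
  rw [h2]
  rfl

/-- A vector in the space of the rows is determined by the columns of a minor. -/
theorem inRow_cramer' {M : ι → κ → R} {z : κ → R} (h : InRow M z) (e : ι → κ) :
    ∃ c : ι → R, ∀ l, mnr M e * z l = ∑ i, c i * M i l := by
  obtain ⟨c, hc⟩ := mnr_col M e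
  refine ⟨fun i => - c z i, fun l => ?_⟩
  have h1 := hc z l
  rw [h] at h1
  simp only [neg_mul, Finset.sum_neg_distrib]
  exact eq_neg_of_add_eq_zero_left h1.symm

/-- Over a domain: a vector in the space of the rows is determined by the columns of a nonzero
minor. -/
theorem inRow_cramer [IsDomain R] {M : ι → κ → R} {z : κ → R} (h : InRow M z) (e : ι → κ)
    (_ : mnr M e ≠ 0) : ∃ c : ι → R, ∀ l, mnr M e * z l = ∑ i, c i * M i l :=
  inRow_cramer' h e

theorem inRow_zero [IsDomain R] {M : ι → κ → R} {z : κ → R} (h : InRow M z) (e : ι → κ)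
    (he : mnr M e ≠ 0) (hz : ∀ i, z (e i) = 0) : z = 0 := by
  funext l
  have h1 := h (Sum.elim e fun _ : Unit => l)
  -- the last row has only one nonzero entry
  unfold mnr at h1
  have h4 : (Matrix.of fun i j => Sum.elim M (fun _ => z) i
      ((Sum.elim e fun _ : Unit => l) j)) =
      Matrix.fromBlocks (Matrix.of fun i j => M i (e j)) (Matrix.of fun i (_ : Unit) => M i l)
        0 (Matrix.of fun (_ : Unit) (_ : Unit) => z l) := by
    ext i j
    rcases i with i | i <;> rcases j with j | j
    · rfl
    · rfl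
    · exact hz j
    · rfl
  rw [h4, Matrix.det_fromBlocks_zero₂₁,
    Matrix.det_unique (Matrix.of fun (_ : Unit) (_ : Unit) => z l)] at h1
  rcases mul_eq_zero.1 h1 with h5 | h5
  · exact absurd h5 he
  · exact h5

end

/-- A nonzero minor. -/
theorem exists_mnr {L ι κ : Type*} [Field L] [Fintype ι] [DecidableEq ι] [Finite κ]
    {M : ι → κ → L} (hM : LinearIndependent L M) : ∃ e : ι → κ, mnr M e ≠ 0 := by
  classical
  have := Fintype.ofFinite κ
  obtain ⟨A, hA⟩ : ∃ A : Matrix ι κ L, A = Matrix.of M := ⟨_, rfl⟩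
  have h1 : LinearIndependent L A.row := by
    rw [hA]
    exact hM
  have h2 : A.rank = Fintype.card ι := h1.rank_matrix
  -- independent columns
  have h3 : Module.finrank L (Submodule.span L (Set.range A.col)) = Fintype.card ι := by
    rw [← Matrix.rank_eq_finrank_span_cols, h2]
  obtain ⟨s, hs, hsp, hli⟩ := exists_linearIndependent L (Set.range A.col)
  have h4 : Fintype.card ι = Module.finrank L (Submodule.span L s) := by
    rw [hsp, h3]
  have : Finite s := Set.Finite.subset (Set.finite_range _) hs
  have := Fintype.ofFinite s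
  have h5 : Fintype.card s = Fintype.card ι := by
    rw [h4, finrank_span_set_eq_card hli, Set.toFinset_card]
  obtain ⟨σ⟩ : Nonempty (ι ≃ s) := ⟨Fintype.equivOfCardEq h5.symm⟩
  have h6 : ∀ i : ι, ∃ l, A.col l = (σ i : ι → L) := fun i => hs (σ i).2
  choose e he using h6
  refine ⟨e, ?_⟩
  unfold mnr
  have h7 : LinearIndependent L (Matrix.of fun i j => M i (e j)).col := by
    have h8 : (Matrix.of fun i j => M i (e j)).col = fun j => (σ j : ι → L) := by
      funext j
      rw [← he j, hA]
      rfl
    rw [h8]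
    exact (hli : LinearIndependent L (Subtype.val : s → (ι → L))).comp σ σ.injective
  have h9 : IsUnit (Matrix.of fun i j => M i (e j)) :=
    Matrix.linearIndependent_cols_iff_isUnit.1 h7
  exact ((Matrix.isUnit_iff_isUnit_det _).1 h9).ne_zero

theorem li_of_mnr {L ι κ : Type*} [Field L] [Fintype ι] [DecidableEq ι]
    {M : ι → κ → L} (e : ι → κ) (he : mnr M e ≠ 0) : LinearIndependent L M := by
  have h1 : IsUnit (Matrix.of fun i j => M i (e j)) :=
    (Matrix.isUnit_iff_isUnit_det _).2 (isUnit_iff_ne_zero.2 he)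
  have h2 := Matrix.linearIndependent_rows_iff_isUnit.2 h1
  have h3 : (Matrix.of fun i j => M i (e j)).row = (LinearMap.funLeft L L e) ∘ M := by
    funext i
    rfl
  rw [h3] at h2
  exact LinearIndependent.of_comp _ h2

/-- Over a field, for independent rows. -/
theorem inRow_iff {L ι κ : Type*} [Field L] [Fintype ι] [DecidableEq ι] [Finite κ] {M : ι → κ → L}
    (hM : LinearIndependent L M) (z : κ → L) : InRow M z ↔ z ∈ Submodule.span L (Set.range M) := by
  constructor
  · intro h
    by_contra hz
    have h1 : LinearIndependent L (Sum.elim M fun _ : Unit => z) := by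
      refine LinearIndependent.sum_type hM ?_ ?_
      · refine (linearIndependent_unique_iff (v := fun _ : Unit => z)).2 ?_
        rintro rfl
        exact hz (Submodule.zero_mem _)
      · rw [Submodule.disjoint_def]
        intro x hx hx'
        have h2 : Set.range (fun _ : Unit => z) = {z} := Set.range_const
        rw [h2, Submodule.mem_span_singleton] at hx'
        obtain ⟨c, rfl⟩ := hx'
        by_cases hc : c = 0
        · rw [hc, zero_smul]
        · exact absurd ((Submodule.smul_mem_iff _ hc).1 hx) hz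
    obtain ⟨e, he⟩ := exists_mnr h1
    exact he (h e)
  · intro h
    refine Submodule.span_induction (p := fun z _ => InRow M z) ?_ (inRow_zero' M)
      (fun x y _ _ hx hy => inRow_add hx hy) (fun c x _ hx => inRow_smul c hx) h
    rintro _ ⟨i, rfl⟩
    exact inRow_row M i

end Pool.Agent.Lib.MP_17a322_nt.VB
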