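import Pool.Agent.Lib.MP_17a322_nt.SG.Defs2

/-!
Vector bundles on principal torus bundles over `A`: definitions for matrices of polynomials.
-/

namespace Pool.Agent.Lib.MP_17a322_nt.VB

open MvPolynomial
open Pool.Agent.Lib.MP_17a322_nt.SG (Bx toF)

section

variable {R ι κ : Type*} [CommRing R] [Fintype ι] [DecidableEq ι]

/-- The minor of the rows of `M` and the columns `e`. -/
def mnr (M : ι → κ → R) (e : ι → κ) : R := (Matrix.of fun i j => M i (e j)).det

/-- `z` is in the space spanned by the rows of `M` over the field of fractions, if these rows are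
linearly independent. -/
def InRow (M : ι → κ → R) (z : κ → R) : Prop :=
  ∀ e : ι ⊕ Unit → κ, mnr (Sum.elim M fun _ => z) e = 0

end

/-- The vector of polynomials of degree at most `M` in every variable with the coefficients `z`. -/
noncomputable def pv {q M n : ℕ} {R : Type*} [CommRing R] (z : Bx q M × Fin n → R) (l : Fin n) :
    MvPolynomial (Fin q) R :=
  ∑ b : Bx q M, monomial (toF b) (z (b, l))

/-- The Newton polytopes of the minors of `(Gh; Lh_j, j ∈ J)` are as large as possible in the
direction `τ`, where `h j` is the largest weight in `Lh_j`. -/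
def IndP {L : Type*} [Field L] {q g n s : ℕ} (Gh : Fin g → Fin n → MvPolynomial (Fin q) L)
    (Lh : Fin s → Fin n → MvPolynomial (Fin q) L) (τ : Fin q → ℝ) (h : Fin s → ℝ)
    (J : Finset (Fin s)) : Prop :=
  ∃ (e : Fin g ⊕ J → Fin n) (m : Fin q →₀ ℕ),
    coeff m (mnr (Sum.elim Gh fun j : J => Lh j) e) ≠ 0 ∧
    ∀ (e' : Fin g → Fin n) (m' : Fin q →₀ ℕ), coeff m' (mnr Gh e') ≠ 0 →
      SG.wt τ m' + ∑ j ∈ J, h j ≤ SG.wt τ m

/-- The code of an element of the box. -/
def code {q M : ℕ} (a : Bx q M) : ℕ := ∑ i, (a i : ℕ) * (M + 1) ^ (i : ℕ)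

end Pool.Agent.Lib.MP_17a322_nt.VB
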