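import Pool.Agent.Lib.MP_17a322_nt.TB.Defs2
import Pool.Agent.Lib.MP_17a322_nt.VB.Defs0

/-!
Vector bundles on principal torus bundles over `A`: definitions used in the proof.
-/

universe u

namespace Pool.Agent.Lib.MP_17a322_nt.VB

open MvPolynomial Height
open Pool.Agent.Lib.MP_17a322_nt.VA
open Pool.Agent.Lib.MP_17a322_nt.SL
open Pool.Agent.Lib.MP_17a322_nt.SG (Bx toF shf Ix)
open Pool.Agent.Lib.MP_17a322_nt.TB (Tor Kp Cx ex ev maxWt wB LamT phi)

/-- The polynomials in the coordinates `x` of `A` and `y` of the bundle. -/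
abbrev Pl (K : Type u) [Field K] (N q p : ℕ) : Type u :=
  MvPolynomial (Fin q × Fin p) (MvPolynomial (Fin (N + 1)) K)

section

variable {K : Type u} [Field K] {N : ℕ} (A : AV K N) {γ ι κ σ : Type} [Fintype κ]

/-- See `TB.redT`. -/
noncomputable def redZ (w : ι → κ → MvPolynomial (Fin (N + 1)) K)
    (ω : ι × κ → MvPolynomial (Fin (N + 1)) K) (p : ι) : MvPolynomial (Fin (N + 1)) K :=
  ∑ c, ω (p, c) * w p c

/-- See `SG.IndT`. -/
def IndZ (G : Matrix γ ι (MvPolynomial (Fin (N + 1)) K))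
    (Λ : Matrix σ ι (MvPolynomial (Fin (N + 1)) K)) (T : Finset σ) : Prop :=
  ∀ (L : Type u) [Field L] [Algebra K L] (P : A.Pts L), Gen A P →
    LinearIndependent L (Sum.elim (fun (i : γ) (l : ι) => aeval (A.x P) (G i l))
      fun (j : T) (l : ι) => aeval (A.x P) (Λ j l))

/-- See `SG.lamT`. -/
noncomputable def lamZ [Fintype ι] {L : Type u} [Field L] [Algebra K L] (v : AbsoluteValue L ℝ)
    (D : ℕ) (Λ : ι → MvPolynomial (Fin (N + 1)) K) (P : A.Pts L) (X : ι → L) : ℝ :=
  Real.log (⨆ l, v (X l)) + D * Real.log (⨆ i, v (A.x P i)) -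
    Real.log (v (∑ l, aeval (A.x P) (Λ l) * X l))

/-- See `TB.ExcU`. -/
def ExcZ [Fintype ι] (G : Matrix γ ι (MvPolynomial (Fin (N + 1)) K))
    (w : ι → κ → MvPolynomial (Fin (N + 1)) K)
    (F : MvPolynomial (Fin (N + 1) ⊕ (ι × κ)) K) : Prop :=
  (∃ a b : ℕ, ∀ m ∈ F.support, ∑ i, m (Sum.inl i) = a ∧ ∑ x, m (Sum.inr x) = b) ∧
  ∀ (L : Type u) [Field L] [IsAlgClosed L] [Algebra K L] (P : A.Pts L), Gen A P →
    ∃ (c : L) (m : ℕ) (y : Fin m → ι × κ → L), c ≠ 0 ∧
      (∀ k, ∃ Z : ι → L, (∀ i, ∑ l, aeval (A.x P) (G i l) * Z l = 0) ∧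
        ∑ x, y k x * (aeval (A.x P) (w x.1 x.2) * Z x.1) ≠ 0) ∧
      aeval (Sum.elim (fun i => (C (A.x P i) : MvPolynomial (ι × κ) L)) X) F =
        C c * ∏ k, ∑ x, C (y k x) * X x

end

section

variable {K : Type u} [Field K] {N q p : ℕ} {A : AV K N} (T : Tor A q p) {g n s : ℕ}

/-- The leading parts of the `Λ j`, `j ∈ J`, in the direction `τ` are independent modulo the limit
of the space of the rows of `G`: the Newton polytopes of the minors add in the direction `τ`. -/
def IndV (G : Matrix (Fin g) (Fin n) (Pl K N q p)) (Λ : Matrix (Fin s) (Fin n) (Pl K N q p))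
    (τ : Fin q → ℝ) (J : Finset (Fin s)) : Prop :=
  ∀ (L : Type u) [Field L] [Algebra K L] (P : A.Pts L), Gen A P →
    IndP (fun i l => T.sp P (G i l)) (fun j l => T.sp P (Λ j l)) τ (fun j => maxWt τ (Λ j)) J

/-- The polynomials `F` in the coordinates of `A`, of the bundle and `X_1, ..., X_n`, bihomogeneous (with
weights), that are over the generic point of `A` products of a function that is not zero on the bundle
and linear forms in `X_1, ..., X_n` that do not vanish identically on the kernel of `G`. -/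
def ExcV (G : Matrix (Fin g) (Fin n) (Pl K N q p))
    (F : MvPolynomial (Fin (N + 1) ⊕ (Fin q × Fin p) ⊕ Fin n) K) : Prop :=
  (∃ a b : ℕ, ∀ m ∈ F.support,
    ∑ i, m (Sum.inl i) + ∑ i, T.k i.1 * m (Sum.inr (Sum.inl i)) = a ∧
    ∑ l, m (Sum.inr (Sum.inr l)) = b) ∧
  ∀ (L : Type u) [Field L] [IsAlgClosed L] [Algebra K L] (P : A.Pts L), Gen A P →
    ∃ (c : MvPolynomial (Fin q) L) (m : ℕ) (z : Fin m → Fin n → MvPolynomial (Fin q) L), c ≠ 0 ∧
      (∀ k, ∃ w : Fin n → MvPolynomial (Fin q) L,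
        (∀ i, ∑ l, T.sp P (G i l) * w l = 0) ∧ ∑ l, z k l * w l ≠ 0) ∧
      aeval (Sum.elim (fun i => (C (C (A.x P i)) : MvPolynomial (Fin n) (MvPolynomial (Fin q) L)))
        (Sum.elim (fun i => C (C (aeval (A.x P) (T.η i.1 i.2)) * X i.1)) X)) F =
        C c * ∏ k, ∑ l, C (z k l) * X l

/-- The rank of `G` on the bundle is `g`. -/
def Rk (G : Matrix (Fin g) (Fin n) (Pl K N q p)) : Prop :=
  ∀ (L : Type u) [Field L] [Algebra K L] (P : A.Pts L), Gen A P →
    ∃ e : Fin g → Fin n, mnr (fun i l => T.sp P (G i l)) e ≠ 0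

/-- The height of the kernel of `G` at `(P, y)`: the height of the vector of the maximal minors. -/
noncomputable def hV [NumberField K] (G : Matrix (Fin g) (Fin n) (Pl K N q p)) (P : A.Pts K)
    (y : Fin q × Fin p → K) : ℝ :=
  logHeight fun e : Fin g ↪o Fin n => mnr (fun i l => ev P y (G i l)) e

/-! ### Definitions used in the proof -/

/-- The columns. -/
abbrev Cz (N q p M n : ℕ) : Type := (Bx q M × Fin n) × Kp N q p M

/-- The order of the columns used in `TB`. -/
def toC {N q p M n : ℕ} (x : Cz N q p M n) : Cx N q p M n := (x.1.1, x.2, x.1.2)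

/-- The forms that define the lines. -/
noncomputable def wV (M : ℕ) (x : Bx q M × Fin n) (κ : Kp N q p M) :
    MvPolynomial (Fin (N + 1)) K :=
  wB T M x.1 κ

/-- The linear forms `TB.LamT` in the order of the columns used here. -/
noncomputable def LamV {M d : ℕ} (k : Fin q → ℕ) (a : Fin (N + 1)) (ch : Fin q → Fin p) (D : ℕ)
    (Λ : Matrix (Fin s) (Fin n) (Pl K N q p)) (j : Ix q M d n s) (x : Cz N q p M n) :
    MvPolynomial (Fin (N + 1)) K :=
  LamT (M := M) (d := d) k a ch D Λ j (toC x)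

/-- The vector of the `x_j ^ ex y ^ μ Z_l`. -/
noncomputable def phiV {R : Type*} [CommRing R] (k : Fin q → ℕ) (M : ℕ)
    (x : Fin (N + 1) → R) (y : Fin q × Fin p → R) (Z : Fin n → R) (c : Cz N q p M n) : R :=
  phi k M x y Z (toC c)

/-- The pullback of a form under `(x, y, X) ↦ phiV`. -/
noncomputable def pullV {M : ℕ} (k : Fin q → ℕ)
    (F : MvPolynomial (Fin (N + 1) ⊕ Cz N q p M n) K) :
    MvPolynomial (Fin (N + 1) ⊕ (Fin q × Fin p) ⊕ Fin n) K :=
  aeval (Sum.elim (fun i => X (Sum.inl i))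
    (phiV k M (fun i => X (Sum.inl i)) (fun i => X (Sum.inr (Sum.inl i)))
      fun l => X (Sum.inr (Sum.inr l)))) F

/-- A matrix of forms on `A` whose rows are a basis of the linear forms of degree at most `M` in every
`u_i` that vanish on the kernel of `G`: the output of `N_exists`. -/
structure Rel (G : Matrix (Fin g) (Fin n) (Pl K N q p)) (M : ℕ) where
  /-- the indices of the rows -/
  γ : Type
  ft : Fintype γ
  de : DecidableEq γ
  /-- the rows -/
  G' : Matrix γ (Bx q M × Fin n) (MvPolynomial (Fin (N + 1)) K)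
  D' : ℕ
  ρ : γ → ℕ
  hom : ∀ i x, G' i x = 0 ∨ ∃ m, (G' i x).IsHomogeneous m ∧
    m + ρ i = D' + (ex T.k x.1 + ∑ i, T.e i * x.1 i)
  row : ∀ (L : Type u) [Field L] [Algebra K L] (P : A.Pts L) (i : γ),
    InRow (fun i l => T.sp P (G i l)) (pv fun x => aeval (A.x P) (G' i x))
  li : ∀ (L : Type u) [Field L] [Algebra K L] (P : A.Pts L), Gen A P →
    LinearIndependent L fun i x => aeval (A.x P) (G' i x)
  sp : ∀ (L : Type u) [Field L] [Algebra K L] (P : A.Pts L), Gen A P →
    ∀ z : Bx q M × Fin n → L, InRow (fun i l => T.sp P (G i l)) (pv z) →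
      z ∈ Submodule.span L (Set.range fun i x => aeval (A.x P) (G' i x))

attribute [instance] Rel.ft Rel.de

end

end Pool.Agent.Lib.MP_17a322_nt.VB
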