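import Pool.Agent.Lib.MP_17a322_nt.VB.Defs
import Pool.Agent.Lib.MP_17a322_nt.TB.V2
import Pool.Agent.Lib.MP_17a322_nt.TB.H1

/-!
Vector bundles on principal torus bundles over `A`: the height of the space of the relations.
-/

universe u

namespace Pool.Agent.Lib.MP_17a322_nt.VB

open MvPolynomial Height
open Pool.Agent.Lib.MP_17a322_nt.VJ
open Pool.Agent.Lib.MP_17a322_nt.VA
open Pool.Agent.Lib.MP_17a322_nt.SL
open Pool.Agent.Lib.MP_17a322_nt.SG (Bx toF shf Ix)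
open Pool.Agent.Lib.MP_17a322_nt.TB (Tor Kp Cx ex ev maxWt wB LamT phi)

section

variable {K : Type u} [Field K] {N q p : ℕ} {A : AV K N} (T : Tor A q p) {g n r s : ℕ}

/-- the coordinates of the lines in terms of `y` -/
theorem HL_w {M : ℕ} {P : A.Pts K} {y : Fin q × Fin p → K} {t : Fin q → K} (ht0 : ∀ i, t i ≠ 0)
    (ht : ∀ i c, y (i, c) = t i * aeval (A.x P) (T.η i c)) (b : Bx q M) (κ : Kp N q p M) :
    aeval (A.x P) (wB T M b κ) = (∏ i, t i ^ (b i : ℕ))⁻¹ * (open Classical in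
      if TB.Mt b κ.2 then A.x P κ.1 ^ ex T.k b * ∏ i, y i ^ (κ.2 i : ℕ) else 0) := by
  classical
  unfold wB
  split_ifs with h
  · have h2 : ∏ i, y i ^ (κ.2 i : ℕ) = (∏ i, t i ^ (b i : ℕ)) *
        ∏ i, (aeval (A.x P) (T.η i.1 i.2)) ^ (κ.2 i : ℕ) := by
      have h3 : ∀ i : Fin q × Fin p, y i ^ (κ.2 i : ℕ) =
          t i.1 ^ (κ.2 i : ℕ) * (aeval (A.x P) (T.η i.1 i.2)) ^ (κ.2 i : ℕ) := by
        intro i
        rw [show y i = t i.1 * aeval (A.x P) (T.η i.1 i.2) from ht i.1 i.2, mul_pow]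
      rw [Finset.prod_congr rfl fun i _ => h3 i, Finset.prod_mul_distrib]
      congr 1
      rw [Fintype.prod_prod_type]
      refine Finset.prod_congr rfl fun i _ => ?_
      rw [← h i, ← Finset.prod_pow_eq_pow_sum]
    have h4 : ∏ i, t i ^ (b i : ℕ) ≠ 0 := Finset.prod_ne_zero_iff.mpr fun i _ => pow_ne_zero _ (ht0 i)
    rw [h2, map_mul, map_pow, aeval_X, map_prod]
    simp only [map_pow]
    field_simp
  · rw [map_zero, mul_zero]

theorem HL_line {M : ℕ} (v : AbsoluteValue K ℝ) {P : A.Pts K} {y : Fin q × Fin p → K}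
    (hy : T.On P y) {t : Fin q → K} (ht0 : ∀ i, t i ≠ 0)
    (ht : ∀ i c, y (i, c) = t i * aeval (A.x P) (T.η i c)) (b : Bx q M) :
    (0 < ⨆ κ, v (aeval (A.x P) (wB T M b κ))) ∧
    Real.log (⨆ κ, v (aeval (A.x P) (wB T M b κ))) =
      M * ∑ i, T.k i * Real.log (⨆ j, v (A.x P j)) + SG.wt (T.tau v P y) (toF b) -
        Real.log (v (∏ i, t i ^ (b i : ℕ))) := by
  classical
  have hx := Function.ne_iff.mp (A.x_ne P)
  have h4 : ∏ i, t i ^ (b i : ℕ) ≠ 0 := Finset.prod_ne_zero_iff.mpr fun i _ => pow_ne_zero _ (ht0 i)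
  have h5 : ⨆ κ, v (aeval (A.x P) (wB T M b κ)) = v (∏ i, t i ^ (b i : ℕ))⁻¹ *
      ((⨆ j, v (A.x P j)) ^ ex T.k b * ∏ i, (⨆ c, v (y (i, c))) ^ (b i : ℕ)) := by
    rw [← TB.H_line v hx (ex T.k b) (fun i => (hy i).1) b, Real.mul_iSup_of_nonneg (v.nonneg _)]
    refine iSup_congr fun κ => ?_
    rw [HL_w T ht0 ht, map_mul]
  have h6 : 0 < (⨆ j, v (A.x P j)) ^ ex T.k b * ∏ i, (⨆ c, v (y (i, c))) ^ (b i : ℕ) :=
    mul_pos (pow_pos (TB.V_x_pos v P) _)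
      (Finset.prod_pos fun i _ => pow_pos (TB.V_y_pos T v hy i) _)
  have h7 : 0 < v (∏ i, t i ^ (b i : ℕ))⁻¹ := v.pos (inv_ne_zero h4)
  refine ⟨h5 ▸ mul_pos h7 h6, ?_⟩
  rw [h5, Real.log_mul h7.ne' h6.ne', TB.V_log T v hy, map_inv₀, Real.log_inv]
  ring

theorem HL_mnr {γ κ : Type*} [Fintype γ] [DecidableEq γ] (Y : γ → κ → K) (c : κ → K)
    (e : γ → κ) : mnr (fun i x => Y i x * c x) e = mnr Y e * ∏ j, c (e j) := by
  unfold mnr
  have h := Matrix.det_mul_row (fun j => c (e j)) (Matrix.of fun i j => Y i (e j))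
  rw [mul_comm, ← h]
  congr 1
  ext i j
  simp [mul_comm]

theorem HL_inj {γ κ : Type*} [Fintype γ] [DecidableEq γ] (Y : γ → κ → K)
    (e : γ → κ) (he : mnr Y e ≠ 0) : Function.Injective e := by
  intro i j hij
  by_contra hne
  apply he
  unfold mnr
  refine Matrix.det_zero_of_column_eq hne fun k => ?_
  simp [hij]

/-- a nonzero minor -/
theorem HL_minor0 {κ : Type*} [Finite κ] {p : ℕ} (W : Fin p → κ → K)
    (h : LinearIndependent K W) :
    ∃ e : Fin p → κ, (Matrix.of fun i j : Fin p => W i (e j)).det ≠ 0 := by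
  classical
  have := Fintype.ofFinite κ
  obtain ⟨M, hM⟩ : ∃ M : Matrix (Fin p) κ K, M = Matrix.of W := ⟨_, rfl⟩
  have h1 : M.rank = p := by
    have h2 : LinearIndependent K M.row := by
      rw [hM]
      exact h
    rw [h2.rank_matrix, Fintype.card_fin]
  rw [Matrix.rank_eq_finrank_span_cols] at h1
  obtain ⟨f, hf1, -, hf3⟩ := Submodule.exists_fun_fin_finrank_span_eq K (Set.range M.col)
  choose e he using hf1
  refine ⟨fun j => e (Fin.cast h1.symm j), ?_⟩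
  have h2 : LinearIndependent K
      (Matrix.of fun i j : Fin p => W i (e (Fin.cast h1.symm j))).col := by
    have h3 : (Matrix.of fun i j : Fin p => W i (e (Fin.cast h1.symm j))).col =
        fun j => f (Fin.cast h1.symm j) := by
      funext j
      rw [← he (Fin.cast h1.symm j)]
      subst hM
      rfl
    rw [h3]
    exact hf3.comp _ (Fin.cast_injective _)
  rw [Matrix.linearIndependent_cols_iff_isUnit, Matrix.isUnit_iff_isUnit_det] at h2
  exact h2.ne_zero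

theorem HL_minor {γ ι : Type*} [Fintype γ] [DecidableEq γ] [Finite ι]
    (W : γ → ι → K) (h : LinearIndependent K W) : ∃ e : γ → ι, mnr W e ≠ 0 := by
  classical
  obtain ⟨a⟩ : Nonempty (γ ≃ Fin (Fintype.card γ)) := ⟨Fintype.equivFin γ⟩
  obtain ⟨e, he⟩ := HL_minor0 (fun i => W (a.symm i)) (h.comp a.symm a.symm.injective)
  refine ⟨fun j => e (a j), ?_⟩
  have h1 : (Matrix.of fun i j : γ => W i (e (a j))) =
      (Matrix.of fun i j : Fin (Fintype.card γ) => W (a.symm i) (e j)).submatrix a a := by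
    ext i j
    rw [Matrix.submatrix_apply, Matrix.of_apply, Matrix.of_apply, Equiv.symm_apply_apply]
  unfold mnr
  rw [h1, Matrix.det_submatrix_equiv_self]
  exact he

/-- the inequality at one place -/
theorem HL_loc {M : ℕ} (v : AbsoluteValue K ℝ) {P : A.Pts K} {y : Fin q × Fin p → K}
    (hy : T.On P y) {t : Fin q → K} (ht0 : ∀ i, t i ≠ 0)
    (ht : ∀ i c, y (i, c) = t i * aeval (A.x P) (T.η i c)) {γ : Type} [Fintype γ] [DecidableEq γ]
    (Y : γ → Bx q M × Fin n → K) (hY : ∃ e, mnr Y e ≠ 0) :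
    ∃ e, mnr Y e ≠ 0 ∧
      n * ∑ b : Bx q M, Real.log (⨆ κ, v (aeval (A.x P) (wB T M b κ))) +
        Real.log (⨆ e, v (mnr (fun i x => Y i x * ∏ i, t i ^ (x.1 i : ℕ)) e)) -
      Real.log (⨆ x : (γ ↪ Bx q M × Fin n) × (Bx q M × Fin n → Kp N q p M),
        v ((Matrix.of fun a b => Y a (x.1 b)).det *
            ∏ z ∈ (Finset.univ.map x.1)ᶜ, aeval (A.x P) (wV T M z (x.2 z)))) -
      (Fintype.card γ * (M * ∑ i, (T.k i : ℝ))) * Real.log (⨆ j, v (A.x P j)) ≤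
        ∑ c, SG.wt (T.tau v P y) (toF (e c).1) := by
  classical
  obtain ⟨e₁, he₁⟩ := hY
  obtain ⟨s, hs⟩ : ∃ s : Bx q M × Fin n → K, s = fun x => ∏ i, t i ^ (x.1 i : ℕ) := ⟨_, rfl⟩
  have hs0 : ∀ x, s x ≠ 0 := by
    intro x
    rw [hs]
    exact Finset.prod_ne_zero_iff.mpr fun i _ => pow_ne_zero _ (ht0 i)
  have hU : ∀ e, mnr (fun i x => Y i x * ∏ i, t i ^ (x.1 i : ℕ)) e = mnr Y e * ∏ j, s (e j) := by
    intro e
    rw [hs]
    exact HL_mnr Y (fun x => ∏ i, t i ^ (x.1 i : ℕ)) e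
  have hU1 : mnr (fun i x => Y i x * ∏ i, t i ^ (x.1 i : ℕ)) e₁ ≠ 0 := by
    rw [hU]
    exact mul_ne_zero he₁ (Finset.prod_ne_zero_iff.mpr fun j _ => hs0 _)
  obtain ⟨e, he, he'⟩ := TB.H_att v (z := fun e =>
    mnr (fun i x => Y i x * ∏ i, t i ^ (x.1 i : ℕ)) e) ⟨e₁, hU1⟩
  have hne : mnr Y e ≠ 0 := by
    intro h
    rw [hU, h, zero_mul, map_zero] at he'
    exact lt_irrefl _ he'
  refine ⟨e, hne, ?_⟩
  have hinj := HL_inj Y e hne
  have hΩ := fun b : Bx q M => HL_line T v hy ht0 ht b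
  obtain ⟨Ω, hΩ'⟩ : ∃ Ω : Bx q M → ℝ, Ω = fun b => ⨆ κ, v (aeval (A.x P) (wB T M b κ)) := ⟨_, rfl⟩
  have hΩ0 : ∀ b, 0 < Ω b := by
    intro b
    rw [hΩ']
    exact (hΩ b).1
  have hK : Nonempty (Kp N q p M) := ⟨(0, fun _ => 0)⟩
  have hκ : ∀ b, ∃ κ, v (aeval (A.x P) (wB T M b κ)) = Ω b := by
    intro b
    rw [hΩ']
    exact exists_eq_ciSup_of_finite (f := fun κ => v (aeval (A.x P) (wB T M b κ)))
  choose κ₀ hκ₀ using hκ
  have h1 : v (mnr Y e) * ∏ z ∈ (Finset.univ.map ⟨e, hinj⟩)ᶜ, Ω z.1 ≤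
      ⨆ x : (γ ↪ Bx q M × Fin n) × (Bx q M × Fin n → Kp N q p M),
        v ((Matrix.of fun a b => Y a (x.1 b)).det *
            ∏ z ∈ (Finset.univ.map x.1)ᶜ, aeval (A.x P) (wV T M z (x.2 z))) := by
    refine le_trans (le_of_eq ?_) (TB.H_le v (fun x : (γ ↪ Bx q M × Fin n) ×
      (Bx q M × Fin n → Kp N q p M) => (Matrix.of fun a b => Y a (x.1 b)).det *
            ∏ z ∈ (Finset.univ.map x.1)ᶜ, aeval (A.x P) (wV T M z (x.2 z)))
      (⟨e, hinj⟩, fun z => κ₀ z.1))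
    simp only
    rw [map_mul, map_prod]
    congr 1
    refine Finset.prod_congr rfl fun z _ => ?_
    exact (hκ₀ z.1).symm
  have h2 : 0 < v (mnr Y e) * ∏ z ∈ (Finset.univ.map ⟨e, hinj⟩)ᶜ, Ω z.1 :=
    mul_pos (v.pos hne) (Finset.prod_pos fun z _ => hΩ0 _)
  have h3 := Real.log_le_log h2 h1
  rw [Real.log_mul (v.pos hne).ne' (Finset.prod_pos fun z _ => hΩ0 _).ne',
    Real.log_prod fun z _ => (hΩ0 _).ne'] at h3
  have h4 : ∑ z ∈ (Finset.univ.map ⟨e, hinj⟩)ᶜ, Real.log (Ω z.1) =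
      n * ∑ b, Real.log (Ω b) - ∑ c, Real.log (Ω (e c).1) := by
    have h5 := Finset.sum_compl_add_sum (Finset.univ.map ⟨e, hinj⟩)
      (fun z : Bx q M × Fin n => Real.log (Ω z.1))
    rw [Finset.sum_map, Fintype.sum_prod_type] at h5
    simp only [Finset.sum_const, Finset.card_univ, Fintype.card_fin, nsmul_eq_mul,
      Function.Embedding.coeFn_mk] at h5
    rw [Finset.mul_sum]
    linarith
  have h6 : ∑ c, Real.log (Ω (e c).1) = (Fintype.card γ * (M * ∑ i, (T.k i : ℝ))) *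
      Real.log (⨆ j, v (A.x P j)) + ∑ c, SG.wt (T.tau v P y) (toF (e c).1) -
        ∑ c, Real.log (v (s (e c))) := by
    have h7 : ∀ c, Real.log (Ω (e c).1) = (M * ∑ i, (T.k i : ℝ)) * Real.log (⨆ j, v (A.x P j)) +
        SG.wt (T.tau v P y) (toF (e c).1) - Real.log (v (s (e c))) := by
      intro c
      rw [hΩ', hs]
      simp only
      rw [(hΩ (e c).1).2, mul_assoc, Finset.sum_mul]
    rw [Finset.sum_congr rfl fun c _ => h7 c, Finset.sum_sub_distrib, Finset.sum_add_distrib,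
      Finset.sum_const, Finset.card_univ, nsmul_eq_mul]
    ring
  have h8 : Real.log (⨆ e, v (mnr (fun i x => Y i x * ∏ i, t i ^ (x.1 i : ℕ)) e)) =
      Real.log (v (mnr Y e)) + ∑ c, Real.log (v (s (e c))) := by
    rw [← he, hU, map_mul, map_prod, Real.log_mul (v.pos hne).ne'
      (Finset.prod_pos fun j _ => v.pos (hs0 _)).ne', Real.log_prod fun j _ => (v.pos (hs0 _)).ne']
  rw [h8]
  have h9 : ∑ b : Bx q M, Real.log (⨆ κ, v (aeval (A.x P) (wB T M b κ))) =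
      ∑ b, Real.log (Ω b) := by
    rw [hΩ']
  rw [h9]
  linarith

theorem HL_wt {M : ℕ} (τ : Fin q → ℝ) (b : Bx q M) : SG.wt τ (toF b) ≤ M * ∑ i, |τ i| := by
  unfold SG.wt
  rw [Finset.mul_sum]
  refine Finset.sum_le_sum fun i _ => ?_
  rw [SG.toF_apply]
  have h4 : ((b i : ℕ) : ℝ) ≤ M := by
    have h5 : (b i : ℕ) ≤ M := Nat.lt_succ_iff.1 (b i).2
    exact_mod_cast h5
  exact (mul_le_mul_of_nonneg_left (le_abs_self _) (Nat.cast_nonneg _)).trans
    (mul_le_mul_of_nonneg_right h4 (abs_nonneg _))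

theorem HL_tau [NumberField K] {P : A.Pts K} {y : Fin q × Fin p → K} (hy : T.On P y)
    (i : Fin q) : FS fun v : AbsoluteValue K ℝ => |T.tau v P y i| := by
  have hyi : (fun c => y (i, c)) ≠ 0 := Function.ne_iff.mpr (hy i).1
  have h7 : FS fun v : AbsoluteValue K ℝ => Real.log (⨆ j, v (A.x P j)) := FS_log_iSup (A.x_ne P)
  have h8 : FS fun v : AbsoluteValue K ℝ => Real.log (⨆ c, v (y (i, c))) := FS_log_iSup hyi
  have h9 : FS fun v : AbsoluteValue K ℝ => T.tau v P y i := FS_sub h8 (FS_const_mul _ h7)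
  refine h9.subset fun v hv => ?_
  intro h
  exact hv (by simp only [h, abs_zero])

theorem H_low [NumberField K] {G : Matrix (Fin g) (Fin n) (Pl K N q p)} {M : ℕ}
    (𝓡 : Rel T G M) (S : Finset (NumberField.FinitePlace K)) {P : A.Pts K}
    {y : Fin q × Fin p → K} (hy : T.On P y) {t : Fin q → K}
    (ht : ∀ i c, y (i, c) = t i * aeval (A.x P) (T.η i c))
    (hli : LinearIndependent K fun i x => aeval (A.x P) (𝓡.G' i x))
    (Wi : NumberField.InfinitePlace K → ℝ) (Wf : NumberField.FinitePlace K → ℝ)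
    (hWi : ∀ v, ∀ e : 𝓡.γ → Bx q M × Fin n,
      mnr (fun i x => aeval (A.x P) (𝓡.G' i x)) e ≠ 0 →
        ∑ c, SG.wt (T.tau v.val P y) (toF (e c).1) ≤ Wi v)
    (hWf : ∀ v ∈ S, ∀ e : 𝓡.γ → Bx q M × Fin n,
      mnr (fun i x => aeval (A.x P) (𝓡.G' i x)) e ≠ 0 →
        ∑ c, SG.wt (T.tau v.val P y) (toF (e c).1) ≤ Wf v) :
    n * ∑ b : Bx q M, logHeight (fun κ => aeval (A.x P) (wB T M b κ)) +
        logHeight (fun e : 𝓡.γ → Bx q M × Fin n =>
          mnr (fun i x => aeval (A.x P) (𝓡.G' i x) * ∏ i, t i ^ (x.1 i : ℕ)) e) ≤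
      logHeight (fun x : (𝓡.γ ↪ Bx q M × Fin n) × (Bx q M × Fin n → Kp N q p M) =>
          (Matrix.of fun a b => aeval (A.x P) (𝓡.G' a (x.1 b))).det *
            ∏ z ∈ (Finset.univ.map x.1)ᶜ, aeval (A.x P) (wV T M z (x.2 z))) +
        ((∑ v : NumberField.InfinitePlace K, (v.mult : ℝ) * Wi v) + ∑ v ∈ S, Wf v) +
        Fintype.card 𝓡.γ * M * ((∑ i, T.k i * logHeight (A.x P)) + T.NS S P y) := by
  classical
  obtain ⟨Y, hYdef⟩ : ∃ Y : 𝓡.γ → Bx q M × Fin n → K,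
    Y = fun i x => aeval (A.x P) (𝓡.G' i x) := ⟨_, rfl⟩
  rw [← hYdef] at hli
  have hYap : ∀ i x, aeval (A.x P) (𝓡.G' i x) = Y i x := fun i x => by rw [hYdef]
  simp only [hYap] at hWi hWf ⊢
  have ht0 : ∀ i, t i ≠ 0 := by
    intro i h0
    obtain ⟨c, hc⟩ := (hy i).1
    exact hc (by rw [ht i c, h0, zero_mul])
  have hY := HL_minor Y hli
  obtain ⟨e₁, he₁⟩ := hY
  -- the vectors are not zero
  have hne1 : ∀ b : Bx q M, (fun κ => aeval (A.x P) (wB T M b κ)) ≠ 0 := by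
    intro b h0
    obtain ⟨v⟩ : Nonempty (AbsoluteValue K ℝ) := ⟨AbsoluteValue.trivial⟩
    have h1 := (HL_line T v hy ht0 ht b).1
    have h2 : ∀ κ, v (aeval (A.x P) (wB T M b κ)) = 0 := by
      intro κ
      rw [congrFun h0 κ, Pi.zero_apply, map_zero]
    simp only [h2, Real.iSup_const_zero] at h1
    exact lt_irrefl _ h1
  have hne2 : (fun e : 𝓡.γ → Bx q M × Fin n =>
      mnr (fun i x => Y i x * ∏ i, t i ^ (x.1 i : ℕ)) e) ≠ 0 := by
    refine Function.ne_iff.mpr ⟨e₁, ?_⟩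
    rw [HL_mnr Y (fun x => ∏ i, t i ^ (x.1 i : ℕ))]
    exact mul_ne_zero he₁ (Finset.prod_ne_zero_iff.mpr fun j _ =>
      Finset.prod_ne_zero_iff.mpr fun i _ => pow_ne_zero _ (ht0 i))
  have hne3 : (fun x : (𝓡.γ ↪ Bx q M × Fin n) × (Bx q M × Fin n → Kp N q p M) =>
          (Matrix.of fun a b => Y a (x.1 b)).det *
            ∏ z ∈ (Finset.univ.map x.1)ᶜ, aeval (A.x P) (wV T M z (x.2 z))) ≠ 0 := by
    have h1 : ∀ b : Bx q M, ∃ κ, aeval (A.x P) (wB T M b κ) ≠ 0 := fun b =>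
      Function.ne_iff.mp (hne1 b)
    choose κ₀ hκ₀ using h1
    refine Function.ne_iff.mpr ⟨(⟨e₁, HL_inj Y e₁ he₁⟩, fun z => κ₀ z.1), ?_⟩
    exact mul_ne_zero he₁ (Finset.prod_ne_zero_iff.mpr fun z _ => hκ₀ z.1)
  -- the difference of the two sides as a sum over the places
  obtain ⟨f₁, hf₁⟩ : ∃ f : AbsoluteValue K ℝ → ℝ, f = fun v =>
      ∑ b : Bx q M, Real.log (⨆ κ, v (aeval (A.x P) (wB T M b κ))) := ⟨_, rfl⟩
  obtain ⟨f₂, hf₂⟩ : ∃ f : AbsoluteValue K ℝ → ℝ, f = fun v =>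
      Real.log (⨆ e : 𝓡.γ → Bx q M × Fin n,
        v (mnr (fun i x => Y i x * ∏ i, t i ^ (x.1 i : ℕ)) e)) := ⟨_, rfl⟩
  obtain ⟨f₃, hf₃⟩ : ∃ f : AbsoluteValue K ℝ → ℝ, f = fun v =>
      Real.log (⨆ x : (𝓡.γ ↪ Bx q M × Fin n) × (Bx q M × Fin n → Kp N q p M),
        v ((Matrix.of fun a b => Y a (x.1 b)).det *
            ∏ z ∈ (Finset.univ.map x.1)ᶜ, aeval (A.x P) (wV T M z (x.2 z)))) := ⟨_, rfl⟩
  obtain ⟨f₄, hf₄⟩ : ∃ f : AbsoluteValue K ℝ → ℝ, f = fun v =>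
      Real.log (⨆ j, v (A.x P j)) := ⟨_, rfl⟩
  have F1 : FS f₁ := by
    rw [hf₁]
    exact FS_sum Finset.univ fun b _ => FS_log_iSup (hne1 b)
  have F2 : FS f₂ := by
    rw [hf₂]
    exact FS_log_iSup hne2
  have F3 : FS f₃ := by
    rw [hf₃]
    exact FS_log_iSup hne3
  have F4 : FS f₄ := by
    rw [hf₄]
    exact FS_log_iSup (A.x_ne P)
  have G1 : gs f₁ = ∑ b : Bx q M, logHeight (fun κ => aeval (A.x P) (wB T M b κ)) := by
    rw [hf₁, gs_sum Finset.univ fun b _ => FS_log_iSup (hne1 b)]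
    exact Finset.sum_congr rfl fun b _ => gs_log_iSup (hne1 b)
  have G2 : gs f₂ = logHeight (fun e : 𝓡.γ → Bx q M × Fin n =>
      mnr (fun i x => Y i x * ∏ i, t i ^ (x.1 i : ℕ)) e) := by
    rw [hf₂]
    exact gs_log_iSup hne2
  have G3 : gs f₃ = logHeight (fun x : (𝓡.γ ↪ Bx q M × Fin n) ×
      (Bx q M × Fin n → Kp N q p M) => (Matrix.of fun a b => Y a (x.1 b)).det *
            ∏ z ∈ (Finset.univ.map x.1)ᶜ, aeval (A.x P) (wV T M z (x.2 z))) := by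
    rw [hf₃]
    exact gs_log_iSup hne3
  have G4 : gs f₄ = logHeight (A.x P) := by
    rw [hf₄]
    exact gs_log_iSup (A.x_ne P)
  obtain ⟨c, hc⟩ : ∃ c : ℝ, c = Fintype.card 𝓡.γ * (M * ∑ i, (T.k i : ℝ)) := ⟨_, rfl⟩
  have hF12 := FS_add (FS_const_mul (n : ℝ) F1) F2
  have hF123 := FS_sub hF12 F3
  have hF := FS_sub hF123 (FS_const_mul c F4)
  have hG : gs (fun v => n * f₁ v + f₂ v - f₃ v - c * f₄ v) =
      n * gs f₁ + gs f₂ - gs f₃ - c * gs f₄ := by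
    rw [gs_sub hF123 (FS_const_mul c F4), gs_sub hF12 F3, gs_add (FS_const_mul (n : ℝ) F1) F2,
      gs_const_mul, gs_const_mul]
  have hloc : ∀ v : AbsoluteValue K ℝ, ∃ e, mnr Y e ≠ 0 ∧
      n * f₁ v + f₂ v - f₃ v - c * f₄ v ≤ ∑ c, SG.wt (T.tau v P y) (toF (e c).1) := by
    intro v
    obtain ⟨e, he, h⟩ := HL_loc T v hy ht0 ht (n := n) Y ⟨e₁, he₁⟩
    refine ⟨e, he, ?_⟩
    rw [hf₁, hf₂, hf₃, hf₄, hc]
    exact h
  have h1 := SG.H_gs S hF
  rw [hG, G1, G2, G3, G4] at h1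
  have h2 : ∑ v : NumberField.InfinitePlace K, (v.mult : ℝ) *
      (n * f₁ v.val + f₂ v.val - f₃ v.val - c * f₄ v.val) ≤
      ∑ v : NumberField.InfinitePlace K, (v.mult : ℝ) * Wi v := by
    refine Finset.sum_le_sum fun v _ => mul_le_mul_of_nonneg_left ?_ (Nat.cast_nonneg _)
    obtain ⟨e, he, h⟩ := hloc v.val
    exact h.trans (hWi v e he)
  have h3 : ∑ v ∈ S, (n * f₁ v.val + f₂ v.val - f₃ v.val - c * f₄ v.val) ≤ ∑ v ∈ S, Wf v := by
    refine Finset.sum_le_sum fun v hv => ?_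
    obtain ⟨e, he, h⟩ := hloc v.val
    exact h.trans (hWf v hv e he)
  have h4 : ∀ i, (Function.support fun v : {v : NumberField.FinitePlace K // v ∉ S} =>
      |T.tau v.1.val P y i|).Finite := fun i =>
    Set.Finite.preimage Subtype.val_injective.injOn (HL_tau T hy i)
  have h5 : Fintype.card 𝓡.γ * M * T.NS S P y =
      ∑ᶠ v : {v : NumberField.FinitePlace K // v ∉ S},
        Fintype.card 𝓡.γ * M * ∑ i, |T.tau v.1.val P y i| := by
    unfold Tor.NS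
    rw [← finsum_sum_comm Finset.univ (fun (v : {v : NumberField.FinitePlace K // v ∉ S}) i =>
      |T.tau v.1.val P y i|) fun i _ => h4 i]
    exact smul_finsum (Fintype.card 𝓡.γ * M : ℝ) _
  have h6 : ∑ᶠ v : {v : NumberField.FinitePlace K // v ∉ S},
      (n * f₁ v.1.val + f₂ v.1.val - f₃ v.1.val - c * f₄ v.1.val) ≤
      ∑ᶠ v : {v : NumberField.FinitePlace K // v ∉ S},
        Fintype.card 𝓡.γ * M * ∑ i, |T.tau v.1.val P y i| := by
    refine finsum_le_finsum' ?_ ?_ fun v => ?_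
    · exact Set.Finite.preimage Subtype.val_injective.injOn hF
    · have h7 := FS_const_mul (Fintype.card 𝓡.γ * M : ℝ) (FS_sum Finset.univ fun i _ => HL_tau T hy i)
      exact Set.Finite.preimage Subtype.val_injective.injOn h7
    · obtain ⟨e, he, h⟩ := hloc v.1.val
      refine h.trans ((Finset.sum_le_sum fun c _ => HL_wt _ (e c).1).trans (le_of_eq ?_))
      rw [Finset.sum_const, Finset.card_univ, nsmul_eq_mul, mul_assoc]
  have h8 : Fintype.card 𝓡.γ * M * (∑ i, T.k i * logHeight (A.x P)) =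
      c * logHeight (A.x P) := by
    rw [hc, ← Finset.sum_mul]
    ring
  rw [mul_add, h8, h5]
  linarith

end

end Pool.Agent.Lib.MP_17a322_nt.VB
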