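import Pool.Agent.Lib.MP_17a322_nt.VB.Defs
import Pool.Agent.Lib.MP_17a322_nt.TB.R1

/-!
The trivial upper bound of the height of the minors.
-/

universe u

namespace Pool.Agent.Lib.MP_17a322_nt.VB

open MvPolynomial Height
open Pool.Agent.Lib.MP_17a322_nt.VA
open Pool.Agent.Lib.MP_17a322_nt.SL
open Pool.Agent.Lib.MP_17a322_nt.SG (Bx toF shf Ix)
open Pool.Agent.Lib.MP_17a322_nt.TB (Tor Kp Cx ex ev maxWt wB LamT phi)

section

variable {K : Type u} [Field K] {N q p : ℕ} {A : AV K N} (T : Tor A q p) {g n r s : ℕ}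

/-- A monomial of degree `D` is a product of `D` coordinates. -/
private theorem H2_fac {κ : Type*} [Fintype κ] {D : ℕ} (m : κ → ℕ) (hm : ∑ i, m i = D) :
    ∃ f : Fin D → κ, ∀ x : κ → K, ∏ t, x (f t) = ∏ i, x i ^ m i := by
  have h1 : Fintype.card (Σ i, Fin (m i)) = D := by
    rw [Fintype.card_sigma, ← hm]
    exact Finset.sum_congr rfl fun i _ => Fintype.card_fin _
  have e : Fin D ≃ Σ i, Fin (m i) := (Fintype.equivFinOfCardEq h1).symm
  refine ⟨fun t => (e t).1, fun x => ?_⟩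
  rw [Equiv.prod_comp e fun z => x z.1, Fintype.prod_sigma]
  refine Finset.prod_congr rfl fun i _ => ?_
  show ∏ _t : Fin (m i), x i = _
  rw [Finset.prod_const, Finset.card_univ, Fintype.card_fin]

/-- The height of a vector of monomials. -/
private theorem H2_mon [NumberField K] {κ : Type*} [Finite κ] {D d : ℕ}
    (a : κ → Fin (N + 1) → ℕ) (μ : κ → Fin q × Fin p → ℕ)
    (h1 : ∀ z, ∑ j, a z j + ∑ i, T.k i.1 * μ z i = D)
    (h2 : ∀ z i, ∑ c, μ z (i, c) ≤ d) (P : A.Pts K) (y : Fin q × Fin p → K) (hy : T.On P y) :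
    logHeight (fun z => (∏ j, A.x P j ^ a z j) * ∏ i, y i ^ μ z i) ≤
      D * logHeight (A.x P) + d * ∑ i, T.ht P y i := by
  classical
  have hx : A.x P ≠ 0 := P.1.rep_nonzero
  obtain ⟨j₀, hj₀⟩ : ∃ j, A.x P j ≠ 0 := Function.ne_iff.1 hx
  have hj₁ : A.x P j₀ ≠ 0 := hj₀
  generalize hxx : A.x P = x at hx hj₁ ⊢
  let w : Fin q → Fin (N + 1) ⊕ Fin p → K := fun i =>
    Sum.elim (fun j => x j ^ T.k i) fun c => y (i, c)
  have hw : ∀ i, w i ≠ 0 := by
    intro i
    obtain ⟨c, hc⟩ := (hy i).1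
    exact Function.ne_iff.2 ⟨Sum.inr c, hc⟩
  have hwt : ∀ i, T.ht P y i = logHeight (w i) := by
    intro i
    show logHeight (Sum.elim (fun j => A.x P j ^ T.k i) fun c => y (i, c)) = _
    rw [hxx]
  have h3 : ∀ z, ∃ f : Fin D → Fin (N + 1), ∀ x' : Fin (N + 1) → K, ∏ t, x' (f t) =
      ∏ j, x' j ^ (a z j + if j = j₀ then ∑ i, T.k i.1 * μ z i else 0) := by
    intro z
    refine H2_fac _ ?_
    rw [Finset.sum_add_distrib, Finset.sum_ite_eq' Finset.univ j₀, if_pos (Finset.mem_univ _)]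
    exact h1 z
  have h4 : ∀ z i, ∃ f : Fin d → Fin (N + 1) ⊕ Fin p, ∀ x' : Fin (N + 1) ⊕ Fin p → K,
      ∏ t, x' (f t) = ∏ j, x' j ^ (Sum.elim (fun j => if j = j₀ then d - ∑ c, μ z (i, c) else 0)
        (fun c => μ z (i, c)) j) := by
    intro z i
    refine H2_fac _ ?_
    rw [Fintype.sum_sum_type]
    simp only [Sum.elim_inl, Sum.elim_inr]
    rw [Finset.sum_ite_eq' Finset.univ j₀, if_pos (Finset.mem_univ _)]
    have := h2 z i
    omega
  choose f hf using h3
  choose f' hf' using h4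
  have hne1 : (fun u : Fin D → Fin (N + 1) => ∏ t, x (u t)) ≠ 0 :=
    Function.ne_iff.2 ⟨fun _ => j₀, Finset.prod_ne_zero_iff.2 fun _ _ => hj₁⟩
  have hne2 : (fun u : Fin q × Fin d → Fin (N + 1) ⊕ Fin p => ∏ i, w i.1 (u i)) ≠ 0 := by
    choose c hc using fun i => Function.ne_iff.1 (hw i)
    exact Function.ne_iff.2 ⟨fun i => c i.1, Finset.prod_ne_zero_iff.2 fun i _ => hc i.1⟩
  have h5 : (∏ i, x j₀ ^ (T.k i * d)) • (fun z => (∏ j, x j ^ a z j) * ∏ i, y i ^ μ z i) =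
      (fun u : (Fin D → Fin (N + 1)) × (Fin q × Fin d → Fin (N + 1) ⊕ Fin p) =>
        (∏ t, x (u.1 t)) * ∏ i, w i.1 (u.2 i)) ∘ fun z => (f z, fun i => f' z i.1 i.2) := by
    funext z
    simp only [Pi.smul_apply, smul_eq_mul, Function.comp_apply]
    rw [hf z x, Fintype.prod_prod_type (fun i : Fin q × Fin d => w i.1 (f' z i.1 i.2))]
    have h6 : ∀ i, ∏ t : Fin d, w i (f' z i t) =
        (x j₀ ^ T.k i) ^ (d - ∑ c, μ z (i, c)) * ∏ c, y (i, c) ^ μ z (i, c) := by
      intro i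
      rw [hf' z i (w i), Fintype.prod_sum_type]
      simp only [Sum.elim_inl, Sum.elim_inr, w]
      congr 1
      rw [Finset.prod_eq_single j₀]
      · rw [if_pos rfl]
      · intro j _ hj
        rw [if_neg hj, pow_zero]
      · exact fun h => absurd (Finset.mem_univ _) h
    rw [Finset.prod_congr rfl fun i _ => h6 i, Finset.prod_mul_distrib,
      Fintype.prod_prod_type (fun i : Fin q × Fin p => y i ^ μ z i)]
    have h7 : ∏ j, x j ^ (a z j + if j = j₀ then ∑ i, T.k i.1 * μ z i else 0) =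
        (∏ j, x j ^ a z j) * x j₀ ^ (∑ i, T.k i * ∑ c, μ z (i, c)) := by
      simp only [pow_add]
      rw [Finset.prod_mul_distrib]
      congr 1
      rw [Finset.prod_eq_single j₀]
      · rw [if_pos rfl, Fintype.sum_prod_type (fun i : Fin q × Fin p => T.k i.1 * μ z i)]
        simp only [Finset.mul_sum]
      · intro j _ hj
        rw [if_neg hj, pow_zero]
      · exact fun h => absurd (Finset.mem_univ _) h
    rw [h7, ← Finset.prod_pow_eq_pow_sum]
    have h8 : ∏ i, x j₀ ^ (T.k i * d) = (∏ i, x j₀ ^ (T.k i * ∑ c, μ z (i, c))) *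
        ∏ i, (x j₀ ^ T.k i) ^ (d - ∑ c, μ z (i, c)) := by
      rw [← Finset.prod_mul_distrib]
      refine Finset.prod_congr rfl fun i _ => ?_
      rw [← pow_mul, ← pow_add, ← Nat.mul_add, Nat.add_sub_cancel' (h2 z i)]
    rw [h8]
    ring
  have h9 : (∏ i, x j₀ ^ (T.k i * d)) ≠ 0 :=
    Finset.prod_ne_zero_iff.2 fun i _ => pow_ne_zero _ hj₁
  rw [← logHeight_smul_eq_logHeight _ h9, h5]
  refine (logHeight_comp_le _ _).trans ?_
  rw [logHeight_fun_mul_eq hne1 hne2, logHeight_fun_prod_eq (fun _ => hx),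
    logHeight_fun_prod_eq (x := fun i : Fin q × Fin d => w i.1) (fun i => hw i.1), Finset.sum_const, Finset.card_univ, Fintype.card_fin,
    nsmul_eq_mul, Fintype.sum_prod_type (fun i : Fin q × Fin d => logHeight (w i.1)),
    Finset.mul_sum]
  refine add_le_add le_rfl (le_of_eq (Finset.sum_congr rfl fun i _ => ?_))
  show ∑ _t : Fin d, logHeight (w i) = _
  rw [Finset.sum_const, Finset.card_univ, Fintype.card_fin, nsmul_eq_mul, hwt]

/-- The height of a vector of values of weighted homogeneous polynomials. -/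
private theorem H2_fam [NumberField K] {κ : Type*} [Fintype κ] {D : ℕ} (b : κ → Pl K N q p)
    (hb : ∀ e, T.WH D (b e)) :
    ∃ C : ℝ, 0 ≤ C ∧ ∀ (P : A.Pts K) (y : Fin q × Fin p → K), T.On P y →
      logHeight (fun e => ev P y (b e)) ≤
        C * (1 + logHeight (A.x P) + ∑ i, T.ht P y i) := by
  classical
  let S2 : Finset (Fin q × Fin p →₀ ℕ) := Finset.univ.biUnion fun e => (b e).support
  let S1 : Finset (Fin (N + 1) →₀ ℕ) := Finset.univ.biUnion fun e =>
    S2.biUnion fun μ => (coeff μ (b e)).support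
  let I : Finset ((Fin (N + 1) →₀ ℕ) × (Fin q × Fin p →₀ ℕ)) :=
    (S1 ×ˢ S2).filter fun z => ∃ e, coeff z.1 (coeff z.2 (b e)) ≠ 0
  let d : ℕ := ∑ μ ∈ S2, ∑ i, μ i
  have hd : ∀ μ ∈ S2, ∀ i, ∑ c, μ (i, c) ≤ d := by
    intro μ hμ i
    refine le_trans ?_ (Finset.single_le_sum (f := fun μ : Fin q × Fin p →₀ ℕ => ∑ i, μ i)
      (fun _ _ => Nat.zero_le _) hμ)
    show _ ≤ ∑ i, μ i
    rw [Fintype.sum_prod_type]
    exact Finset.single_le_sum (f := fun i => ∑ c, μ (i, c)) (fun _ _ => Nat.zero_le _)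
      (Finset.mem_univ i)
  have hdeg : ∀ z ∈ I, ∑ j, z.1 j + ∑ i, T.k i.1 * z.2 i = D := by
    intro z hz
    obtain ⟨_, e, he⟩ := Finset.mem_filter.1 hz
    have h0 : coeff z.2 (b e) ≠ 0 := by
      intro h
      rw [h, coeff_zero] at he
      exact he rfl
    obtain ⟨δ, h1, h2⟩ := hb e z.2 h0
    have h3 := h1 he
    rw [← h2]
    congr 1
    rw [← h3, Finsupp.weight_apply, Finsupp.sum_fintype _ _ (fun i => by simp)]
    exact Finset.sum_congr rfl fun j _ => by simp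
  have hev : ∀ (P : A.Pts K) (y : Fin q × Fin p → K) (e : κ), ev P y (b e) =
      ∑ z : I, coeff z.1.1 (coeff z.1.2 (b e)) *
        ((∏ j, A.x P j ^ z.1.1 j) * ∏ i, y i ^ z.1.2 i) := by
    intro P y e
    rw [Finset.sum_coe_sort I fun z => coeff z.1 (coeff z.2 (b e)) *
        ((∏ j, A.x P j ^ z.1 j) * ∏ i, y i ^ z.2 i)]
    rw [Finset.sum_filter_of_ne]
    · rw [Finset.sum_product_right, TB.R1_ev_eq]
      rw [Finset.sum_subset (s₂ := S2)]
      · refine Finset.sum_congr rfl fun μ hμ => ?_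
        rw [aeval_def, eval₂_eq', Finset.sum_mul]
        rw [Finset.sum_subset (s₂ := S1)]
        · exact Finset.sum_congr rfl fun a _ => by
            rw [mul_assoc]
            rfl
        · intro a ha
          exact Finset.mem_biUnion.2 ⟨e, Finset.mem_univ _, Finset.mem_biUnion.2 ⟨μ, hμ, ha⟩⟩
        · intro a _ ha
          rw [notMem_support_iff.1 ha, map_zero, zero_mul, zero_mul]
      · intro μ hμ
        exact Finset.mem_biUnion.2 ⟨e, Finset.mem_univ _, hμ⟩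
      · intro μ _ hμ
        rw [notMem_support_iff.1 hμ, map_zero, zero_mul]
    · intro z _ hz
      exact ⟨e, left_ne_zero_of_mul hz⟩
  let B : κ × I → K := fun z => coeff z.2.1.1 (coeff z.2.1.2 (b z.1))
  let C₀ : ℝ := totalWeight K * Real.log (Nat.card I) + logHeight B
  have hC₀ : 0 ≤ C₀ := by
    refine add_nonneg (mul_nonneg (Nat.cast_nonneg _) (Real.log_natCast_nonneg _))
      (logHeight_nonneg _)
  refine ⟨C₀ + D + d, by positivity, fun P y hy => ?_⟩
  have h1 : (fun e => ev P y (b e)) = fun e => ∑ z : I, B (e, z) *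
      ((∏ j, A.x P j ^ z.1.1 j) * ∏ i, y i ^ z.1.2 i) := funext fun e => hev P y e
  rw [h1]
  refine (logHeight_linearMap_apply_le _ _).trans ?_
  have h2 := H2_mon T (κ := I) (D := D) (d := d) (fun z => z.1.1) (fun z => z.1.2)
    (fun z => hdeg z.1 z.2) (fun z i => hd _ (Finset.mem_product.1
      (Finset.mem_filter.1 z.2).1).2 i) P y hy
  have h3 : 0 ≤ logHeight (A.x P) := logHeight_nonneg _
  have h4 : 0 ≤ ∑ i, T.ht P y i := Finset.sum_nonneg fun i _ => logHeight_nonneg _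
  have h5 : (0 : ℝ) ≤ D := Nat.cast_nonneg _
  have h6 : (0 : ℝ) ≤ d := Nat.cast_nonneg _
  have h7 : (totalWeight K : ℝ) * Real.log (Nat.card I) + logHeight B = C₀ := rfl
  rw [h7]
  nlinarith [mul_nonneg hC₀ h3, mul_nonneg hC₀ h4, mul_nonneg h5 h4, mul_nonneg h6 h3]

theorem hV_le [NumberField K] {D' : Fin g → ℕ} (G : Matrix (Fin g) (Fin n) (Pl K N q p))
    (hG : ∀ i l, T.WH (D' i) (G i l)) :
    ∃ C : ℝ, 0 ≤ C ∧ ∀ (P : A.Pts K) (y : Fin q × Fin p → K), T.On P y →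
      hV G P y ≤ C * (1 + logHeight (A.x P) + ∑ i, T.ht P y i) := by
  obtain ⟨C, hC, h⟩ := H2_fam T (κ := Fin g ↪o Fin n) (fun e => mnr G e)
    (fun e => TB.R1_WH_det T _ D' fun i l => hG i (e l))
  refine ⟨C, hC, fun P y hy => ?_⟩
  refine le_trans (le_of_eq ?_) (h P y hy)
  unfold hV
  congr 1
  funext e
  show _ = eval y (MvPolynomial.map (aeval (A.x P) : MvPolynomial (Fin (N + 1)) K →ₐ[K] K).toRingHom
    (mnr G e))
  unfold mnr
  rw [RingHom.map_det, RingHom.map_det]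
  rfl

end

end Pool.Agent.Lib.MP_17a322_nt.VB
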