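import Pool.Agent.Lib.MP_17a322_nt.VB.Defs0

/-!
Vector bundles on principal torus bundles over `A`: block J1, a unimodular change of the
coordinates.
-/

universe u

namespace Pool.Agent.Lib.MP_17a322_nt.VB

open MvPolynomial Height
open Pool.Agent.Lib.MP_17a322_nt.SG (Bx toF)

/-- The columns of a product: the minors are combinations of minors. -/
private theorem J1_mnr {K γ κ : Type*} [CommRing K] [Fintype γ] [DecidableEq γ] [Fintype κ]
    [DecidableEq κ] (U : κ → κ → K) (Y : γ → κ → K) (e : γ → κ) :
    mnr (fun i x => ∑ z : κ, U z x * Y i z) e =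
      ∑ f : γ → κ, (∏ j, U (f j) (e j)) * mnr Y f := by
  unfold mnr
  simp_rw [Matrix.det_apply', Matrix.of_apply, Finset.prod_univ_sum, Fintype.piFinset_univ,
    Finset.mul_sum]
  rw [Finset.sum_comm]
  refine Finset.sum_congr rfl fun f _ => Finset.sum_congr rfl fun σ _ => ?_
  rw [Finset.prod_mul_distrib]
  ring

/-- The change of coordinates as a linear map. -/
private noncomputable def J1_map (K : Type*) [Field K] (q M n : ℕ) :
    (Bx q M × Fin n → K) →ₗ[K] (Bx q M × Fin n → K) where
  toFun z x := ∑ b : Bx q M, (∏ i, (Nat.choose (b i) (x.1 i) : K)) * z (b, x.2)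
  map_add' z z' := by
    funext x
    simp only [Pi.add_apply, mul_add, Finset.sum_add_distrib]
  map_smul' c z := by
    funext x
    simp only [Pi.smul_apply, smul_eq_mul, RingHom.id_apply, Finset.mul_sum]
    exact Finset.sum_congr rfl fun b _ => by ring

private theorem J1_ker (K : Type*) [Field K] (q M n : ℕ) :
    LinearMap.ker (J1_map K q M n) = ⊥ := by
  classical
  rw [LinearMap.ker_eq_bot']
  intro z hz
  by_contra hne
  obtain ⟨⟨b1, l⟩, hb1⟩ : ∃ x, z x ≠ 0 := by
    by_contra h
    push Not at h
    exact hne (funext h)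
  obtain ⟨b0, hb0, hmax⟩ := Finset.exists_max_image
    (Finset.univ.filter fun b : Bx q M => z (b, l) ≠ 0) (fun b => ∑ i, (b i : ℕ))
    ⟨b1, by simpa using hb1⟩
  rw [Finset.mem_filter] at hb0
  apply hb0.2
  have h := congrFun hz (b0, l)
  have h2 : (J1_map K q M n) z (b0, l) =
      ∑ b : Bx q M, (∏ i, (Nat.choose (b i) (b0 i) : K)) * z (b, l) := rfl
  rw [h2, Finset.sum_eq_single b0] at h
  · simpa using h
  · intro b _ hb
    by_cases hzb : z (b, l) = 0
    · rw [hzb, mul_zero]
    · have h3 := hmax b (by simpa using hzb)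
      have h4 : ∃ i, (b i : ℕ) < b0 i := by
        by_contra hcon
        push Not at hcon
        apply hb
        funext i
        by_contra hi
        have h5 : (b0 i : ℕ) < b i := by
          refine lt_of_le_of_ne (hcon i) fun h6 => hi ?_
          exact Fin.ext h6.symm
        exact absurd h3 (not_le.mpr (Finset.sum_lt_sum (fun j _ => hcon j) ⟨i, Finset.mem_univ i, h5⟩))
      obtain ⟨i, hi⟩ := h4
      rw [Finset.prod_eq_zero (Finset.mem_univ i), zero_mul]
      rw [Nat.choose_eq_zero_of_lt hi, Nat.cast_zero]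
  · intro h
    exact absurd (Finset.mem_univ _) h

/-- A unimodular change of the coordinates. -/
theorem J_change {K : Type*} [Field K] [NumberField K] (γ : Type) [Fintype γ] [DecidableEq γ]
    (q M n : ℕ) :
    ∃ C : ℝ, ∀ Y : γ → Bx q M × Fin n → K, LinearIndependent K Y →
      LinearIndependent K (fun i (x : Bx q M × Fin n) =>
        ∑ b : Bx q M, (∏ i, (Nat.choose (b i) (x.1 i) : K)) * Y i (b, x.2)) ∧
      logHeight (fun e : γ → Bx q M × Fin n => mnr (fun i (x : Bx q M × Fin n) =>
          ∑ b : Bx q M, (∏ i, (Nat.choose (b i) (x.1 i) : K)) * Y i (b, x.2)) e) ≤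
        logHeight (fun e : γ → Bx q M × Fin n => mnr Y e) + C := by
  classical
  set U : Bx q M × Fin n → Bx q M × Fin n → K := fun z x =>
    if z.2 = x.2 then ∏ i, (Nat.choose (z.1 i) (x.1 i) : K) else 0 with hU
  set A : (γ → Bx q M × Fin n) × (γ → Bx q M × Fin n) → K :=
    fun p => ∏ j, U (p.2 j) (p.1 j) with hA
  refine ⟨totalWeight K * Real.log (Nat.card (γ → Bx q M × Fin n)) +
    logHeight A, fun Y hY => ⟨?_, ?_⟩⟩
  · exact hY.map' (J1_map K q M n) (J1_ker K q M n)
  · have h1 : (fun i (x : Bx q M × Fin n) =>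
          ∑ b : Bx q M, (∏ i, (Nat.choose (b i) (x.1 i) : K)) * Y i (b, x.2)) =
        fun i x => ∑ z : Bx q M × Fin n, U z x * Y i z := by
      funext i x
      rw [Fintype.sum_prod_type]
      refine Finset.sum_congr rfl fun b _ => ?_
      rw [Finset.sum_eq_single x.2]
      · simp [hU]
      · intro l _ hl
        simp [hU, hl]
      · intro h
        exact absurd (Finset.mem_univ _) h
    rw [h1]
    have h2 : (fun e : γ → Bx q M × Fin n =>
        mnr (fun i x => ∑ z : Bx q M × Fin n, U z x * Y i z) e) =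
        fun e => ∑ f, A (e, f) * mnr Y f := by
      funext e
      exact J1_mnr U Y e
    rw [h2]
    have h3 := logHeight_linearMap_apply_le A (fun f => mnr Y f)
    linarith

end Pool.Agent.Lib.MP_17a322_nt.VB
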