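import Pool.Agent.Lib.MP_17a322_nt.VB.A1

/-!
Vector bundles on principal torus bundles: the first nonzero Taylor coefficient at `t` of a vector in
the space of the rows lies in the space of the rows at `t`.
-/

namespace Pool.Agent.Lib.MP_17a322_nt.VB.J2

open MvPolynomial
open Pool.Agent.Lib.MP_17a322_nt.SG (Bx toF)

private theorem J2_code_inj {q M : ℕ} : Function.Injective (code : Bx q M → ℕ) := by
  intro a b h
  apply finFunctionFinEquiv.injective
  apply Fin.ext
  rw [finFunctionFinEquiv_apply, finFunctionFinEquiv_apply]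
  exact h

/-- The substitution `u_i = t_i (1 + s ^ ((M + 1) ^ i))`. -/
private noncomputable def J2_sub {K : Type*} [Field K] {q : ℕ} (M : ℕ) (t : Fin q → K) :
    MvPolynomial (Fin q) K →+* Polynomial K :=
  (MvPolynomial.aeval fun i : Fin q =>
    Polynomial.C (t i) * (1 + Polynomial.X ^ ((M + 1) ^ (i : ℕ)))).toRingHom

private theorem J2_sub_eval {K : Type*} [Field K] {q : ℕ} (M : ℕ) (t : Fin q → K)
    (f : MvPolynomial (Fin q) K) : (J2_sub M t f).eval 0 = eval t f := by
  have h : ((Polynomial.evalRingHom (0 : K)).comp (J2_sub M t)) = (eval t : MvPolynomial (Fin q) K →+* K) := by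
    refine MvPolynomial.ringHom_ext (fun c => ?_) (fun i => ?_)
    · simp [J2_sub]
    · simp [J2_sub]
  exact congrArg (fun ψ : MvPolynomial (Fin q) K →+* K => ψ f) h

/-- The Taylor coefficient. -/
private noncomputable def J2_co {K : Type*} [Field K] {q M n : ℕ} (t : Fin q → K)
    (z : Bx q M × Fin n → K) (a : Bx q M) (l : Fin n) : K :=
  ∑ b : Bx q M, (∏ i, (Nat.choose (b i) (a i) : K)) * (z (b, l) * ∏ i, t i ^ (b i : ℕ))

private theorem J2_one {K : Type*} [Field K] (M m b : ℕ) (hb : b ≤ M) (c : K) :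
    (Polynomial.C c * (1 + Polynomial.X ^ m)) ^ b =
      ∑ k : Fin (M + 1), Polynomial.C (c ^ b * (Nat.choose b k : K)) *
        (Polynomial.X ^ m) ^ (k : ℕ) := by
  rw [mul_pow, add_comm (1 : Polynomial K), add_pow, Fin.sum_univ_eq_sum_range
    (fun k => Polynomial.C (c ^ b * (Nat.choose b k : K)) * (Polynomial.X ^ m) ^ (k : ℕ)) (M + 1),
    Finset.mul_sum]
  have h : Finset.range (b + 1) ⊆ Finset.range (M + 1) := by
    intro x hx
    rw [Finset.mem_range] at hx ⊢
    omega
  rw [← Finset.sum_subset h]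
  · refine Finset.sum_congr rfl fun k _ => ?_
    rw [map_mul, Polynomial.C_pow, map_natCast, one_pow]
    ring
  · intro k _ hk
    rw [Finset.mem_range, not_lt] at hk
    rw [Nat.choose_eq_zero_of_lt (by omega)]
    simp

private theorem J2_expand {K : Type*} [Field K] {q M n : ℕ} (t : Fin q → K)
    (z : Bx q M × Fin n → K) (l : Fin n) :
    J2_sub M t (pv z l) = ∑ a : Bx q M, Polynomial.C (J2_co t z a l) * Polynomial.X ^ code a := by
  unfold pv J2_sub
  rw [map_sum]
  have h1 : ∀ b : Bx q M, (MvPolynomial.aeval fun i : Fin q =>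
      (Polynomial.C (t i) * (1 + Polynomial.X ^ ((M + 1) ^ (i : ℕ))) : Polynomial K)).toRingHom
        (monomial (toF b) (z (b, l))) =
      ∑ a : Bx q M, Polynomial.C ((∏ i, (Nat.choose (b i) (a i) : K)) *
        (z (b, l) * ∏ i, t i ^ (b i : ℕ))) * Polynomial.X ^ code a := by
    intro b
    change MvPolynomial.aeval _ _ = _
    rw [aeval_monomial, Finsupp.prod_fintype _ _ (fun i => pow_zero _)]
    have h2 : ∀ i : Fin q, (Polynomial.C (t i) * (1 + Polynomial.X ^ ((M + 1) ^ (i : ℕ)))) ^
        (toF b i) = ∑ k : Fin (M + 1), Polynomial.C (t i ^ (b i : ℕ) * (Nat.choose (b i) k : K)) *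
          (Polynomial.X ^ ((M + 1) ^ (i : ℕ))) ^ (k : ℕ) := by
      intro i
      have h3 : toF b i = (b i : ℕ) := rfl
      rw [h3]
      exact J2_one M _ _ (Nat.lt_succ_iff.mp (b i).isLt) (t i)
    rw [Finset.prod_congr rfl fun i _ => h2 i, Finset.prod_univ_sum, Fintype.piFinset_univ,
      Finset.mul_sum]
    refine Finset.sum_congr rfl fun a _ => ?_
    rw [Finset.prod_mul_distrib, ← map_prod, Finset.prod_mul_distrib]
    have h4 : ∏ i : Fin q, ((Polynomial.X : Polynomial K) ^ ((M + 1) ^ (i : ℕ))) ^ (a i : ℕ) =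
        Polynomial.X ^ code a := by
      unfold code
      rw [← Finset.prod_pow_eq_pow_sum]
      refine Finset.prod_congr rfl fun i _ => ?_
      rw [← pow_mul, mul_comm]
    rw [h4, Polynomial.algebraMap_eq, ← mul_assoc, ← map_mul]
    congr 2
    ring
  rw [Finset.sum_congr rfl fun b _ => h1 b, Finset.sum_comm]
  refine Finset.sum_congr rfl fun a _ => ?_
  unfold J2_co
  rw [map_sum, Finset.sum_mul]

/-- The quotient by the power of the variable. -/
private noncomputable def J2_w {K : Type*} [Field K] {q M n : ℕ} (t : Fin q → K)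
    (z : Bx q M × Fin n → K) (a : Bx q M) (l : Fin n) : Polynomial K :=
  ∑ a' : Bx q M, if code a' < code a then 0 else
    Polynomial.C (J2_co t z a' l) * Polynomial.X ^ (code a' - code a)

private theorem J2_w_mul {K : Type*} [Field K] {q M n : ℕ} (t : Fin q → K)
    (z : Bx q M × Fin n → K) (a : Bx q M)
    (h0 : ∀ a' : Bx q M, code a' < code a → ∀ l, J2_co t z a' l = 0) (l : Fin n) :
    J2_sub M t (pv z l) = Polynomial.X ^ code a * J2_w t z a l := by
  rw [J2_expand]
  unfold J2_w
  rw [Finset.mul_sum]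
  refine Finset.sum_congr rfl fun a' _ => ?_
  split_ifs with h
  · rw [h0 a' h l, map_zero, zero_mul, mul_zero]
  · have h1 : code a' = code a + (code a' - code a) := by omega
    conv_lhs => rw [h1, pow_add]
    ring

private theorem J2_w_eval {K : Type*} [Field K] {q M n : ℕ} (t : Fin q → K)
    (z : Bx q M × Fin n → K) (a : Bx q M) (l : Fin n) :
    (J2_w t z a l).eval 0 = J2_co t z a l := by
  unfold J2_w
  rw [Polynomial.eval_finsetSum, Finset.sum_eq_single a]
  · rw [if_neg (lt_irrefl _), Nat.sub_self, pow_zero, mul_one, Polynomial.eval_C]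
  · intro a' _ hne
    split_ifs with h
    · rw [Polynomial.eval_zero]
    · have h1 : code a' ≠ code a := fun h2 => hne (J2_code_inj h2)
      have h2 : code a' - code a ≠ 0 := by omega
      simp [h2]
  · intro h
    exact absurd (Finset.mem_univ a) h

end J2

open MvPolynomial
open Pool.Agent.Lib.MP_17a322_nt.SG (Bx toF)

theorem code_inj {q M : ℕ} : Function.Injective (code : Bx q M → ℕ) := J2.J2_code_inj

/-- The first nonzero Taylor coefficient at `t` is in the space of the rows at `t`. -/
theorem J_lead {K : Type*} [Field K] {q g n M : ℕ} (Gh : Fin g → Fin n → MvPolynomial (Fin q) K)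
    (t : Fin q → K) (hG : LinearIndependent K fun i l => eval t (Gh i l))
    (z : Bx q M × Fin n → K) (hz : InRow Gh (pv z)) (a : Bx q M)
    (h0 : ∀ a' : Bx q M, code a' < code a → ∀ l,
      ∑ b : Bx q M, (∏ i, (Nat.choose (b i) (a' i) : K)) *
        (z (b, l) * ∏ i, t i ^ (b i : ℕ)) = 0) :
    (fun l => ∑ b : Bx q M, (∏ i, (Nat.choose (b i) (a i) : K)) *
      (z (b, l) * ∏ i, t i ^ (b i : ℕ))) ∈
      Submodule.span K (Set.range fun i l => eval t (Gh i l)) := by
  rw [← inRow_iff hG]
  have h1 := inRow_map (J2.J2_sub M t) hz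
  have h2 : InRow (fun i l => J2.J2_sub M t (Gh i l)) (J2.J2_w t z a) := by
    intro e
    obtain ⟨c, hc⟩ := mnr_last (fun i l => J2.J2_sub M t (Gh i l)) e
    have h3 := h1 e
    rw [hc] at h3
    rw [hc]
    have h4 : ∀ j, J2.J2_sub M t (pv z (e j)) = Polynomial.X ^ code a * J2.J2_w t z a (e j) :=
      fun j => J2.J2_w_mul t z a h0 (e j)
    have h5 : (Polynomial.X : Polynomial K) ^ code a * ∑ j, J2.J2_w t z a (e j) * c j = 0 := by
      rw [Finset.mul_sum, ← h3]
      refine Finset.sum_congr rfl fun j _ => ?_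
      rw [h4 j, mul_assoc]
    exact (mul_eq_zero.mp h5).resolve_left (pow_ne_zero _ Polynomial.X_ne_zero)
  have h6 := inRow_map (Polynomial.evalRingHom (0 : K)) h2
  have e1 : (fun i l => (Polynomial.evalRingHom (0 : K)) (J2.J2_sub M t (Gh i l))) =
      fun i l => eval t (Gh i l) := by
    funext i l
    exact J2.J2_sub_eval M t (Gh i l)
  have e2 : (fun l => (Polynomial.evalRingHom (0 : K)) (J2.J2_w t z a l)) =
      fun l => ∑ b : Bx q M, (∏ i, (Nat.choose (b i) (a i) : K)) *
        (z (b, l) * ∏ i, t i ^ (b i : ℕ)) := by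
    funext l
    exact J2.J2_w_eval t z a l
  rw [e1, e2] at h6
  exact h6

end Pool.Agent.Lib.MP_17a322_nt.VB
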