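import Pool.Agent.Lib.MP_17a322_nt.VB.Defs

/-!
The height of a space and the heights of its graded pieces.
-/

universe u

namespace Pool.Agent.Lib.MP_17a322_nt.VB

open MvPolynomial Height
open Pool.Agent.Lib.MP_17a322_nt.VA
open Pool.Agent.Lib.MP_17a322_nt.SL
open Pool.Agent.Lib.MP_17a322_nt.SG (Bx toF shf Ix)
open Pool.Agent.Lib.MP_17a322_nt.TB (Tor Kp Cx ex ev maxWt wB LamT phi)

/-- Independent vectors have a nonzero minor. -/
private theorem J3_minor {F : Type*} [Field F] {κ : Type*} [Finite κ] {k : ℕ} (y : Fin k → κ → F)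
    (hy : LinearIndependent F y) : ∃ e : Fin k → κ, mnr y e ≠ 0 := by
  classical
  obtain ⟨_⟩ := nonempty_fintype κ
  obtain ⟨M, hM⟩ : ∃ M : Matrix (Fin k) κ F, M = Matrix.of y := ⟨_, rfl⟩
  have hrk : M.rank = k := by
    have h1 : LinearIndependent F M.row := by
      rw [hM]
      exact hy
    rw [h1.rank_matrix, Fintype.card_fin]
  rw [Matrix.rank_eq_finrank_span_cols] at hrk
  obtain ⟨κ', a, ha, hsp, hli⟩ := exists_linearIndependent' F M.col
  have hfin : Finite κ' := Finite.of_injective a ha
  obtain ⟨_⟩ := nonempty_fintype κ'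
  have hcard : Fintype.card κ' = k := by
    rw [← finrank_span_eq_card hli, hsp]
    exact hrk
  obtain ⟨e⟩ : Nonempty (Fin k ≃ κ') := ⟨(Fintype.equivFinOfCardEq hcard).symm⟩
  refine ⟨fun b => a (e b), ?_⟩
  have h2 : LinearIndependent F (Matrix.of fun c b => y c (a (e b))).col := by
    have h3 := hli.comp e e.injective
    have h4 : (Matrix.of fun c b => y c (a (e b))).col = (M.col ∘ a) ∘ e := by
      rw [hM]
      rfl
    rw [h4]
    exact h3
  exact ((Matrix.isUnit_iff_isUnit_det _).1
    (Matrix.linearIndependent_cols_iff_isUnit.1 h2)).ne_zero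

/-- The minors of a product. -/
private theorem J3_mul {F : Type*} [Field F] {κ α β : Type*} [Fintype α] [DecidableEq α]
    [Fintype β] [DecidableEq β] (σ : α ≃ β) (Y : α → κ → F) (Y' : β → κ → F) (M : β → α → F)
    (h : ∀ s x, Y' s x = ∑ i, M s i * Y i x) (e : β → κ) :
    mnr Y' e = (Matrix.of fun i j => M (σ i) j).det * mnr Y (fun i => e (σ i)) := by
  unfold mnr
  rw [← Matrix.det_mul, ← Matrix.det_submatrix_equiv_self σ]
  congr 1
  ext i j
  rw [Matrix.submatrix_apply, Matrix.of_apply, h, Matrix.mul_apply]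
  rfl

/-- The height of the space of the rows. -/
private theorem J3_height {K : Type*} [Field K] [NumberField K] {g n r : ℕ} (hr : r = g)
    (v : Fin r → Fin n → K) (hv : LinearIndependent K v) (G₀ : Fin g → Fin n → K)
    (h : ∀ i, v i ∈ Submodule.span K (Set.range G₀)) :
    logHeight (fun e : Fin g ↪o Fin n => mnr G₀ e) ≤ logHeight (fun e : Fin r → Fin n => mnr v e) := by
  classical
  subst hr
  have h1 : ∀ i, ∃ c : Fin r → K, ∑ j, c j • G₀ j = v i := fun i =>
    (Submodule.mem_span_range_iff_exists_fun K).1 (h i)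
  choose M hM using h1
  have h2 : ∀ e : Fin r → Fin n, mnr v e = (Matrix.of fun i j => M i j).det * mnr G₀ e := by
    intro e
    refine J3_mul (Equiv.refl _) G₀ v M (fun s x => ?_) e
    rw [← hM s, Finset.sum_apply]
    rfl
  obtain ⟨e₀, he₀⟩ := J3_minor v hv
  have h3 : (Matrix.of fun i j => M i j).det ≠ 0 := by
    intro h0
    rw [h2, h0, zero_mul] at he₀
    exact he₀ rfl
  have h4 : (fun e : Fin r → Fin n => mnr v e) =
      (Matrix.of fun i j => M i j).det • fun e : Fin r → Fin n => mnr G₀ e := funext fun e => h2 e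
  rw [h4, logHeight_smul_eq_logHeight _ h3]
  exact logHeight_comp_le (fun e : Fin r ↪o Fin n => (e : Fin r → Fin n))
    (fun e : Fin r → Fin n => mnr G₀ e)

/-- The determinant of a block triangular matrix. -/
private theorem J3_det {F : Type*} [Field F] {E : Type} [Fintype E] [DecidableEq E] (c : E → ℕ)
    (hc : Function.Injective c) {r : E → ℕ}
    (M : Matrix (Σ a, Fin (r a)) (Σ a, Fin (r a)) F) (hM : ∀ s t, c t.1 < c s.1 → M s t = 0) :
    M.det = ∏ a, (Matrix.of fun i j : Fin (r a) => M ⟨a, i⟩ ⟨a, j⟩).det := by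
  let inst : LinearOrder E := LinearOrder.lift' c hc
  have h1 : M.BlockTriangular Sigma.fst := fun s t hst => hM s t hst
  rw [h1.det_fintype]
  refine Finset.prod_congr rfl fun a _ => ?_
  rw [← Matrix.det_submatrix_equiv_self (Equiv.sigmaSubtype a).symm]
  rfl

/-- The dimensions. -/
private theorem J3_dim {K : Type*} [Field K] {E : Type} [Fintype E] {n : ℕ} (c : E → ℕ)
    (hc : Function.Injective c) (V : Submodule K (E × Fin n → K))
    (W : ℕ → Submodule K (E × Fin n → K))
    (hW : ∀ m z, z ∈ W m ↔ z ∈ V ∧ ∀ a, c a < m → ∀ l, z (a, l) = 0) :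
    ∑ a, Module.finrank K ((W (c a)).map (LinearMap.funLeft K K fun l : Fin n => (a, l))) =
      Module.finrank K V := by
  classical
  have h1 : ∀ m, Module.finrank K (W m) + ∑ a ∈ Finset.univ.filter (fun a => c a < m),
      Module.finrank K ((W (c a)).map (LinearMap.funLeft K K fun l : Fin n => (a, l))) =
      Module.finrank K V := by
    intro m
    induction m with
    | zero =>
      have h2 : W 0 = V := by
        ext z
        rw [hW]
        exact ⟨fun h => h.1, fun h => ⟨h, fun a ha => absurd ha (Nat.not_lt_zero _)⟩⟩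
      rw [h2, Finset.filter_false_of_mem (fun a _ => Nat.not_lt_zero _), Finset.sum_empty, add_zero]
    | succ m ih =>
      by_cases hm : ∃ a, c a = m
      · obtain ⟨a, ha⟩ := hm
        have h3 : Finset.univ.filter (fun a' => c a' < m + 1) =
            insert a (Finset.univ.filter fun a' => c a' < m) := by
          ext a'
          rw [Finset.mem_insert, Finset.mem_filter, Finset.mem_filter]
          constructor
          · rintro ⟨_, h⟩
            rcases Nat.lt_succ_iff_lt_or_eq.1 h with h | h
            · exact Or.inr ⟨Finset.mem_univ _, h⟩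
            · exact Or.inl (hc (h.trans ha.symm))
          · rintro (h | ⟨_, h⟩)
            · rw [h, ha]
              exact ⟨Finset.mem_univ _, Nat.lt_succ_self _⟩
            · exact ⟨Finset.mem_univ _, Nat.lt_succ_of_lt h⟩
        have h4 : a ∉ Finset.univ.filter fun a' => c a' < m := by
          rw [Finset.mem_filter, ha]
          exact fun h => lt_irrefl _ h.2
        rw [h3, Finset.sum_insert h4, ← ih, ← add_assoc]
        congr 1
        rw [ha]
        let f : W m →ₗ[K] (Fin n → K) :=
          (LinearMap.funLeft K K fun l : Fin n => (a, l)).domRestrict (W m)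
        have h5 := LinearMap.finrank_range_add_finrank_ker f
        have h6 : LinearMap.range f = (W m).map (LinearMap.funLeft K K fun l : Fin n => (a, l)) :=
          LinearMap.range_domRestrict _ _
        have h7 : Module.finrank K (LinearMap.ker f) = Module.finrank K (W (m + 1)) := by
          have h8 : (LinearMap.ker f).map (W m).subtype = W (m + 1) := by
            ext z
            rw [Submodule.mem_map, hW]
            constructor
            · rintro ⟨⟨z, hz⟩, h9, rfl⟩
              have h10 := (hW m z).1 hz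
              refine ⟨h10.1, fun a' ha' l => ?_⟩
              rcases Nat.lt_succ_iff_lt_or_eq.1 ha' with h | h
              · exact h10.2 a' h l
              · have h11 : a' = a := hc (h.trans ha.symm)
                rw [h11]
                exact congrFun (LinearMap.mem_ker.1 h9) l
            · rintro ⟨h9, h10⟩
              refine ⟨⟨z, (hW m z).2 ⟨h9, fun a' ha' => h10 a' (Nat.lt_succ_of_lt ha')⟩⟩, ?_, rfl⟩
              refine LinearMap.mem_ker.2 (funext fun l => ?_)
              exact h10 a (by rw [ha]; exact Nat.lt_succ_self _) l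
          rw [← h8]
          exact (LinearEquiv.finrank_eq (Submodule.equivMapOfInjective _
            (Submodule.subtype_injective _) _))
        rw [h6, h7] at h5
        rw [← h5, add_comm]
      · have h3 : Finset.univ.filter (fun a' => c a' < m + 1) =
            Finset.univ.filter fun a' => c a' < m := by
          refine Finset.filter_congr fun a' _ => ?_
          rw [Nat.lt_succ_iff_lt_or_eq]
          exact ⟨fun h => h.resolve_right fun h => hm ⟨a', h⟩, Or.inl⟩
        have h4 : W (m + 1) = W m := by
          ext z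
          rw [hW, hW]
          refine and_congr Iff.rfl (forall_congr' fun a => ?_)
          rw [Nat.lt_succ_iff_lt_or_eq]
          exact ⟨fun h h' => h (Or.inl h'), fun h h' => h (h'.resolve_right fun h => hm ⟨a, h⟩)⟩
        rw [h3, h4]
        exact ih
  have h2 := h1 (Finset.univ.sup c + 1)
  have h3 : ∀ a, c a < Finset.univ.sup c + 1 := fun a =>
    Nat.lt_succ_of_le (Finset.le_sup (Finset.mem_univ a))
  have h4 : W (Finset.univ.sup c + 1) = ⊥ := by
    rw [eq_bot_iff]
    intro z hz
    rw [Submodule.mem_bot]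
    funext x
    exact ((hW _ z).1 hz).2 x.1 (h3 x.1) x.2
  rw [h4, finrank_bot, zero_add, Finset.filter_true_of_mem (fun a _ => h3 a)] at h2
  exact h2

/-- The height of a space and the heights of its graded pieces. -/
theorem J_flag {K : Type*} [Field K] [NumberField K] {γ E : Type} [Fintype γ] [DecidableEq γ]
    [Fintype E] [DecidableEq E] {g n : ℕ} (c : E → ℕ) (hc : Function.Injective c)
    (Y : γ → E × Fin n → K) (hY : LinearIndependent K Y) (G₀ : Fin g → Fin n → K)
    (hG₀ : LinearIndependent K G₀)
    (h : ∀ z ∈ Submodule.span K (Set.range Y), ∀ a : E,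
      (∀ a', c a' < c a → ∀ l, z (a', l) = 0) →
        (fun l => z (a, l)) ∈ Submodule.span K (Set.range G₀)) :
    (Fintype.card E - (g * Fintype.card E - Fintype.card γ) : ℝ) *
        logHeight (fun e : Fin g ↪o Fin n => mnr G₀ e) ≤
      logHeight (fun e : γ → E × Fin n => mnr Y e) := by
  classical
  let V : Submodule K (E × Fin n → K) := Submodule.span K (Set.range Y)
  let Z : ℕ → Submodule K (E × Fin n → K) := fun m =>
    { carrier := {z | ∀ a, c a < m → ∀ l, z (a, l) = 0}
      add_mem' := fun {z z'} hz hz' a ha l => by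
        rw [Pi.add_apply, hz a ha l, hz' a ha l, add_zero]
      zero_mem' := fun a _ l => rfl
      smul_mem' := fun t z hz a ha l => by
        rw [Pi.smul_apply, hz a ha l, smul_zero] }
  let W : ℕ → Submodule K (E × Fin n → K) := fun m => V ⊓ Z m
  have hW : ∀ m z, z ∈ W m ↔ z ∈ V ∧ ∀ a, c a < m → ∀ l, z (a, l) = 0 := fun m z => Iff.rfl
  let R : E → Submodule K (Fin n → K) := fun a =>
    (W (c a)).map (LinearMap.funLeft K K fun l : Fin n => (a, l))
  let r : E → ℕ := fun a => Module.finrank K (R a)
  have hdim : ∑ a, r a = Fintype.card γ := by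
    have h1 := J3_dim c hc V W hW
    rw [finrank_span_eq_card hY] at h1
    exact h1
  have hR : ∀ a, R a ≤ Submodule.span K (Set.range G₀) := by
    rintro a _ ⟨z, hz, rfl⟩
    exact h z hz.1 a hz.2
  have hr : ∀ a, r a ≤ g := by
    intro a
    refine (Submodule.finrank_mono (hR a)).trans ?_
    rw [finrank_span_eq_card hG₀, Fintype.card_fin]
  have h1 : ∀ a, ∃ B : Fin (r a) → E × Fin n → K, (∀ i, B i ∈ W (c a)) ∧
      (LinearIndependent K fun i l => B i (a, l)) ∧ ∀ i, (fun l => B i (a, l)) ∈ R a := by
    intro a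
    let β := Module.finBasis K (R a)
    choose B hB hB' using fun i => (β i).2
    refine ⟨B, hB, ?_, fun i => ?_⟩
    · have h2 : (fun (i : Fin (r a)) (l : Fin n) => B i (a, l)) = fun i => (β i : Fin n → K) :=
        funext fun i => hB' i
      rw [h2]
      exact β.linearIndependent.map' (R a).subtype (Submodule.ker_subtype _)
    · have h2 : (fun l => B i (a, l)) = (β i : Fin n → K) := hB' i
      rw [h2]
      exact (β i).2
  choose B hB hBli hBR using h1
  let Y' : (Σ a, Fin (r a)) → E × Fin n → K := fun s => B s.1 s.2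
  have h2 : ∀ s, ∃ m : γ → K, ∑ i, m i • Y i = Y' s := fun s =>
    (Submodule.mem_span_range_iff_exists_fun K).1 (hB s.1 s.2).1
  choose M hM using h2
  have hcard : Fintype.card γ = Fintype.card (Σ a, Fin (r a)) := by
    rw [Fintype.card_sigma, ← hdim]
    exact Finset.sum_congr rfl fun a _ => (Fintype.card_fin _).symm
  let σ : γ ≃ Σ a, Fin (r a) := Fintype.equivOfCardEq hcard
  let t : K := (Matrix.of fun i j => M (σ i) j).det
  have h3 : ∀ e : (Σ a, Fin (r a)) → E × Fin n, mnr Y' e = t * mnr Y fun i => e (σ i) := by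
    intro e
    refine J3_mul σ Y Y' M (fun s x => ?_) e
    rw [← hM s, Finset.sum_apply]
    rfl
  let up : ((a : E) → (Fin (r a) → Fin n)) → (Σ a, Fin (r a)) → E × Fin n := fun ε s =>
    (s.1, ε s.1 s.2)
  have h4 : ∀ ε, mnr Y' (up ε) = ∏ a, mnr (fun i l => B a i (a, l)) (ε a) := by
    intro ε
    have h5 := J3_det c hc (Matrix.of fun s t => Y' s (up ε t))
      (fun s t hst => (hB s.1 s.2).2 t.1 hst _)
    exact h5
  have h5 : ∀ a, (fun e : Fin (r a) → Fin n => mnr (fun i l => B a i (a, l)) e) ≠ 0 := by
    intro a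
    obtain ⟨e, he⟩ := J3_minor _ (hBli a)
    exact Function.ne_iff.2 ⟨e, he⟩
  have ht : t ≠ 0 := by
    intro h0
    choose ε hε using fun a => Function.ne_iff.1 (h5 a)
    have h6 := h4 ε
    rw [h3, h0, zero_mul] at h6
    exact Finset.prod_ne_zero_iff.2 (fun a _ => hε a) h6.symm
  have h6 : ∑ a, logHeight (fun e : Fin (r a) → Fin n => mnr (fun i l => B a i (a, l)) e) ≤
      logHeight (fun e : γ → E × Fin n => mnr Y e) := by
    rw [← logHeight_fun_prod_eq h5]
    have h7 : (fun ε : (a : E) → (Fin (r a) → Fin n) =>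
        ∏ a, mnr (fun i l => B a i (a, l)) (ε a)) =
        t • ((fun e : γ → E × Fin n => mnr Y e) ∘ fun ε i => up ε (σ i)) := by
      funext ε
      rw [← h4 ε, h3]
      rfl
    rw [h7, logHeight_smul_eq_logHeight _ ht]
    exact logHeight_comp_le _ _
  refine le_trans ?_ h6
  have hH : 0 ≤ logHeight (fun e : Fin g ↪o Fin n => mnr G₀ e) := logHeight_nonneg _
  have h7 : ∀ a, (1 - ((g : ℝ) - r a)) * logHeight (fun e : Fin g ↪o Fin n => mnr G₀ e) ≤
      logHeight (fun e : Fin (r a) → Fin n => mnr (fun i l => B a i (a, l)) e) := by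
    intro a
    by_cases hra : r a = g
    · have h10 : (1 - ((g : ℝ) - r a)) = 1 := by
        rw [hra]
        ring
      rw [h10, one_mul]
      exact J3_height hra _ (hBli a) G₀ fun i => hR a (hBR a i)
    · have h8 : r a + 1 ≤ g := Nat.lt_of_le_of_ne (hr a) hra
      have h9 : ((r a : ℝ) + 1) ≤ g := by exact_mod_cast h8
      refine le_trans (mul_nonpos_of_nonpos_of_nonneg (by linarith) hH) (logHeight_nonneg _)
  have h8 : (Fintype.card E - (g * Fintype.card E - Fintype.card γ) : ℝ) *
      logHeight (fun e : Fin g ↪o Fin n => mnr G₀ e) =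
      ∑ a, (1 - ((g : ℝ) - r a)) * logHeight (fun e : Fin g ↪o Fin n => mnr G₀ e) := by
    rw [← Finset.sum_mul]
    congr 1
    rw [Finset.sum_sub_distrib, Finset.sum_sub_distrib, ← hdim]
    push_cast
    rw [Finset.sum_const, Finset.sum_const, Finset.card_univ, nsmul_eq_mul, nsmul_eq_mul]
    ring
  rw [h8]
  exact Finset.sum_le_sum fun a _ => h7 a

end Pool.Agent.Lib.MP_17a322_nt.VB
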