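import Pool.Agent.Lib.MP_17a322_nt.VB.A1
import Pool.Agent.Lib.MP_17a322_nt.VB.J1
import Pool.Agent.Lib.MP_17a322_nt.VB.J2
import Pool.Agent.Lib.MP_17a322_nt.VB.J3

/-!
The height of the space of the relations at a point of the fibre, from the jets at this point.
-/

universe u

namespace Pool.Agent.Lib.MP_17a322_nt.VB

open MvPolynomial Height
open Pool.Agent.Lib.MP_17a322_nt.VA
open Pool.Agent.Lib.MP_17a322_nt.SL
open Pool.Agent.Lib.MP_17a322_nt.SG (Bx toF shf Ix)
open Pool.Agent.Lib.MP_17a322_nt.TB (Tor Kp Cx ex ev maxWt wB LamT phi)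

private theorem J4_pv_add {q M n : ℕ} {R : Type*} [CommRing R] (z z' : Bx q M × Fin n → R) :
    (pv (z + z') : Fin n → MvPolynomial (Fin q) R) = pv z + pv z' := by
  funext l
  unfold pv
  rw [Pi.add_apply, ← Finset.sum_add_distrib]
  refine Finset.sum_congr rfl fun b _ => ?_
  rw [Pi.add_apply, map_add]

private theorem J4_pv_smul {q M n : ℕ} {R : Type*} [CommRing R] (c : R)
    (z : Bx q M × Fin n → R) :
    (pv (c • z) : Fin n → MvPolynomial (Fin q) R) = (C c : MvPolynomial (Fin q) R) • pv z := by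
  funext l
  unfold pv
  rw [Pi.smul_apply, smul_eq_mul, Finset.mul_sum]
  refine Finset.sum_congr rfl fun b _ => ?_
  rw [Pi.smul_apply, smul_eq_mul, C_mul_monomial]

private theorem J4_pv_zero {q M n : ℕ} {R : Type*} [CommRing R] :
    (pv (0 : Bx q M × Fin n → R) : Fin n → MvPolynomial (Fin q) R) = 0 := by
  funext l
  unfold pv
  rw [Pi.zero_apply]
  refine Finset.sum_eq_zero fun b _ => ?_
  rw [Pi.zero_apply, map_zero]

private theorem J4_span {q M g n : ℕ} {K γ : Type*} [Field K]
    (Gh : Fin g → Fin n → MvPolynomial (Fin q) K) (Z : γ → Bx q M × Fin n → K)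
    (hZ : ∀ c, InRow Gh (pv (Z c))) {z : Bx q M × Fin n → K}
    (hz : z ∈ Submodule.span K (Set.range Z)) : InRow Gh (pv z) := by
  induction hz using Submodule.span_induction with
  | mem x hx =>
    obtain ⟨c, rfl⟩ := hx
    exact hZ c
  | zero =>
    rw [J4_pv_zero]
    have h := inRow_smul (M := Gh) (z := 0) 0 ?_
    · rwa [zero_smul] at h
    · intro e
      obtain ⟨c, hc⟩ := mnr_last Gh e
      rw [hc]
      exact Finset.sum_eq_zero fun j _ => by rw [Pi.zero_apply, zero_mul]
  | add x y _ _ hx hy =>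
    rw [J4_pv_add]
    exact inRow_add hx hy
  | smul a x _ hx =>
    rw [J4_pv_smul]
    exact inRow_smul _ hx

/-- The twist by the powers of `t`. -/
private noncomputable def J4_tw {K : Type*} [Field K] {q M n : ℕ} (t : Fin q → K) :
    (Bx q M × Fin n → K) →ₗ[K] (Bx q M × Fin n → K) where
  toFun z x := z x * ∏ i, t i ^ (x.1 i : ℕ)
  map_add' z z' := by
    funext x
    simp only [Pi.add_apply]
    ring
  map_smul' c z := by
    funext x
    simp only [Pi.smul_apply, smul_eq_mul, RingHom.id_apply]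
    ring

private theorem J4_tw_inj {K : Type*} [Field K] {q M n : ℕ} {t : Fin q → K} (ht : ∀ i, t i ≠ 0) :
    LinearMap.ker (J4_tw (M := M) (n := n) t) = ⊥ := by
  rw [LinearMap.ker_eq_bot']
  intro z hz
  funext x
  have h := congrFun hz x
  have h1 : z x * ∏ i, t i ^ (x.1 i : ℕ) = 0 := h
  have h2 : (∏ i, t i ^ (x.1 i : ℕ)) ≠ 0 :=
    Finset.prod_ne_zero_iff.2 fun i _ => pow_ne_zero _ (ht i)
  exact (mul_eq_zero.1 h1).resolve_right h2

/-- The Taylor coefficients. -/
private noncomputable def J4_ty {K : Type*} [Field K] {q M n : ℕ} :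
    (Bx q M × Fin n → K) →ₗ[K] (Bx q M × Fin n → K) where
  toFun z x := ∑ b : Bx q M, (∏ i, (Nat.choose (b i) (x.1 i) : K)) * z (b, x.2)
  map_add' z z' := by
    funext x
    simp only [Pi.add_apply]
    rw [← Finset.sum_add_distrib]
    exact Finset.sum_congr rfl fun b _ => mul_add _ _ _
  map_smul' c z := by
    funext x
    simp only [Pi.smul_apply, smul_eq_mul, RingHom.id_apply]
    rw [Finset.mul_sum]
    exact Finset.sum_congr rfl fun b _ => by ring

theorem jets {K : Type*} [Field K] [NumberField K] (γ : Type) [Fintype γ] [DecidableEq γ]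
    (q g n M : ℕ) :
    ∃ C : ℝ, ∀ (Gh : Fin g → Fin n → MvPolynomial (Fin q) K) (t : Fin q → K),
      (∀ i, t i ≠ 0) → LinearIndependent K (fun i l => eval t (Gh i l)) →
      ∀ Z : γ → Bx q M × Fin n → K, LinearIndependent K Z → (∀ c, InRow Gh (pv (Z c))) →
      ((M + 1) ^ q - (g * (M + 1) ^ q - Fintype.card γ) : ℝ) *
          logHeight (fun e : Fin g ↪o Fin n => mnr (fun i l => eval t (Gh i l)) e) ≤
        logHeight (fun e : γ → Bx q M × Fin n =>
          mnr (fun i x => Z i x * ∏ i, t i ^ (x.1 i : ℕ)) e) + C := by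
  obtain ⟨C, hC⟩ := J_change (K := K) γ q M n
  refine ⟨C, fun Gh t ht hG Z hZ hZr => ?_⟩
  have hY : LinearIndependent K fun i => J4_tw (M := M) (n := n) t (Z i) :=
    hZ.map' _ (J4_tw_inj ht)
  obtain ⟨h1, h2⟩ := hC (fun i => J4_tw t (Z i)) hY
  have h3 := J_flag (K := K) (code : Bx q M → ℕ) code_inj _ h1
    (fun i l => eval t (Gh i l)) hG ?_
  · have hcard : (Fintype.card (Bx q M) : ℝ) = (M + 1) ^ q := by
      rw [Fintype.card_fun, Fintype.card_fin, Fintype.card_fin]
      push_cast
      ring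
    rw [hcard] at h3
    refine h3.trans (h2.trans (le_of_eq ?_))
    rfl
  · intro z' hz' a ha
    have hsp : ∃ z ∈ Submodule.span K (Set.range Z), J4_ty (J4_tw t z) = z' := by
      have h4 : Submodule.span K (Set.range fun i (x : Bx q M × Fin n) =>
          ∑ b : Bx q M, (∏ i, (Nat.choose (b i) (x.1 i) : K)) * J4_tw t (Z i) (b, x.2)) =
          (Submodule.span K (Set.range Z)).map
            ((J4_ty (M := M) (n := n) (K := K)).comp (J4_tw (M := M) (n := n) t)) := by
        rw [Submodule.map_span, ← Set.range_comp]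
        rfl
      rw [h4] at hz'
      obtain ⟨z, hz, hzz⟩ := hz'
      exact ⟨z, hz, hzz⟩
    obtain ⟨z, hz, rfl⟩ := hsp
    have h5 := J_lead Gh t hG z (J4_span Gh Z hZr hz) a (fun a' ha' l => ha a' ha' l)
    exact h5

end Pool.Agent.Lib.MP_17a322_nt.VB
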