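import Pool.Agent.Lib.MP_17a322_nt.VB.Defs
import Pool.Agent.Lib.MP_17a322_nt.EF.T1

/-!
Cramer: the kernel of a matrix of forms.
-/

universe u

namespace Pool.Agent.Lib.MP_17a322_nt.VB

open MvPolynomial Height
open Pool.Agent.Lib.MP_17a322_nt.VA
open Pool.Agent.Lib.MP_17a322_nt.SL
open Pool.Agent.Lib.MP_17a322_nt.SG (Bx toF shf Ix)
open Pool.Agent.Lib.MP_17a322_nt.TB (Tor Kp Cx ex ev maxWt wB LamT phi)

namespace K1

section

variable {K : Type*} [Field K] {σ : Type*}

/-- Every monomial of `p` has degree `b - a`. -/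
def Hd (a b : ℕ) (p : MvPolynomial σ K) : Prop :=
  ∀ μ, coeff μ p ≠ 0 → Finsupp.weight (1 : σ → ℕ) μ + a = b

theorem Hd.iff {a b : ℕ} {p : MvPolynomial σ K} :
    Hd a b p ↔ p = 0 ∨ ∃ m, p.IsHomogeneous m ∧ m + a = b := by
  constructor
  · intro h
    by_cases hp : p = 0
    · exact Or.inl hp
    · right
      obtain ⟨μ, hμ⟩ := MvPolynomial.ne_zero_iff.1 hp
      refine ⟨Finsupp.weight 1 μ, ?_, h μ hμ⟩
      intro ν hν
      have h1 := h μ hμ
      have h2 := h ν hν
      omega
  · rintro (h | ⟨m, hm, hmb⟩) μ hμ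
    · rw [h, coeff_zero] at hμ
      exact absurd rfl hμ
    · rw [hm hμ]
      exact hmb

theorem Hd.exists_hom {a b : ℕ} {p : MvPolynomial σ K} (h : Hd a b p) :
    ∃ m, p.IsHomogeneous m := by
  rcases Hd.iff.1 h with h1 | ⟨m, h1, _⟩
  · exact ⟨0, by
      rw [h1]
      exact isHomogeneous_zero σ K 0⟩
  · exact ⟨m, h1⟩

theorem Hd.zero (a b : ℕ) : Hd a b (0 : MvPolynomial σ K) := by
  intro μ hμ
  rw [coeff_zero] at hμ
  exact absurd rfl hμ

theorem Hd.one : Hd 0 0 (1 : MvPolynomial σ K) := by
  classical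
  intro μ hμ
  rw [coeff_one] at hμ
  split_ifs at hμ with h
  · rw [← h, map_zero]
  · exact absurd rfl hμ

theorem Hd.add {a b : ℕ} {p p' : MvPolynomial σ K} (h : Hd a b p) (h' : Hd a b p') :
    Hd a b (p + p') := by
  intro μ hμ
  rw [coeff_add] at hμ
  by_cases h0 : coeff μ p = 0
  · rw [h0, zero_add] at hμ
    exact h' μ hμ
  · exact h μ h0

theorem Hd.sum {α : Type*} (s : Finset α) {a b : ℕ} {p : α → MvPolynomial σ K}
    (h : ∀ i ∈ s, Hd a b (p i)) : Hd a b (∑ i ∈ s, p i) := by
  classical
  induction s using Finset.induction_on with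
  | empty =>
    rw [Finset.sum_empty]
    exact Hd.zero a b
  | insert i s hi ih =>
    rw [Finset.sum_insert hi]
    exact (h i (Finset.mem_insert_self i s)).add (ih fun j hj => h j (Finset.mem_insert_of_mem hj))

theorem Hd.neg {a b : ℕ} {p : MvPolynomial σ K} (h : Hd a b p) : Hd a b (-p) := by
  intro μ hμ
  rw [coeff_neg, neg_ne_zero] at hμ
  exact h μ hμ

theorem Hd.sub {a b : ℕ} {p p' : MvPolynomial σ K} (h : Hd a b p) (h' : Hd a b p') :
    Hd a b (p - p') := by
  rw [sub_eq_add_neg]
  exact h.add h'.neg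

theorem Hd.smul {a b : ℕ} {p : MvPolynomial σ K} (h : Hd a b p) (u : ℤˣ) : Hd a b (u • p) := by
  rcases Int.units_eq_one_or u with h1 | h1
  · rw [h1, one_smul]
    exact h
  · rw [h1, Units.smul_def, Units.val_neg, Units.val_one, neg_smul, one_smul]
    exact h.neg

theorem Hd.mul {a b a' b' : ℕ} {p p' : MvPolynomial σ K} (h : Hd a b p) (h' : Hd a' b' p') :
    Hd (a + a') (b + b') (p * p') := by
  classical
  intro μ hμ
  rw [coeff_mul] at hμ
  obtain ⟨x, hx, hx0⟩ := Finset.exists_ne_zero_of_sum_ne_zero hμ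
  have h1 := h x.1 (left_ne_zero_of_mul hx0)
  have h2 := h' x.2 (right_ne_zero_of_mul hx0)
  rw [Finset.HasAntidiagonal.mem_antidiagonal] at hx
  rw [← hx, map_add]
  omega

theorem Hd.prod {α : Type*} (s : Finset α) {a b : α → ℕ} {p : α → MvPolynomial σ K}
    (h : ∀ i ∈ s, Hd (a i) (b i) (p i)) : Hd (∑ i ∈ s, a i) (∑ i ∈ s, b i) (∏ i ∈ s, p i) := by
  classical
  induction s using Finset.induction_on with
  | empty =>
    rw [Finset.sum_empty, Finset.sum_empty, Finset.prod_empty]
    exact Hd.one
  | insert i s hi ih =>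
    rw [Finset.sum_insert hi, Finset.sum_insert hi, Finset.prod_insert hi]
    exact (h i (Finset.mem_insert_self i s)).mul (ih fun j hj => h j (Finset.mem_insert_of_mem hj))

theorem Hd.det {α : Type*} [Fintype α] [DecidableEq α] {a b : α → ℕ}
    {M : Matrix α α (MvPolynomial σ K)} (h : ∀ i j, Hd (a j) (b i) (M i j)) :
    Hd (∑ j, a j) (∑ i, b i) M.det := by
  rw [Matrix.det_apply]
  refine Hd.sum _ fun τ _ => Hd.smul ?_ _
  have h1 : ∑ i, b i = ∑ i, b (τ i) := (Equiv.sum_comp τ b).symm
  rw [h1]
  exact Hd.prod _ fun i _ => h (τ i) i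

theorem Hd.shift {a b : ℕ} {p : MvPolynomial σ K} (h : Hd a b p) {a' b' : ℕ}
    (h' : a' + b = a + b') : Hd a' b' p := by
  intro μ hμ
  have := h μ hμ
  omega

end

section

/-- The matrix of the rows `a` and the columns `e`. -/
def sm {R ι κ : Type*} {t : ℕ} (Q : ι → κ → R) (a : Fin t → ι) (e : Fin t → κ) :
    Matrix (Fin t) (Fin t) R :=
  Matrix.of fun i j => Q (a i) (e j)

/-- The matrix with the column `j` replaced by the column `c` of `Q`. -/
def sc {R ι κ : Type*} {t : ℕ} (Q : ι → κ → R) (a : Fin t → ι) (e : Fin t → κ) (j : Fin t)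
    (c : κ) : Matrix (Fin t) (Fin t) R :=
  (sm Q a e).updateCol j fun i => Q (a i) c

/-- The solutions of the equations. -/
def sol {R ι κ : Type*} [CommRing R] [DecidableEq κ] {t : ℕ} (Q : ι → κ → R) (a : Fin t → ι)
    (e : Fin t → κ) (c k : κ) : R :=
  (if k = c then (sm Q a e).det else 0) - ∑ j, if k = e j then (sc Q a e j c).det else 0

theorem sum_sol {R ι κ : Type*} [CommRing R] [Fintype κ] [DecidableEq κ] {t : ℕ} (Q : ι → κ → R)
    (a : Fin t → ι) (e : Fin t → κ) (c : κ) (i : ι) :
    ∑ k, Q i k * sol Q a e c k =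
      Q i c * (sm Q a e).det - ∑ j, Q i (e j) * (sc Q a e j c).det := by
  simp only [sol, mul_sub, Finset.sum_sub_distrib, mul_ite, mul_zero, Finset.mul_sum]
  rw [Finset.sum_comm (s := Finset.univ (α := κ))]
  simp only [Finset.sum_ite_eq', Finset.mem_univ, if_true]

theorem map_sm {R S ι κ : Type*} [CommRing R] [CommRing S] {t : ℕ} (φ : R →+* S) (Q : ι → κ → R)
    (a : Fin t → ι) (e : Fin t → κ) :
    φ (sm Q a e).det = (sm (fun i k => φ (Q i k)) a e).det := by
  rw [RingHom.map_det]
  rfl

theorem map_sc {R S ι κ : Type*} [CommRing R] [CommRing S] {t : ℕ} (φ : R →+* S) (Q : ι → κ → R)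
    (a : Fin t → ι) (e : Fin t → κ) (j : Fin t) (c : κ) :
    φ (sc Q a e j c).det = (sc (fun i k => φ (Q i k)) a e j c).det := by
  rw [RingHom.map_det]
  refine congrArg Matrix.det ?_
  ext i j'
  simp only [RingHom.mapMatrix_apply, Matrix.map_apply, sc, sm, Matrix.updateCol_apply,
    Matrix.of_apply]
  split_ifs
  · rfl
  · rfl

theorem map_sol {R S ι κ : Type*} [CommRing R] [CommRing S] [DecidableEq κ] {t : ℕ} (φ : R →+* S)
    (Q : ι → κ → R) (a : Fin t → ι) (e : Fin t → κ) (c k : κ) :
    φ (sol Q a e c k) = sol (fun i k => φ (Q i k)) a e c k := by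
  simp only [sol, map_sub, map_sum]
  congr 1
  · split_ifs
    · exact map_sm φ Q a e
    · exact map_zero φ
  · refine Finset.sum_congr rfl fun j _ => ?_
    split_ifs
    · exact map_sc φ Q a e j c
    · exact map_zero φ

/-- Cramer's rule. -/
theorem cramer_sum {F ι κ : Type*} [Field F] {t : ℕ} (Q : ι → κ → F)
    (a : Fin t → ι) (e : Fin t → κ) (c : κ) (i : Fin t) :
    ∑ j, Q (a i) (e j) * (sc Q a e j c).det = (sm Q a e).det * Q (a i) c := by
  have h := Matrix.mulVec_cramer (sm Q a e) fun i => Q (a i) c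
  have h1 := congrFun h i
  simp only [Matrix.mulVec, dotProduct, Matrix.cramer_apply, Pi.smul_apply, smul_eq_mul] at h1
  exact h1

/-- The bordered minor. -/
theorem border {F ι κ : Type*} [Field F] {t : ℕ} (Q : ι → κ → F)
    (a : Fin t → ι) (e : Fin t → κ) (hd : (sm Q a e).det ≠ 0)
    (hmax : ∀ (a' : Fin (t + 1) → ι) (e' : Fin (t + 1) → κ), (sm Q a' e').det = 0)
    (c : κ) (i : ι) :
    Q i c * (sm Q a e).det - ∑ j, Q i (e j) * (sc Q a e j c).det = 0 := by
  have h0 := hmax (Fin.snoc a i) (Fin.snoc e c)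
  obtain ⟨v, hv0, hv⟩ := Matrix.exists_mulVec_eq_zero_iff.2 h0
  have hrow : ∀ i' : ι, ∀ s : Fin (t + 1), (Fin.snoc a i : Fin (t + 1) → ι) s = i' →
      ∑ j : Fin t, Q i' (e j) * v (Fin.castSucc j) + Q i' c * v (Fin.last t) = 0 := by
    intro i' s hs
    have h1 := congrFun hv s
    simp only [Matrix.mulVec, dotProduct, Pi.zero_apply] at h1
    rw [Fin.sum_univ_castSucc] at h1
    simp only [sm, Matrix.of_apply, hs, Fin.snoc_castSucc, Fin.snoc_last] at h1
    exact h1
  have hw : v (Fin.last t) ≠ 0 := by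
    intro hw
    have h1 : (sm Q a e).mulVec (fun j => v (Fin.castSucc j)) = 0 := by
      funext i'
      have h2 := hrow (a i') (Fin.castSucc i') (Fin.snoc_castSucc (α := fun _ => ι) i a i')
      rw [hw, mul_zero, add_zero] at h2
      exact h2
    have h2 := Matrix.eq_zero_of_mulVec_eq_zero hd h1
    apply hv0
    funext s
    refine Fin.lastCases hw (fun j => ?_) s
    exact congrFun h2 j
  -- the entries of `v`
  have hj : ∀ j, (sm Q a e).det * v (Fin.castSucc j) = -(v (Fin.last t) * (sc Q a e j c).det) := by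
    have h1 : (sm Q a e).mulVec (fun j => (sm Q a e).det * v (Fin.castSucc j) +
        v (Fin.last t) * (sc Q a e j c).det) = 0 := by
      funext i'
      have h2 := hrow (a i') (Fin.castSucc i') (Fin.snoc_castSucc (α := fun _ => ι) i a i')
      have h3 := cramer_sum Q a e c i'
      simp only [Matrix.mulVec, dotProduct, Pi.zero_apply, sm, Matrix.of_apply] at h2 h3 ⊢
      have h4 : ∀ j, Q (a i') (e j) * ((Matrix.of fun i j => Q (a i) (e j)).det *
          v (Fin.castSucc j) + v (Fin.last t) * (sc Q a e j c).det) =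
          (Matrix.of fun i j => Q (a i) (e j)).det * (Q (a i') (e j) * v (Fin.castSucc j)) +
          v (Fin.last t) * (Q (a i') (e j) * (sc Q a e j c).det) := fun j => by ring
      simp only [h4]
      rw [Finset.sum_add_distrib, ← Finset.mul_sum, ← Finset.mul_sum, h3]
      linear_combination (Matrix.of fun i j => Q (a i) (e j)).det * h2
    have h2 := Matrix.eq_zero_of_mulVec_eq_zero hd h1
    intro j
    have h3 := congrFun h2 j
    simp only [Pi.zero_apply] at h3
    exact eq_neg_of_add_eq_zero_left h3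
  have h1 := hrow i (Fin.last t) (Fin.snoc_last (α := fun _ => ι) i a)
  have h2 : v (Fin.last t) *
      (Q i c * (sm Q a e).det - ∑ j, Q i (e j) * (sc Q a e j c).det) = 0 := by
    have h3 : (sm Q a e).det * (∑ j : Fin t, Q i (e j) * v (Fin.castSucc j)) =
        -(v (Fin.last t) * ∑ j, Q i (e j) * (sc Q a e j c).det) := by
      rw [Finset.mul_sum, Finset.mul_sum, ← Finset.sum_neg_distrib]
      refine Finset.sum_congr rfl fun j _ => ?_
      have h4 := hj j
      linear_combination Q i (e j) * h4
    linear_combination (sm Q a e).det * h1 - h3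
  exact (mul_eq_zero.1 h2).resolve_left hw

theorem sol_last {R ι κ : Type*} [CommRing R] [DecidableEq κ] {t : ℕ} (Q : ι → κ → R)
    (a : Fin t → ι) (e : Fin t → κ) (c k : κ) (hk : k ∉ Set.range e) :
    sol Q a e c k = if k = c then (sm Q a e).det else 0 := by
  have h1 : ∑ j, (if k = e j then (sc Q a e j c).det else 0) = 0 := by
    refine Finset.sum_eq_zero fun j _ => ?_
    rw [if_neg]
    intro h
    exact hk ⟨j, h.symm⟩
  rw [sol, h1, sub_zero]

end

end K1

section

variable {K : Type u} [Field K] {N : ℕ} (A : AV K N)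

open K1 in
/-- Cramer: the kernel of a matrix of forms. -/
theorem ker_exists {ι κ : Type} [Fintype ι] [Fintype κ] [DecidableEq κ]
    (Q : ι → κ → MvPolynomial (Fin (N + 1)) K) (R : ι → ℕ) (δ : κ → ℕ)
    (hQ : ∀ i k, Q i k = 0 ∨ ∃ m, (Q i k).IsHomogeneous m ∧ m + δ k = R i) :
    ∃ (γ : Type) (_ : Fintype γ) (_ : DecidableEq γ)
      (G' : γ → κ → MvPolynomial (Fin (N + 1)) K) (D' : ℕ) (ρ : γ → ℕ),
      (∀ i x, G' i x = 0 ∨ ∃ m, (G' i x).IsHomogeneous m ∧ m + ρ i = D' + δ x) ∧
      (∀ (L : Type u) [Field L] [Algebra K L] (P : A.Pts L) (c : γ) (i : ι),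
        ∑ k, aeval (A.x P) (Q i k) * aeval (A.x P) (G' c k) = 0) ∧
      ∀ (L : Type u) [Field L] [Algebra K L] (P : A.Pts L), Gen A P →
        LinearIndependent L (fun c k => aeval (A.x P) (G' c k)) ∧
        ∀ z : κ → L, (∀ i, ∑ k, aeval (A.x P) (Q i k) * z k = 0) →
          z ∈ Submodule.span L (Set.range fun c k => aeval (A.x P) (G' c k)) := by
  classical
  obtain ⟨L₀, _, _, _, P₀, hP₀⟩ := EF.T_gen A
  -- a maximal minor
  let Q₀ : ι → κ → L₀ := fun i k => aeval (A.x P₀) (Q i k)
  have hex : ∃ t, ¬ ∃ (a : Fin t → ι) (e : Fin t → κ), (sm Q₀ a e).det ≠ 0 := by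
    refine ⟨Fintype.card ι + 1, ?_⟩
    rintro ⟨a, e, hd⟩
    apply hd
    obtain ⟨i, j, hij, haij⟩ := Fintype.exists_ne_map_eq_of_card_lt a (by
      rw [Fintype.card_fin]
      exact Nat.lt_succ_self _)
    refine Matrix.det_zero_of_row_eq hij ?_
    funext k
    simp only [sm, Matrix.of_apply, haij]
  obtain ⟨t, ⟨a, e, hd⟩, hmax⟩ : ∃ t, (∃ (a : Fin t → ι) (e : Fin t → κ),
      (sm Q₀ a e).det ≠ 0) ∧ ∀ (a' : Fin (t + 1) → ι) (e' : Fin (t + 1) → κ),
        (sm Q₀ a' e').det = 0 := by
    have h1 := Nat.find_spec hex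
    have h2 : Nat.find hex ≠ 0 := by
      intro h0
      rw [h0] at h1
      exact h1 ⟨Fin.elim0, Fin.elim0, by
        rw [Matrix.det_isEmpty]
        exact one_ne_zero⟩
    obtain ⟨t, ht⟩ := Nat.exists_eq_succ_of_ne_zero h2
    refine ⟨t, ?_, ?_⟩
    · have h3 := Nat.find_min hex (m := t) (by
        rw [ht]
        exact Nat.lt_succ_self t)
      exact not_not.1 h3
    · intro a' e'
      rw [ht] at h1
      by_contra h4
      exact h1 ⟨a', e', h4⟩
  have hH : ∀ i k, Hd (δ k) (R i) (Q i k) := fun i k => Hd.iff.2 (hQ i k)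
  have hHd : Hd (∑ j, δ (e j)) (∑ i, R (a i)) (sm Q a e).det :=
    Hd.det fun i j => hH (a i) (e j)
  have hHc : ∀ j c, Hd (∑ j', δ (e j') + δ c) (∑ i, R (a i) + δ (e j)) (sc Q a e j c).det := by
    intro j c
    have h1 : Hd (∑ j', Function.update (fun j' => δ (e j')) j (δ c) j') (∑ i, R (a i))
        (sc Q a e j c).det := by
      refine Hd.det fun i j' => ?_
      by_cases hj : j' = j
      · subst hj
        rw [sc, Matrix.updateCol_self, Function.update_self]
        exact hH _ _
      · rw [sc, Matrix.updateCol_ne hj, Function.update_of_ne hj]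
        exact hH _ _
    refine h1.shift ?_
    have h2 : ∑ j', Function.update (fun j' => δ (e j')) j (δ c) j' + δ (e j) =
        ∑ j', δ (e j') + δ c := by
      rw [Finset.sum_update_of_mem (Finset.mem_univ j),
        ← Finset.add_sum_erase Finset.univ (fun j' => δ (e j')) (Finset.mem_univ j),
        Finset.sdiff_singleton_eq_erase]
      ring
    omega
  have hev : ∀ (L : Type u) [Field L] [Algebra K L] (P : A.Pts L),
      (∀ c k, aeval (A.x P) (sol Q a e c k) =
        sol (fun i k => aeval (A.x P) (Q i k)) a e c k) ∧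
      aeval (A.x P) (sm Q a e).det = (sm (fun i k => aeval (A.x P) (Q i k)) a e).det := by
    intro L _ _ P
    refine ⟨fun c k => ?_, ?_⟩
    · exact map_sol (aeval (A.x P)).toRingHom Q a e c k
    · exact map_sm (aeval (A.x P)).toRingHom Q a e
  -- the determinant at generic points
  have hdet : ∀ (L : Type u) [Field L] [Algebra K L] (P : A.Pts L), Gen A P →
      (sm (fun i k => aeval (A.x P) (Q i k)) a e).det ≠ 0 := by
    intro L _ _ P hP h0
    obtain ⟨m, hm⟩ := hHd.exists_hom
    have h1 := hP (sm Q a e).det m hm (by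
      rw [(hev L P).2]
      exact h0)
    have h2 := A.x_isPt P₀ _ h1
    rw [(hev L₀ P₀).2] at h2
    exact hd h2
  -- the equations
  have heq : ∀ (c : κ) (i : ι), ∑ k, Q i k * sol Q a e c k ∈ A.I := by
    intro c i
    have h1 : Hd (∑ j', δ (e j') + δ c) (∑ i, R (a i) + R i) (∑ k, Q i k * sol Q a e c k) := by
      rw [sum_sol]
      refine Hd.sub ?_ (Hd.sum _ fun j _ => ?_)
      · exact ((hH i c).mul hHd).shift (by ring)
      · exact ((hH i (e j)).mul (hHc j c)).shift (by ring)
    obtain ⟨m, hm⟩ := h1.exists_hom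
    refine hP₀ _ m hm ?_
    rw [map_sum]
    simp only [map_mul, (hev L₀ P₀).1]
    have h2 := sum_sol Q₀ a e c i
    rw [border Q₀ a e hd hmax c i] at h2
    exact h2
  refine ⟨{c : κ // c ∉ Set.range e}, inferInstance, inferInstance,
    fun c k => sol Q a e c.1 k, ∑ i, R (a i), fun c => ∑ j, δ (e j) + δ c.1, ?_, ?_, ?_⟩
  · intro c k
    refine Hd.iff.1 ?_
    refine Hd.sub ?_ (Hd.sum _ fun j _ => ?_)
    · split_ifs with h
      · rw [h]
        exact hHd.shift (by ring)
      · exact Hd.zero _ _
    · split_ifs with h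
      · rw [h]
        exact hHc j c.1
      · exact Hd.zero _ _
  · intro L _ _ P c i
    have h1 := A.x_isPt P _ (heq c.1 i)
    rw [map_sum] at h1
    simp only [map_mul] at h1
    exact h1
  · intro L _ _ P hP
    have hdP := hdet L P hP
    constructor
    · rw [Fintype.linearIndependent_iff]
      intro g hg c
      have h1 := congrFun hg c.1
      rw [Finset.sum_apply] at h1
      simp only [Pi.smul_apply, Pi.zero_apply, smul_eq_mul, (hev L P).1] at h1
      rw [Finset.sum_eq_single c] at h1
      · rw [sol_last _ _ _ _ _ c.2, if_pos rfl] at h1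
        exact (mul_eq_zero.1 h1).resolve_right hdP
      · intro c' _ hc'
        rw [sol_last _ _ _ _ _ c.2, if_neg, mul_zero]
        intro h
        exact hc' (Subtype.ext h.symm)
      · intro h
        exact absurd (Finset.mem_univ c) h
    · intro z hz
      set d : L := (sm (fun i k => aeval (A.x P) (Q i k)) a e).det with hddef
      have hkey : ∀ k, d * z k = ∑ c : {c : κ // c ∉ Set.range e}, z c.1 *
          sol (fun i k => aeval (A.x P) (Q i k)) a e c.1 k := by
        -- the difference is in the kernel and vanishes outside of the range of `e`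
        let y : κ → L := fun k => d * z k - ∑ c : {c : κ // c ∉ Set.range e}, z c.1 *
          sol (fun i k => aeval (A.x P) (Q i k)) a e c.1 k
        have hy1 : ∀ k, k ∉ Set.range e → y k = 0 := by
          intro k hk
          have h1 : ∑ c : {c : κ // c ∉ Set.range e}, z c.1 *
              sol (fun i k => aeval (A.x P) (Q i k)) a e c.1 k = z k * d := by
            rw [Finset.sum_eq_single ⟨k, hk⟩]
            · rw [sol_last _ _ _ _ _ hk, if_pos rfl]
            · intro c' _ hc'
              rw [sol_last _ _ _ _ _ hk, if_neg, mul_zero]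
              intro h
              exact hc' (Subtype.ext h.symm)
            · intro h
              exact absurd (Finset.mem_univ _) h
          change d * z k - _ = 0
          rw [h1]
          ring
        have hy2 : ∀ i, ∑ k, aeval (A.x P) (Q i k) * y k = 0 := by
          intro i
          have h1 : ∀ k, aeval (A.x P) (Q i k) * y k = d * (aeval (A.x P) (Q i k) * z k) -
              ∑ c : {c : κ // c ∉ Set.range e}, z c.1 * (aeval (A.x P) (Q i k) *
                sol (fun i k => aeval (A.x P) (Q i k)) a e c.1 k) := by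
            intro k
            change aeval (A.x P) (Q i k) * (d * z k - _) = _
            rw [mul_sub, Finset.mul_sum]
            congr 1
            · ring
            · refine Finset.sum_congr rfl fun c _ => ?_
              ring
          simp only [h1]
          rw [Finset.sum_sub_distrib, ← Finset.mul_sum, hz i, mul_zero, Finset.sum_comm, zero_sub,
            neg_eq_zero]
          refine Finset.sum_eq_zero fun c _ => ?_
          rw [← Finset.mul_sum]
          have h2 := A.x_isPt P _ (heq c.1 i)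
          rw [map_sum] at h2
          simp only [map_mul, (hev L P).1] at h2
          rw [h2, mul_zero]
        have hinj : Function.Injective e := by
          intro j j' hjj
          by_contra hne
          refine hdP (Matrix.det_zero_of_column_eq hne fun i => ?_)
          simp only [sm, Matrix.of_apply, hjj]
        have hy3 : (sm (fun i k => aeval (A.x P) (Q i k)) a e).mulVec (fun j => y (e j)) = 0 := by
          funext i
          have h1 := hy2 (a i)
          change ∑ j, aeval (A.x P) (Q (a i) (e j)) * y (e j) = 0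
          rw [← h1]
          rw [← Finset.sum_image (s := Finset.univ) (g := e)
            (f := fun k => aeval (A.x P) (Q (a i) k) * y k) (fun _ _ _ _ h => hinj h)]
          refine Finset.sum_subset (Finset.subset_univ _) fun k _ hk => ?_
          rw [hy1 k, mul_zero]
          rintro ⟨j, rfl⟩
          exact hk (Finset.mem_image_of_mem e (Finset.mem_univ j))
        have hy4 := Matrix.eq_zero_of_mulVec_eq_zero hdP hy3
        intro k
        have h0 : y k = 0 := by
          by_cases hk : k ∈ Set.range e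
          · obtain ⟨j, rfl⟩ := hk
            exact congrFun hy4 j
          · exact hy1 k hk
        exact sub_eq_zero.1 h0
      have h1 : z = ∑ c : {c : κ // c ∉ Set.range e}, (d⁻¹ * z c.1) •
          fun k => aeval (A.x P) (sol Q a e c.1 k) := by
        funext k
        rw [Finset.sum_apply]
        simp only [Pi.smul_apply, smul_eq_mul, (hev L P).1]
        have h2 := hkey k
        have h3 : z k = d⁻¹ * (d * z k) := by
          rw [← mul_assoc, inv_mul_cancel₀ hdP, one_mul]
        rw [h3, h2, Finset.mul_sum]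
        refine Finset.sum_congr rfl fun c _ => ?_
        ring
      rw [h1]
      exact Submodule.sum_mem _ fun c _ => Submodule.smul_mem _ _ (Submodule.subset_span ⟨c, rfl⟩)

end

end Pool.Agent.Lib.MP_17a322_nt.VB
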