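import Pool.Agent.Lib.MP_17a322_nt.VB.A1
import Pool.Agent.Lib.MP_17a322_nt.VB.K1
import Pool.Agent.Lib.MP_17a322_nt.TB.T0

/-!
Vector bundles on principal torus bundles over `A`: the rank of `G`, the linear forms that vanish on
the kernel of `G`.
-/

universe u

namespace Pool.Agent.Lib.MP_17a322_nt.VB

open MvPolynomial Height
open Pool.Agent.Lib.MP_17a322_nt.VA
open Pool.Agent.Lib.MP_17a322_nt.SL
open Pool.Agent.Lib.MP_17a322_nt.SG (Bx toF shf Ix)
open Pool.Agent.Lib.MP_17a322_nt.TB (Tor Kp Cx ex ev maxWt wB LamT phi)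

section

variable {σ τ κ K : Type*} [CommRing K] [Fintype σ]

/-- The coefficients are homogeneous of twisted degrees. -/
private def K2_GW (w : σ → ℤ) (D : ℤ) (b : MvPolynomial σ (MvPolynomial τ K)) : Prop :=
  ∀ m, coeff m b ≠ 0 → ∃ δ : ℕ, (coeff m b).IsHomogeneous δ ∧ (δ : ℤ) + ∑ i, w i * m i = D

private theorem K2_GW_iff {w : σ → ℤ} {D : ℤ} {b : MvPolynomial σ (MvPolynomial τ K)} :
    K2_GW w D b ↔ ∀ m, (∀ δ : ℕ, (δ : ℤ) + ∑ i, w i * m i = D → (coeff m b).IsHomogeneous δ) ∧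
      (D < ∑ i, w i * m i → coeff m b = 0) := by
  constructor
  · intro h m
    by_cases h0 : coeff m b = 0
    · rw [h0]
      exact ⟨fun δ _ => isHomogeneous_zero _ _ _, fun _ => rfl⟩
    · obtain ⟨δ, h1, h2⟩ := h m h0
      refine ⟨fun δ' h3 => ?_, fun h3 => ?_⟩
      · have h4 : δ' = δ := by omega
        rw [h4]
        exact h1
      · omega
  · intro h m h0
    have h1 : ∑ i, w i * m i ≤ D := by
      by_contra hc
      exact h0 ((h m).2 (not_le.1 hc))
    exact ⟨(D - ∑ i, w i * m i).toNat, (h m).1 _ (by omega), by omega⟩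

private theorem K2_GW_mul {w : σ → ℤ} {D D' : ℤ} {b b' : MvPolynomial σ (MvPolynomial τ K)}
    (hb : K2_GW w D b) (hb' : K2_GW w D' b') : K2_GW w (D + D') (b * b') := by
  classical
  rw [K2_GW_iff]
  intro m
  have h1 : ∀ z ∈ Finset.HasAntidiagonal.antidiagonal m, coeff z.1 b * coeff z.2 b' ≠ 0 →
      ∃ δ : ℕ, (coeff z.1 b * coeff z.2 b').IsHomogeneous δ ∧
        (δ : ℤ) + ∑ i, w i * m i = D + D' := by
    intro z hz h0
    have hz1 : coeff z.1 b ≠ 0 := fun h => h0 (by rw [h, zero_mul])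
    have hz2 : coeff z.2 b' ≠ 0 := fun h => h0 (by rw [h, mul_zero])
    obtain ⟨δ, h2, h3⟩ := hb z.1 hz1
    obtain ⟨δ', h4, h5⟩ := hb' z.2 hz2
    refine ⟨δ + δ', h2.mul h4, ?_⟩
    have h6 : ∑ i, w i * m i = ∑ i, w i * z.1 i + ∑ i, w i * z.2 i := by
      rw [← Finset.sum_add_distrib, ← Finset.HasAntidiagonal.mem_antidiagonal.1 hz]
      refine Finset.sum_congr rfl fun i _ => ?_
      rw [Finsupp.add_apply]
      push_cast
      ring
    push_cast
    omega
  constructor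
  · intro δ hδ
    rw [coeff_mul]
    refine IsHomogeneous.sum _ _ _ fun z hz => ?_
    by_cases h0 : coeff z.1 b * coeff z.2 b' = 0
    · rw [h0]
      exact isHomogeneous_zero _ _ _
    · obtain ⟨δ', h2, h3⟩ := h1 z hz h0
      have h4 : δ = δ' := by omega
      rw [h4]
      exact h2
  · intro hlt
    rw [coeff_mul]
    refine Finset.sum_eq_zero fun z hz => ?_
    by_contra h0
    obtain ⟨δ', h2, h3⟩ := h1 z hz h0
    omega

private theorem K2_GW_monomial (w : σ → ℤ) (m : σ →₀ ℕ) :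
    K2_GW w (∑ i, w i * m i) (monomial m 1 : MvPolynomial σ (MvPolynomial τ K)) := by
  classical
  intro m' h0
  rw [coeff_monomial] at h0 ⊢
  by_cases h : m = m'
  · rw [if_pos h, h]
    exact ⟨0, isHomogeneous_one _ _, by simp⟩
  · rw [if_neg h] at h0
    exact absurd rfl h0

private theorem K2_GW_one (w : σ → ℤ) : K2_GW w 0 (1 : MvPolynomial σ (MvPolynomial τ K)) := by
  have h := K2_GW_monomial (τ := τ) (K := K) w 0
  have h1 : (monomial 0 1 : MvPolynomial σ (MvPolynomial τ K)) = 1 := rfl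
  rw [h1] at h
  simpa using h

private theorem K2_GW_prod {w : σ → ℤ} {ι : Type*} (s : Finset ι) (D : ι → ℤ)
    (b : ι → MvPolynomial σ (MvPolynomial τ K)) (hb : ∀ i ∈ s, K2_GW w (D i) (b i)) :
    K2_GW w (∑ i ∈ s, D i) (∏ i ∈ s, b i) := by
  classical
  induction s using Finset.induction_on with
  | empty =>
    rw [Finset.prod_empty, Finset.sum_empty]
    exact K2_GW_one w
  | insert a s ha ih =>
    rw [Finset.prod_insert ha, Finset.sum_insert ha]
    exact K2_GW_mul (hb a (Finset.mem_insert_self a s))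
      (ih fun i hi => hb i (Finset.mem_insert_of_mem hi))

private theorem K2_GW_sum {w : σ → ℤ} {ι : Type*} (s : Finset ι) (D : ℤ)
    (b : ι → MvPolynomial σ (MvPolynomial τ K)) (hb : ∀ i ∈ s, K2_GW w D (b i)) :
    K2_GW w D (∑ i ∈ s, b i) := by
  classical
  rw [K2_GW_iff]
  intro m
  constructor
  · intro δ hδ
    rw [coeff_sum]
    exact IsHomogeneous.sum _ _ _ fun i hi => (K2_GW_iff.1 (hb i hi) m).1 δ hδ
  · intro h
    rw [coeff_sum]
    exact Finset.sum_eq_zero fun i hi => (K2_GW_iff.1 (hb i hi) m).2 h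

private theorem K2_GW_unit {w : σ → ℤ} (u : ℤˣ) {D : ℤ}
    {b : MvPolynomial σ (MvPolynomial τ K)} (hb : K2_GW w D b) : K2_GW w D (u • b) := by
  rcases Int.units_eq_one_or u with rfl | rfl
  · rw [one_smul]
    exact hb
  · rw [Units.neg_smul, one_smul]
    intro m h0
    rw [coeff_neg] at h0 ⊢
    obtain ⟨δ, h1, h2⟩ := hb m (neg_ne_zero.1 h0)
    exact ⟨δ, h1.neg, h2⟩

private theorem K2_GW_mnr {w : σ → ℤ} {ι : Type*} [Fintype ι] [DecidableEq ι] (D : ι → ℤ)
    (M : ι → κ → MvPolynomial σ (MvPolynomial τ K)) (hM : ∀ i l, K2_GW w (D i) (M i l))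
    (e : ι → κ) : K2_GW w (∑ i, D i) (mnr M e) := by
  unfold mnr
  rw [Matrix.det_apply]
  refine K2_GW_sum _ _ _ fun s _ => K2_GW_unit _ ?_
  rw [← Equiv.sum_comp s D]
  exact K2_GW_prod _ (fun i => D (s i)) _ fun i _ => hM (s i) (e i)

end

section

variable {q M n : ℕ} {R S : Type*} [CommRing R] [CommRing S]

private theorem K2_pv_single (x : Bx q M × Fin n) (l : Fin n) :
    pv (Pi.single x (1 : R)) l = if l = x.2 then monomial (toF x.1) 1 else 0 := by
  unfold pv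
  by_cases h : l = x.2
  · rw [if_pos h, Finset.sum_eq_single x.1]
    · rw [h]
      simp
    · intro b _ hb
      rw [Pi.single_apply, if_neg, map_zero]
      intro h1
      exact hb (by rw [← h1])
    · intro h1
      exact absurd (Finset.mem_univ _) h1
  · rw [if_neg h]
    refine Finset.sum_eq_zero fun b _ => ?_
    rw [Pi.single_apply, if_neg, map_zero]
    intro h1
    exact h (by rw [← h1])

private theorem K2_pv_lin (z : Bx q M × Fin n → R) (l : Fin n) :
    pv z l = ∑ x, C (z x) * pv (Pi.single x (1 : R)) l := by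
  simp_rw [K2_pv_single]
  rw [Fintype.sum_prod_type]
  unfold pv
  refine Finset.sum_congr rfl fun b _ => ?_
  rw [Finset.sum_eq_single l]
  · rw [if_pos rfl, C_mul_monomial, mul_one]
  · intro l' _ hl'
    rw [if_neg (fun h => hl' h.symm), mul_zero]
  · intro h1
    exact absurd (Finset.mem_univ _) h1

private theorem K2_mnr_pv {ι : Type*} [Fintype ι] [DecidableEq ι]
    (Mx : ι → Fin n → MvPolynomial (Fin q) R) (z : Bx q M × Fin n → R) (e : ι ⊕ Unit → Fin n) :
    mnr (Sum.elim Mx fun _ => pv z) e =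
      ∑ x, C (z x) * mnr (Sum.elim Mx fun _ => pv (Pi.single x (1 : R))) e := by
  obtain ⟨c, hc⟩ := mnr_last Mx e
  simp_rw [hc]
  have h1 : ∀ j, pv z (e j) * c j = ∑ x, C (z x) * (pv (Pi.single x (1 : R)) (e j) * c j) := by
    intro j
    rw [K2_pv_lin, Finset.sum_mul]
    exact Finset.sum_congr rfl fun x _ => mul_assoc _ _ _
  simp_rw [h1]
  rw [Finset.sum_comm]
  exact Finset.sum_congr rfl fun x _ => (Finset.mul_sum _ _ _).symm

private theorem K2_map_pv (φ : R →+* S) (x : Bx q M × Fin n) (l : Fin n) :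
    MvPolynomial.map φ (pv (Pi.single x (1 : R)) l) = pv (Pi.single x (1 : S)) l := by
  rw [K2_pv_single, K2_pv_single]
  by_cases h : l = x.2
  · rw [if_pos h, if_pos h, map_monomial, map_one]
  · rw [if_neg h, if_neg h, map_zero]

end

section

variable {K : Type u} [Field K] {N q p : ℕ} {A : AV K N} (T : Tor A q p) {g n r s : ℕ}

/-- The symbolic substitution. -/
private noncomputable def K2_sps : Pl K N q p →+* MvPolynomial (Fin q) (MvPolynomial (Fin (N + 1)) K) :=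
  TB.spR (RingHom.id (MvPolynomial (Fin (N + 1)) K)) fun i => T.η i.1 i.2

private theorem K2_sp_map {L : Type u} [Field L] [Algebra K L] (P : A.Pts L) (b : Pl K N q p) :
    T.sp P b = MvPolynomial.map
      (aeval (A.x P) : MvPolynomial (Fin (N + 1)) K →ₐ[K] L).toRingHom (K2_sps T b) := by
  rw [TB.sp_eq]
  have h1 : TB.spR (aeval (A.x P) : MvPolynomial (Fin (N + 1)) K →ₐ[K] L).toRingHom
      (fun i : Fin q × Fin p => aeval (A.x P) (T.η i.1 i.2)) =
      (MvPolynomial.map (aeval (A.x P) : MvPolynomial (Fin (N + 1)) K →ₐ[K] L).toRingHom).comp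
        (K2_sps T) := by
    unfold K2_sps TB.spR
    refine MvPolynomial.ringHom_ext (fun a => ?_) fun i => ?_
    · rw [coe_eval₂Hom, eval₂_C, RingHom.comp_apply, RingHom.comp_apply, coe_eval₂Hom, eval₂_C,
        RingHom.comp_apply, map_C]
      rfl
    · rw [coe_eval₂Hom, eval₂_X, RingHom.comp_apply, coe_eval₂Hom, eval₂_X, map_mul, map_C, map_X]
      rfl
  rw [h1]
  rfl

private theorem K2_sum_yd (a : Fin q → ℤ) (μ : Fin q × Fin p →₀ ℕ) :
    ∑ i : Fin q × Fin p, a i.1 * (μ i : ℤ) = ∑ i, a i * (TB.yd μ i : ℤ) := by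
  rw [Fintype.sum_prod_type]
  refine Finset.sum_congr rfl fun i _ => ?_
  rw [TB.yd_apply]
  push_cast
  rw [Finset.mul_sum]

private theorem K2_WH {D : ℕ} {b : Pl K N q p} :
    T.WH D b ↔ K2_GW (fun i : Fin q × Fin p => (T.k i.1 : ℤ)) (D : ℤ) b := by
  unfold TB.Tor.WH K2_GW
  refine forall_congr' fun m => imp_congr_right fun _ => exists_congr fun δ =>
    and_congr_right fun _ => ?_
  constructor
  · intro h
    show (δ : ℤ) + ∑ i : Fin q × Fin p, (T.k i.1 : ℤ) * (m i : ℤ) = (D : ℤ)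
    exact_mod_cast h
  · intro h
    have h' : (δ : ℤ) + ∑ i : Fin q × Fin p, (T.k i.1 : ℤ) * (m i : ℤ) = (D : ℤ) := h
    exact_mod_cast h'

private theorem K2_sps_GW {D : ℕ} {b : Pl K N q p} (hb : T.WH D b) :
    K2_GW (fun i : Fin q => (T.k i : ℤ) - T.e i) (D : ℤ) (K2_sps T b) := by
  classical
  have hterm : ∀ μ : Fin q × Fin p →₀ ℕ, coeff μ b ≠ 0 → ∃ δ : ℕ,
      (coeff μ b * ∏ i, T.η i.1 i.2 ^ μ i).IsHomogeneous δ ∧
        (δ : ℤ) + ∑ i, ((T.k i : ℤ) - T.e i) * (TB.yd μ i : ℤ) = D := by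
    intro μ hμ
    obtain ⟨δ, h1, h2⟩ := hb μ hμ
    have h3 : (∏ i : Fin q × Fin p, T.η i.1 i.2 ^ μ i).IsHomogeneous
        (∑ i : Fin q × Fin p, T.e i.1 * μ i) :=
      IsHomogeneous.prod _ _ _ fun i _ => (T.hom i.1 i.2).pow _
    refine ⟨δ + ∑ i : Fin q × Fin p, T.e i.1 * μ i, h1.mul h3, ?_⟩
    rw [← K2_sum_yd]
    have h4 : ∑ i : Fin q × Fin p, ((T.k i.1 : ℤ) - T.e i.1) * (μ i : ℤ) =
        ((∑ i : Fin q × Fin p, T.k i.1 * μ i : ℕ) : ℤ) -
          ((∑ i : Fin q × Fin p, T.e i.1 * μ i : ℕ) : ℤ) := by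
      push_cast
      rw [← Finset.sum_sub_distrib]
      refine Finset.sum_congr rfl fun i _ => ?_
      ring
    rw [h4]
    push_cast
    have h5 : (δ : ℤ) + ∑ i : Fin q × Fin p, (T.k i.1 : ℤ) * (μ i : ℤ) = D := by
      exact_mod_cast h2
    linarith
  rw [K2_GW_iff]
  intro m
  have hc : coeff m (K2_sps T b) = ∑ μ ∈ b.support,
      if TB.yd μ = m then coeff μ b * ∏ i, T.η i.1 i.2 ^ μ i else 0 := by
    unfold K2_sps
    rw [TB.spR_coeff]
    exact Finset.sum_congr rfl fun μ _ => rfl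
  constructor
  · intro δ hδ
    rw [hc]
    refine IsHomogeneous.sum _ _ _ fun μ hμ => ?_
    by_cases h1 : TB.yd μ = m
    · rw [if_pos h1]
      obtain ⟨δ', h2, h3⟩ := hterm μ (mem_support_iff.1 hμ)
      rw [h1] at h3
      have h4 : δ = δ' := by omega
      rw [h4]
      exact h2
    · rw [if_neg h1]
      exact isHomogeneous_zero _ _ _
  · intro hlt
    rw [hc]
    refine Finset.sum_eq_zero fun μ hμ => ?_
    by_cases h1 : TB.yd μ = m
    · exfalso
      obtain ⟨δ', h2, h3⟩ := hterm μ (mem_support_iff.1 hμ)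
      rw [h1] at h3
      omega
    · rw [if_neg h1]

private theorem K2_sp_ne {D : ℕ} {f : Pl K N q p} (hf : T.WH D f) {L₀ : Type u} [Field L₀]
    [Algebra K L₀] (P₀ : A.Pts L₀) (h0 : T.sp P₀ f ≠ 0) (L : Type u) [Field L] [Algebra K L]
    (P : A.Pts L) (hP : Gen A P) : T.sp P f ≠ 0 := by
  rw [K2_sp_map] at h0 ⊢
  obtain ⟨m, hm⟩ := ne_zero_iff.1 h0
  rw [coeff_map] at hm
  have hc0 : coeff m (K2_sps T f) ≠ 0 := fun h => hm (by rw [h, map_zero])
  obtain ⟨δ, hδ, -⟩ := K2_sps_GW T hf m hc0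
  have hI : coeff m (K2_sps T f) ∉ A.I := fun h => hm (A.x_isPt P₀ _ h)
  refine ne_zero_iff.2 ⟨m, ?_⟩
  rw [coeff_map]
  exact TB.T_gen_ne hP hδ hI

private theorem K2_mnr_sp {L : Type u} [Field L] [Algebra K L] (P : A.Pts L)
    (G : Matrix (Fin g) (Fin n) (Pl K N q p)) (e : Fin g → Fin n) :
    mnr (fun i l => T.sp P (G i l)) e = T.sp P (mnr G e) :=
  mnr_map (TB.spR (aeval (A.x P) : MvPolynomial (Fin (N + 1)) K →ₐ[K] L).toRingHom
    fun i : Fin q × Fin p => aeval (A.x P) (T.η i.1 i.2)) G e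

private theorem K2_WH_mnr {D' : Fin g → ℕ} {G : Matrix (Fin g) (Fin n) (Pl K N q p)}
    (hG : ∀ i l, T.WH (D' i) (G i l)) (e : Fin g → Fin n) : T.WH (∑ i, D' i) (mnr G e) := by
  rw [K2_WH]
  push_cast
  exact K2_GW_mnr (fun i => (D' i : ℤ)) G (fun i l => (K2_WH T).1 (hG i l)) e

theorem rk_of {D' : Fin g → ℕ} {G : Matrix (Fin g) (Fin n) (Pl K N q p)}
    (hG : ∀ i l, T.WH (D' i) (G i l))
    (h : ∃ (L : Type u) (_ : Field L) (_ : Algebra K L) (P : A.Pts L), Gen A P ∧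
      ∃ e : Fin g → Fin n, mnr (fun i l => T.sp P (G i l)) e ≠ 0) : Rk T G := by
  obtain ⟨L₀, _, _, P₀, -, e, he⟩ := h
  intro L _ _ P hP
  refine ⟨e, ?_⟩
  rw [K2_mnr_sp] at he ⊢
  exact K2_sp_ne T (K2_WH_mnr T hG e) P₀ he L P hP

/-- The same minor is not zero at all generic points. -/
theorem rk_minor {D' : Fin g → ℕ} {G : Matrix (Fin g) (Fin n) (Pl K N q p)}
    (hG : ∀ i l, T.WH (D' i) (G i l)) (hRk : Rk T G) :
    ∃ e : Fin g → Fin n, T.WH (∑ i, D' i) (mnr G e) ∧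
      (∀ (L : Type u) [Field L] [Algebra K L] (P : A.Pts L), Gen A P → T.sp P (mnr G e) ≠ 0) ∧
      ∀ (L : Type u) [Field L] [Algebra K L] (P : A.Pts L) (y : Fin q × Fin p → L),
        ev P y (mnr G e) = mnr (fun i l => ev P y (G i l)) e := by
  obtain ⟨L₀, _, _, _, P₀, hP₀⟩ := EF.T_gen A
  obtain ⟨e, he⟩ := hRk L₀ P₀ hP₀
  rw [K2_mnr_sp] at he
  refine ⟨e, K2_WH_mnr T hG e, fun L _ _ P hP => K2_sp_ne T (K2_WH_mnr T hG e) P₀ he L P hP, ?_⟩
  intro L _ _ P y
  exact (mnr_map ((eval y).comp (MvPolynomial.map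
    (aeval (A.x P) : MvPolynomial (Fin (N + 1)) K →ₐ[K] L).toRingHom)) G e).symm

/-- The minors as linear forms. -/
private noncomputable def K2_Q (G : Matrix (Fin g) (Fin n) (Pl K N q p)) (M : ℕ)
    (e : Fin g ⊕ Unit → Fin n) (x : Bx q M × Fin n) :
    MvPolynomial (Fin q) (MvPolynomial (Fin (N + 1)) K) :=
  mnr (Sum.elim (fun i l => K2_sps T (G i l))
    fun _ => pv (Pi.single x (1 : MvPolynomial (Fin (N + 1)) K))) e

private theorem K2_Q_map (G : Matrix (Fin g) (Fin n) (Pl K N q p)) (M : ℕ)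
    (e : Fin g ⊕ Unit → Fin n) (x : Bx q M × Fin n) {L : Type u} [Field L] [Algebra K L]
    (P : A.Pts L) :
    mnr (Sum.elim (fun i l => T.sp P (G i l)) fun _ => pv (Pi.single x (1 : L))) e =
      MvPolynomial.map (aeval (A.x P) : MvPolynomial (Fin (N + 1)) K →ₐ[K] L).toRingHom
        (K2_Q T G M e x) := by
  unfold K2_Q
  rw [← mnr_map]
  have h1 : (Sum.elim (fun i l => T.sp P (G i l)) fun _ => pv (Pi.single x (1 : L)) :
      Fin g ⊕ Unit → Fin n → MvPolynomial (Fin q) L) = fun i l =>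
      MvPolynomial.map (aeval (A.x P) : MvPolynomial (Fin (N + 1)) K →ₐ[K] L).toRingHom
        (Sum.elim (fun i l => K2_sps T (G i l))
          (fun _ => pv (Pi.single x (1 : MvPolynomial (Fin (N + 1)) K))) i l) := by
    funext i l
    rcases i with i | i
    · exact K2_sp_map T P (G i l)
    · exact (K2_map_pv _ x l).symm
  rw [h1]

private theorem K2_Q_coeff (G : Matrix (Fin g) (Fin n) (Pl K N q p)) (M : ℕ)
    (e : Fin g ⊕ Unit → Fin n) {L : Type u} [Field L] [Algebra K L] (P : A.Pts L)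
    (z : Bx q M × Fin n → L) (m : Fin q →₀ ℕ) :
    coeff m (mnr (Sum.elim (fun i l => T.sp P (G i l)) fun _ => pv z) e) =
      ∑ x, aeval (A.x P) (coeff m (K2_Q T G M e x)) * z x := by
  rw [K2_mnr_pv, coeff_sum]
  refine Finset.sum_congr rfl fun x _ => ?_
  rw [coeff_C_mul, K2_Q_map, coeff_map, mul_comm]
  rfl

private theorem K2_Q_GW {D' : Fin g → ℕ} {G : Matrix (Fin g) (Fin n) (Pl K N q p)}
    (hG : ∀ i l, T.WH (D' i) (G i l)) (M : ℕ) (e : Fin g ⊕ Unit → Fin n)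
    (x : Bx q M × Fin n) :
    K2_GW (fun i : Fin q => (T.k i : ℤ) - T.e i)
      (((∑ i, D' i : ℕ) : ℤ) + ∑ i, ((T.k i : ℤ) - T.e i) * ((x.1 i : ℕ) : ℤ))
      (K2_Q T G M e x) := by
  unfold K2_Q
  have h1 := K2_GW_mnr (w := fun i : Fin q => (T.k i : ℤ) - T.e i)
    (Sum.elim (fun i : Fin g => (D' i : ℤ))
      fun _ : Unit => ∑ i, ((T.k i : ℤ) - T.e i) * ((x.1 i : ℕ) : ℤ))
    (Sum.elim (fun i l => K2_sps T (G i l))
      fun _ => pv (Pi.single x (1 : MvPolynomial (Fin (N + 1)) K))) (by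
      intro i l
      rcases i with i | i
      · exact K2_sps_GW T (hG i l)
      · have h2 : (Sum.elim (fun i l => K2_sps T (G i l))
            (fun _ => pv (Pi.single x (1 : MvPolynomial (Fin (N + 1)) K)))
            (Sum.inr i : Fin g ⊕ Unit) l) =
            if l = x.2 then monomial (toF x.1) 1 else 0 := K2_pv_single x l
        rw [h2]
        by_cases h3 : l = x.2
        · rw [if_pos h3]
          exact K2_GW_monomial _ (toF x.1)
        · rw [if_neg h3]
          intro m hm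
          exact absurd (coeff_zero m) hm) e
  rw [Fintype.sum_sum_type] at h1
  simp only [Sum.elim_inl, Sum.elim_inr, Finset.univ_unique, Finset.sum_const,
    Finset.card_singleton, one_smul] at h1
  push_cast
  exact h1

theorem rel_exists {D' : Fin g → ℕ} (G : Matrix (Fin g) (Fin n) (Pl K N q p))
    (hG : ∀ i l, T.WH (D' i) (G i l)) (M : ℕ) : Nonempty (Rel T G M) := by
  classical
  obtain ⟨S, hS⟩ : ∃ S : Finset (Fin q →₀ ℕ),
      ∀ (e : Fin g ⊕ Unit → Fin n) (x : Bx q M × Fin n) (m : Fin q →₀ ℕ),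
        m ∉ S → coeff m (K2_Q T G M e x) = 0 := by
    refine ⟨Finset.univ.biUnion fun z : (Fin g ⊕ Unit → Fin n) × (Bx q M × Fin n) =>
      (K2_Q T G M z.1 z.2).support, fun e x m hm => ?_⟩
    by_contra h
    exact hm (Finset.mem_biUnion.2 ⟨(e, x), Finset.mem_univ _, mem_support_iff.2 h⟩)
  obtain ⟨γ, hγ1, hγ2, G', D'', ρ, h1, h2, h3⟩ := ker_exists A
    (fun (i : (Fin g ⊕ Unit → Fin n) × S) (x : Bx q M × Fin n) =>
      coeff (i.2 : Fin q →₀ ℕ) (K2_Q T G M i.1 x))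
    (fun i => (((∑ i, D' i : ℕ) : ℤ) - ∑ j, ((T.k j : ℤ) - T.e j) * ((i.2 : Fin q →₀ ℕ) j : ℤ) +
      M * ∑ j, (T.k j : ℤ)).toNat)
    (fun x => ex T.k x.1 + ∑ i, T.e i * x.1 i) (by
      rintro ⟨e, m, hmS⟩ x
      by_cases h0 : coeff m (K2_Q T G M e x) = 0
      · exact Or.inl h0
      · refine Or.inr ?_
        obtain ⟨δ, h4, h5⟩ := K2_Q_GW T hG M e x m h0
        refine ⟨δ, h4, ?_⟩
        have h6 : ((ex T.k x.1 + ∑ i, T.e i * x.1 i : ℕ) : ℤ) =
            M * ∑ j, (T.k j : ℤ) - ∑ i, ((T.k i : ℤ) - T.e i) * ((x.1 i : ℕ) : ℤ) := by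
          unfold ex
          push_cast
          rw [Finset.mul_sum, ← Finset.sum_sub_distrib, ← Finset.sum_add_distrib]
          refine Finset.sum_congr rfl fun i _ => ?_
          have h7 : (x.1 i : ℕ) ≤ M := Nat.lt_succ_iff.1 (x.1 i).2
          rw [Nat.cast_sub h7]
          ring
        have h8 : ((δ + (ex T.k x.1 + ∑ i, T.e i * x.1 i) : ℕ) : ℤ) =
            ((∑ i, D' i : ℕ) : ℤ) - ∑ j, ((T.k j : ℤ) - T.e j) * (m j : ℤ) +
              M * ∑ j, (T.k j : ℤ) := by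
          rw [Nat.cast_add, h6]
          linarith
        show δ + (ex T.k x.1 + ∑ i, T.e i * x.1 i) =
          (((∑ i, D' i : ℕ) : ℤ) - ∑ j, ((T.k j : ℤ) - T.e j) * (m j : ℤ) +
            M * ∑ j, (T.k j : ℤ)).toNat
        rw [← h8, Int.toNat_natCast])
  refine ⟨{ γ := γ, ft := hγ1, de := hγ2, G' := G', D' := D'', ρ := ρ, hom := h1, row := ?_,
            li := fun L _ _ P hP => (h3 L P hP).1, sp := ?_ }⟩
  · intro L _ _ P c e
    ext m
    rw [K2_Q_coeff, coeff_zero]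
    by_cases hm : m ∈ S
    · exact h2 L P c (e, ⟨m, hm⟩)
    · refine Finset.sum_eq_zero fun x _ => ?_
      rw [hS e x m hm, map_zero, zero_mul]
  · intro L _ _ P hP z hz
    refine (h3 L P hP).2 z fun i => ?_
    have h4 := hz i.1
    have h5 : coeff (i.2 : Fin q →₀ ℕ)
        (mnr (Sum.elim (fun i l => T.sp P (G i l)) fun _ => pv z) i.1) = 0 := by
      rw [h4, coeff_zero]
    rw [K2_Q_coeff] at h5
    exact h5

end

end Pool.Agent.Lib.MP_17a322_nt.VB
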