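import Pool.Agent.Lib.MP_17a322_nt.VB.Defs
import Pool.Agent.Lib.MP_17a322_nt.VB.A1
import Pool.Agent.Lib.MP_17a322_nt.TB.T0

/-!
The dimension of the space of the relations.
-/

universe u

namespace Pool.Agent.Lib.MP_17a322_nt.VB

open MvPolynomial
open Pool.Agent.Lib.MP_17a322_nt.VA
open Pool.Agent.Lib.MP_17a322_nt.SL
open Pool.Agent.Lib.MP_17a322_nt.SG (Bx toF shf)
open Pool.Agent.Lib.MP_17a322_nt.TB (Tor)

section

variable {R : Type*} [CommRing R] {q M n : ℕ}

theorem K3_coeff_pv (z : Bx q M × Fin n → R) (l : Fin n) (b : Bx q M) :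
    coeff (toF b) (pv z l) = z (b, l) := by
  classical
  unfold pv
  rw [coeff_sum, Finset.sum_eq_single b]
  · rw [coeff_monomial, if_pos rfl]
  · intro b' _ hb'
    rw [coeff_monomial, if_neg fun h => hb' (SG.L3_toF_inj h)]
  · intro h
    exact absurd (Finset.mem_univ _) h

theorem K3_pv_zero : pv (0 : Bx q M × Fin n → R) = 0 := by
  funext l
  unfold pv
  exact Finset.sum_eq_zero fun b _ => by rw [Pi.zero_apply, map_zero]

theorem K3_pv_add (z z' : Bx q M × Fin n → R) : pv (z + z') = pv z + pv z' := by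
  funext l
  unfold pv
  rw [Pi.add_apply, ← Finset.sum_add_distrib]
  exact Finset.sum_congr rfl fun b _ => by rw [Pi.add_apply, map_add]

theorem K3_pv_smul (c : R) (z : Bx q M × Fin n → R) :
    pv (c • z) = (C c : MvPolynomial (Fin q) R) • pv z := by
  funext l
  rw [Pi.smul_apply, smul_eq_mul]
  unfold pv
  rw [Finset.mul_sum]
  refine Finset.sum_congr rfl fun b _ => ?_
  rw [C_mul_monomial, Pi.smul_apply, smul_eq_mul]

theorem K3_pv_sum {ι : Type*} (s : Finset ι) (c : ι → R) (Z : ι → Bx q M × Fin n → R) :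
    pv (∑ x ∈ s, c x • Z x) = ∑ x ∈ s, (C (c x) : MvPolynomial (Fin q) R) • pv (Z x) := by
  classical
  induction s using Finset.induction_on with
  | empty => rw [Finset.sum_empty, Finset.sum_empty, K3_pv_zero]
  | insert a s ha ih =>
    rw [Finset.sum_insert ha, Finset.sum_insert ha, K3_pv_add, K3_pv_smul, ih]

theorem K3_inRow_zero' {ι κ : Type*} [Fintype ι] [DecidableEq ι] (A : ι → κ → R) :
    InRow A 0 := by
  intro e
  obtain ⟨c, hc⟩ := mnr_last A e
  rw [show (fun _ : Unit => (0 : κ → R)) = fun _ => (0 : κ → R) from rfl, hc 0]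
  exact Finset.sum_eq_zero fun j _ => by rw [Pi.zero_apply, zero_mul]

end

section

variable {L : Type*} [Field L] {q M n g d : ℕ}

theorem K3_inRow_span {Gh : Fin g → Fin n → MvPolynomial (Fin q) L} {γ : Type*}
    {Z : γ → Bx q M × Fin n → L} (hZr : ∀ c, InRow Gh (pv (Z c))) {z : Bx q M × Fin n → L}
    (hz : z ∈ Submodule.span L (Set.range Z)) : InRow Gh (pv z) := by
  induction hz using Submodule.span_induction with
  | mem x hx =>
    obtain ⟨c, rfl⟩ := hx
    exact hZr c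
  | zero =>
    rw [K3_pv_zero]
    exact K3_inRow_zero' Gh
  | add x y _ _ hx hy =>
    rw [K3_pv_add]
    exact inRow_add hx hy
  | smul c x _ hx =>
    rw [K3_pv_smul]
    exact inRow_smul _ hx

theorem K3_le {Gh : Fin g → Fin n → MvPolynomial (Fin q) L} {e : Fin g → Fin n}
    (he : mnr Gh e ≠ 0) {γ : Type*} [Fintype γ] {Z : γ → Bx q M × Fin n → L}
    (hZ : LinearIndependent L Z) (hZr : ∀ c, InRow Gh (pv (Z c))) :
    Fintype.card γ ≤ g * (M + 1) ^ q := by
  obtain ⟨f, hf⟩ : ∃ f : (Bx q M × Fin n → L) →ₗ[L] (Bx q M × Fin g → L),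
      ∀ z x, f z x = z (x.1, e x.2) :=
    ⟨LinearMap.funLeft L L (fun x : Bx q M × Fin g => (x.1, e x.2)), fun _ _ => rfl⟩
  have hinj : Set.InjOn f (Submodule.span L (Set.range Z) : Set (Bx q M × Fin n → L)) := by
    intro z hz z' hz' h
    have h1 : z - z' ∈ Submodule.span L (Set.range Z) := Submodule.sub_mem _ hz hz'
    have h2 := K3_inRow_span hZr h1
    have h3 : ∀ i, pv (z - z') (e i) = 0 := by
      intro i
      unfold pv
      refine Finset.sum_eq_zero fun b _ => ?_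
      have h4 := congrFun h (b, i)
      rw [hf, hf] at h4
      rw [Pi.sub_apply, h4, sub_self, map_zero]
    have h5 := inRow_zero h2 e he h3
    funext x
    have h6 := K3_coeff_pv (z - z') x.2 x.1
    rw [h5, Pi.zero_apply, coeff_zero, Pi.sub_apply] at h6
    exact sub_eq_zero.1 h6.symm
  have h7 := (LinearMap.linearIndependent_iff_of_injOn f hinj).2 hZ
  have h8 := h7.fintype_card_le_finrank
  rw [Module.finrank_fintype_fun_eq_card, Fintype.card_prod, Fintype.card_fin,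
    Fintype.card_fun, Fintype.card_fin, Fintype.card_fin, mul_comm] at h8
  exact h8

theorem K3_pv_shf (hdM : d ≤ M) {Λ : Fin n → MvPolynomial (Fin q) L}
    (hd : ∀ l, ∀ m ∈ (Λ l).support, ∀ i, m i ≤ d) (m : Bx q (M - d)) :
    pv (fun x : Bx q M × Fin n => shf Λ m x) =
      (monomial (toF m) 1 : MvPolynomial (Fin q) L) • Λ := by
  classical
  funext l
  rw [Pi.smul_apply, smul_eq_mul]
  ext μ
  by_cases hμ : μ ∈ Set.range (toF : Bx q M → Fin q →₀ ℕ)
  · obtain ⟨b, rfl⟩ := hμ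
    rw [K3_coeff_pv]
    rfl
  · have h1 : coeff μ (pv (fun x : Bx q M × Fin n => shf Λ m x) l) = 0 := by
      unfold pv
      rw [coeff_sum]
      refine Finset.sum_eq_zero fun b _ => ?_
      rw [coeff_monomial, if_neg fun h => hμ ⟨b, h⟩]
    rw [h1]
    symm
    rw [coeff_monomial_mul']
    by_cases h2 : toF m ≤ μ
    · rw [if_pos h2, one_mul]
      by_contra h3
      apply hμ
      refine SG.L3_mem_range fun i => ?_
      have h4 := hd l _ (mem_support_iff.2 h3) i
      rw [Finsupp.tsub_apply, SG.L3_toF_apply] at h4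
      have h5 : (m i : ℕ) ≤ M - d := Nat.lt_succ_iff.1 (m i).2
      omega
    · rw [if_neg h2]

theorem K3_li (hdM : d ≤ M) {Gh : Fin g → Fin n → MvPolynomial (Fin q) L} {e : Fin g → Fin n}
    (he : mnr Gh e ≠ 0) (hd : ∀ i l, ∀ m ∈ (Gh i l).support, ∀ i', m i' ≤ d) :
    LinearIndependent L
      (fun (x : Fin g × Bx q (M - d)) (y : Bx q M × Fin n) => shf (Gh x.1) x.2 y) := by
  classical
  rw [Fintype.linearIndependent_iff]
  intro c hc
  have h1 := K3_pv_sum (M := M) (n := n) Finset.univ c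
    (fun (x : Fin g × Bx q (M - d)) (y : Bx q M × Fin n) => shf (Gh x.1) x.2 y)
  rw [hc, K3_pv_zero] at h1
  obtain ⟨P, hP⟩ : ∃ P : Fin g → MvPolynomial (Fin q) L,
    ∀ i, P i = ∑ m : Bx q (M - d), monomial (toF m) (c (i, m)) := ⟨_, fun _ => rfl⟩
  have h2 : ∀ l, ∑ i, P i * Gh i l = 0 := by
    intro l
    have h3 := congrFun h1 l
    rw [Pi.zero_apply, Finset.sum_apply, Fintype.sum_prod_type] at h3
    rw [h3]
    refine Finset.sum_congr rfl fun i _ => ?_
    rw [hP, Finset.sum_mul]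
    refine Finset.sum_congr rfl fun m _ => ?_
    rw [K3_pv_shf hdM (hd i) m, Pi.smul_apply, Pi.smul_apply, smul_eq_mul, smul_eq_mul, ← mul_assoc,
      C_mul_monomial, mul_one]
  have h4 : P = 0 := by
    refine Matrix.eq_zero_of_vecMul_eq_zero he ?_
    funext j
    exact h2 (e j)
  intro x
  obtain ⟨i, m⟩ := x
  have h5 : coeff (toF m) (P i) = c (i, m) := by
    rw [hP, coeff_sum, Finset.sum_eq_single m]
    · rw [coeff_monomial, if_pos rfl]
    · intro b' _ hb'
      rw [coeff_monomial, if_neg fun h => hb' (SG.L3_toF_inj h)]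
    · intro h
      exact absurd (Finset.mem_univ _) h
  rw [← h5, h4, Pi.zero_apply, coeff_zero]

theorem K3_ge (hdM : d ≤ M) {Gh : Fin g → Fin n → MvPolynomial (Fin q) L} {e : Fin g → Fin n}
    (he : mnr Gh e ≠ 0) (hd : ∀ i l, ∀ m ∈ (Gh i l).support, ∀ i', m i' ≤ d) {γ : Type*}
    [Fintype γ] {Z : γ → Bx q M × Fin n → L}
    (hZ : ∀ z : Bx q M × Fin n → L, InRow Gh (pv z) → z ∈ Submodule.span L (Set.range Z)) :
    g * (M - d + 1) ^ q ≤ Fintype.card γ := by
  have h1 : Submodule.span L (Set.range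
      (fun (x : Fin g × Bx q (M - d)) (y : Bx q M × Fin n) => shf (Gh x.1) x.2 y)) ≤
      Submodule.span L (Set.range Z) := by
    refine Submodule.span_le.2 ?_
    rintro _ ⟨x, rfl⟩
    refine hZ _ ?_
    rw [K3_pv_shf hdM (hd x.1) x.2]
    exact inRow_smul _ (inRow_row Gh x.1)
  have h2 := Submodule.finrank_mono h1
  rw [finrank_span_eq_card (K3_li hdM he hd)] at h2
  have h3 := h2.trans (finrank_range_le_card Z)
  rw [Fintype.card_prod, Fintype.card_fin, Fintype.card_fun, Fintype.card_fin,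
    Fintype.card_fin] at h3
  exact h3

end

section

variable {K : Type u} [Field K] {N q p : ℕ} {A : AV K N} (T : Tor A q p) {g n : ℕ}

theorem rel_le {G : Matrix (Fin g) (Fin n) (Pl K N q p)} (hG : Rk T G) {M : ℕ}
    (𝓡 : Rel T G M) : Fintype.card 𝓡.γ ≤ g * (M + 1) ^ q := by
  obtain ⟨L, _, _, _, P, hP⟩ := EF.T_gen A
  obtain ⟨e, he⟩ := hG L P hP
  exact K3_le he (𝓡.li L P hP) (𝓡.row L P)

theorem rel_ge {G : Matrix (Fin g) (Fin n) (Pl K N q p)} (hG : Rk T G) {M d : ℕ}
    (hdM : d ≤ M) (hd : ∀ i l, ∀ m ∈ (G i l).support, ∀ i', ∑ c, m (i', c) ≤ d)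
    (𝓡 : Rel T G M) : g * (M - d + 1) ^ q ≤ Fintype.card 𝓡.γ := by
  obtain ⟨L, _, _, _, P, hP⟩ := EF.T_gen A
  obtain ⟨e, he⟩ := hG L P hP
  refine K3_ge hdM he ?_ (𝓡.sp L P hP)
  intro i l m hm i'
  rw [TB.sp_eq] at hm
  obtain ⟨μ, hμ, hμm⟩ := TB.spR_support _ _ _ hm
  rw [← hμm, TB.yd_apply]
  exact hd i l μ hμ i'

end

end Pool.Agent.Lib.MP_17a322_nt.VB
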