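import Pool.Agent.Lib.MP_17a322_nt.VB.Defs0
import Pool.Agent.Lib.MP_17a322_nt.SG.R1

/-!
Vector bundles on principal torus bundles over `A`: orthogonality of the linear forms and the space of the
rows with respect to the weights.
-/

namespace Pool.Agent.Lib.MP_17a322_nt.VB

open MvPolynomial
open Pool.Agent.Lib.MP_17a322_nt.SG (R1_mul R1_sum R1_coeff R1_unit)

section

variable {R ι κ : Type*} [CommRing R] [Fintype ι] [DecidableEq ι] [Fintype κ] [DecidableEq κ]

/-- A determinant with unit vectors in the lower rows is zero or a minor of the upper rows. -/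
theorem T1_base (A : Matrix (ι ⊕ κ) (ι ⊕ κ) R) (f : κ → ι ⊕ κ)
    (hf : ∀ j, A (Sum.inr j) = Pi.single (f j) 1) :
    A.det = 0 ∨ ∃ (e : ι → ι ⊕ κ) (u : ℤˣ),
      A.det = u • (Matrix.of fun i j => A (Sum.inl i) (e j)).det := by
  by_cases hinj : Function.Injective f
  · right
    obtain ⟨σ, hσ⟩ := Equiv.Perm.exists_extending_pair (Sum.inr : κ → ι ⊕ κ) f
      Sum.inr_injective hinj
    refine ⟨fun i => σ (Sum.inl i), Equiv.Perm.sign σ, ?_⟩
    have h1 : A.submatrix id σ = Matrix.fromBlocks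
        (Matrix.of fun i j => A (Sum.inl i) (σ (Sum.inl j)))
        (Matrix.of fun i j => A (Sum.inl i) (σ (Sum.inr j))) 0 (1 : Matrix κ κ R) := by
      ext x y
      rcases x with i | j <;> rcases y with i' | j'
      · rfl
      · rfl
      · show A (Sum.inr j) (σ (Sum.inl i')) = 0
        rw [hf, Pi.single_apply, if_neg]
        intro h2
        rw [← hσ] at h2
        exact absurd (σ.injective h2) (by simp)
      · show A (Sum.inr j) (σ (Sum.inr j')) = (1 : Matrix κ κ R) j j'
        rw [hf, Pi.single_apply, Matrix.one_apply, hσ]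
        by_cases h2 : j = j'
        · rw [h2, if_pos rfl, if_pos rfl]
        · rw [if_neg (fun h3 => h2 (hinj h3).symm), if_neg h2]
    have h2 := Matrix.det_permute' σ A
    rw [h1, Matrix.det_fromBlocks_zero₂₁, Matrix.det_one, mul_one] at h2
    rw [h2, Units.smul_def, zsmul_eq_mul, ← mul_assoc, ← Int.cast_mul, ← Units.val_mul,
      Int.units_mul_self, Units.val_one, Int.cast_one, one_mul]
  · left
    rw [Function.Injective] at hinj
    push Not at hinj
    obtain ⟨j, j', h1, h2⟩ := hinj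
    exact Matrix.det_zero_of_row_eq (i := Sum.inr j) (j := Sum.inr j')
      (fun h3 => h2 (Sum.inr_injective h3)) (by rw [hf, hf, h1])

/-- Laplace expansion along the lower rows. -/
theorem T1_lap (P : Finset κ → R → Prop) (T : κ → R → Prop) (h0 : ∀ S, P S 0)
    (hadd : ∀ S f g, P S f → P S g → P S (f + g))
    (hmul : ∀ S j f g, j ∉ S → T j g → P S f → P (insert j S) (g * f))
    (S : Finset κ) : ∀ (A : Matrix (ι ⊕ κ) (ι ⊕ κ) R) (f : κ → ι ⊕ κ),
      (∀ j ∉ S, A (Sum.inr j) = Pi.single (f j) 1) →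
      (∀ (e : ι → ι ⊕ κ) (u : ℤˣ), P ∅ (u • (Matrix.of fun i j => A (Sum.inl i) (e j)).det)) →
      (∀ j ∈ S, ∀ l, T j (A (Sum.inr j) l)) → P S A.det := by
  classical
  induction S using Finset.induction_on with
  | empty =>
    intro A f hf hup _
    rcases T1_base A f (fun j => hf j (Finset.notMem_empty j)) with h | ⟨e, u, h⟩
    · rw [h]
      exact h0 _
    · rw [h]
      exact hup e u
  | insert j0 S hj0 ih =>
    intro A f hf hup hrow
    rw [Matrix.det_eq_sum_mul_adjugate_row A (Sum.inr j0)]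
    have hterm : ∀ l, P (insert j0 S) (A (Sum.inr j0) l * A.adjugate l (Sum.inr j0)) := by
      intro l
      refine hmul S j0 _ _ hj0 (hrow j0 (Finset.mem_insert_self _ _) l) ?_
      rw [Matrix.adjugate_apply]
      refine ih _ (Function.update f j0 l) ?_ ?_ ?_
      · intro j hj
        by_cases hjj : j = j0
        · rw [hjj, Function.update_self, Matrix.updateRow_self]
        · rw [Function.update_of_ne hjj, Matrix.updateRow_ne (fun h => hjj (Sum.inr_injective h))]
          exact hf j (by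
            rw [Finset.mem_insert]
            push Not
            exact ⟨hjj, hj⟩)
      · intro e u
        have h1 : (Matrix.of fun i j => (A.updateRow (Sum.inr j0) (Pi.single l 1)) (Sum.inl i) (e j)) =
            (Matrix.of fun i j => A (Sum.inl i) (e j)) := by
          ext i j
          show (A.updateRow (Sum.inr j0) (Pi.single l 1)) (Sum.inl i) (e j) = A (Sum.inl i) (e j)
          rw [Matrix.updateRow_ne Sum.inl_ne_inr]
        rw [h1]
        exact hup e u
      · intro j hj l'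
        have hjj : j ≠ j0 := fun h => hj0 (h ▸ hj)
        rw [Matrix.updateRow_ne (fun h => hjj (Sum.inr_injective h))]
        exact hrow j (Finset.mem_insert_of_mem hj) l'
    have hsum : ∀ s : Finset (ι ⊕ κ), P (insert j0 S)
        (∑ l ∈ s, A (Sum.inr j0) l * A.adjugate l (Sum.inr j0)) := by
      intro s
      induction s using Finset.induction_on with
      | empty =>
        rw [Finset.sum_empty]
        exact h0 _
      | insert a s ha ih2 =>
        rw [Finset.sum_insert ha]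
        exact hadd _ _ _ (hterm a) ih2
    exact hsum Finset.univ

/-- The rule of Cramer. -/
theorem T1_cramer {n : Type*} {M : ι → n → R} {z : n → R} (h : InRow M z) (e : ι → n) :
    ∃ c : ι → R, ∀ l, mnr M e * z l = ∑ i, c i * M i l := by
  set A0 : Matrix (ι ⊕ Unit) (ι ⊕ Unit) R :=
    Matrix.of fun x y => Sum.elim (fun j => (Sum.elim M (fun _ => z) : ι ⊕ Unit → n → R) x (e j))
      (fun _ => 0) y with hA0
  refine ⟨fun i => -A0.adjugate (Sum.inr ()) (Sum.inl i), fun l => ?_⟩
  have h1 : (A0.updateCol (Sum.inr ())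
      (fun x => (Sum.elim M (fun _ => z) : ι ⊕ Unit → n → R) x l)).det = 0 := by
    rw [← h (Sum.elim e fun _ => l), mnr]
    congr 1
    ext x y
    rcases y with j | u
    · rw [Matrix.updateCol_ne Sum.inl_ne_inr]
      rfl
    · rw [show Sum.inr u = (Sum.inr () : ι ⊕ Unit) from rfl, Matrix.updateCol_self]
      rfl
  rw [← Matrix.cramer_apply, Matrix.cramer_eq_adjugate_mulVec] at h1
  have h2 : ∑ i, A0.adjugate (Sum.inr ()) (Sum.inl i) * M i l +
      A0.adjugate (Sum.inr ()) (Sum.inr ()) * z l = 0 := by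
    rw [← h1]
    show _ = ∑ x, A0.adjugate (Sum.inr ()) x * (Sum.elim M (fun _ => z) : ι ⊕ Unit → n → R) x l
    rw [Fintype.sum_sum_type]
    simp
  have h3 : A0.adjugate (Sum.inr ()) (Sum.inr ()) = mnr M e := by
    rw [Matrix.adjugate_apply]
    have h4 : A0.updateRow (Sum.inr ()) (Pi.single (Sum.inr ()) 1) = Matrix.fromBlocks
        (Matrix.of fun i j => M i (e j)) 0 0 (1 : Matrix Unit Unit R) := by
      ext x y
      rcases x with i | u
      · rw [Matrix.updateRow_ne Sum.inl_ne_inr]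
        rcases y with j | u' <;> rfl
      · rw [show Sum.inr u = (Sum.inr () : ι ⊕ Unit) from rfl, Matrix.updateRow_self]
        rcases y with j | u'
        · rw [Pi.single_apply, if_neg Sum.inl_ne_inr]
          rfl
        · rw [show Sum.inr u' = (Sum.inr () : ι ⊕ Unit) from rfl, Pi.single_eq_same]
          simp
    rw [h4, Matrix.det_fromBlocks_zero₂₁, Matrix.det_one, mul_one]
    rfl
  rw [h3] at h2
  have h5 : mnr M e * z l = -∑ i, A0.adjugate (Sum.inr ()) (Sum.inl i) * M i l :=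
    eq_neg_of_add_eq_zero_right h2
  rw [h5, ← Finset.sum_neg_distrib]
  exact Finset.sum_congr rfl fun i _ => (neg_mul _ _).symm

/-- Replacing a lower row by a combination of the other rows and a vector in the space of the upper
rows. -/
theorem T1_replace [IsDomain R] {n : Type*} {M : ι → n → R} {Λ : κ → n → R} {z : n → R}
    (hz : InRow M z) (e0 : ι → n) (he0 : mnr M e0 ≠ 0) (c : κ → R) (e : ι ⊕ κ → n) (j0 : κ) :
    ((Matrix.of fun x y => (Sum.elim M Λ : ι ⊕ κ → n → R) x (e y)).updateRow (Sum.inr j0)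
      (fun y => z (e y) + ∑ j, c j * Λ j (e y))).det = c j0 * mnr (Sum.elim M Λ) e := by
  obtain ⟨a, ha⟩ := T1_cramer hz e0
  refine mul_left_cancel₀ he0 ?_
  rw [← Matrix.det_updateRow_smul, ← mul_assoc, mnr, mnr, ← smul_eq_mul (_ * _) (Matrix.det _)]
  have h1 := Matrix.det_updateRow_sum (Matrix.of fun x y => (Sum.elim M Λ : ι ⊕ κ → n → R) x (e y))
    (Sum.inr j0) (Sum.elim a fun j => mnr M e0 * c j)
  rw [Sum.elim_inr] at h1
  rw [show (Matrix.of fun i j => M i (e0 j)).det = mnr M e0 from rfl, ← h1]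
  congr 2
  funext y
  rw [Fintype.sum_sum_type]
  simp only [Pi.smul_apply, Pi.add_apply, Finset.sum_apply, smul_eq_mul, Sum.elim_inl, Sum.elim_inr,
    Matrix.of_apply]
  rw [mul_add, ha, Finset.mul_sum]
  congr 1
  exact Finset.sum_congr rfl fun j _ => (mul_assoc _ _ _).symm

end

section

variable {L : Type*} [Field L] {q : ℕ} {τ : Fin q → ℝ}

/-- The product of the leading parts. -/
theorem T1_mul {f g : MvPolynomial (Fin q) L} {a b : ℝ} (hf : ∀ m ∈ f.support, SG.wt τ m ≤ a)
    (hg : ∀ m ∈ g.support, SG.wt τ m ≤ b) (hf' : ∃ m ∈ f.support, SG.wt τ m = a)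
    (hg' : ∃ m ∈ g.support, SG.wt τ m = b) : ∃ m ∈ (f * g).support, SG.wt τ m = a + b := by
  obtain ⟨mf, hmf, hwf⟩ := hf'
  obtain ⟨mg, hmg, hwg⟩ := hg'
  have h1 : SG.partWt τ a f ≠ 0 := by
    intro h0
    have h2 := R1_coeff τ a f mf
    rw [h0, coeff_zero, if_pos hwf] at h2
    exact mem_support_iff.1 hmf h2.symm
  have h2 : SG.partWt τ b g ≠ 0 := by
    intro h0
    have h2 := R1_coeff τ b g mg
    rw [h0, coeff_zero, if_pos hwg] at h2
    exact mem_support_iff.1 hmg h2.symm
  have h3 := (R1_mul hf hg).2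
  have h4 : SG.partWt τ (a + b) (f * g) ≠ 0 := by
    rw [h3]
    exact mul_ne_zero h1 h2
  obtain ⟨m, hm⟩ := ne_zero_iff.1 h4
  rw [R1_coeff] at hm
  by_cases hw : SG.wt τ m = a + b
  · rw [if_pos hw] at hm
    exact ⟨m, mem_support_iff.2 hm, hw⟩
  · rw [if_neg hw] at hm
    exact absurd rfl hm

/-- The largest weight. -/
theorem T1_max {f : MvPolynomial (Fin q) L} {m : Fin q →₀ ℕ} (hm : m ∈ f.support) :
    ∃ a : ℝ, SG.wt τ m ≤ a ∧ (∀ m ∈ f.support, SG.wt τ m ≤ a) ∧ ∃ m ∈ f.support, SG.wt τ m = a := by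
  obtain ⟨m0, hm0, hmax⟩ := Finset.exists_max_image f.support (SG.wt τ) ⟨m, hm⟩
  exact ⟨SG.wt τ m0, hmax m hm, hmax, m0, hm0, rfl⟩

/-- The weights of a determinant. -/
theorem T1_wt {ι κ : Type*} [Fintype ι] [DecidableEq ι] [Fintype κ] [DecidableEq κ]
    (A : Matrix (ι ⊕ κ) (ι ⊕ κ) (MvPolynomial (Fin q) L)) (W : ℝ) (h : κ → ℝ)
    (hup : ∀ (e : ι → ι ⊕ κ), ∀ m ∈ (Matrix.of fun i j => A (Sum.inl i) (e j)).det.support,
      SG.wt τ m ≤ W)
    (hrow : ∀ j l, ∀ m ∈ (A (Sum.inr j) l).support, SG.wt τ m ≤ h j) :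
    ∀ m ∈ A.det.support, SG.wt τ m ≤ W + ∑ j, h j := by
  have hz : ∀ (w : ℝ), ∀ m ∈ (0 : MvPolynomial (Fin q) L).support, SG.wt τ m ≤ w := by
    intro w m hm
    rw [support_zero] at hm
    exact absurd hm (Finset.notMem_empty m)
  refine T1_lap (ι := ι) (κ := κ)
    (fun (S : Finset κ) (f : MvPolynomial (Fin q) L) => ∀ m ∈ f.support, SG.wt τ m ≤ W + ∑ j ∈ S, h j)
    (fun (j : κ) (f : MvPolynomial (Fin q) L) => ∀ m ∈ f.support, SG.wt τ m ≤ h j)
    (fun S => hz _) ?_ ?_ Finset.univ A (fun j => Sum.inr j) (fun j hj => absurd (Finset.mem_univ j) hj)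
    ?_ (fun j _ l => hrow j l)
  · intro S f g hf hg m hm
    rcases Finset.mem_union.1 (support_add hm) with h1 | h1
    · exact hf m h1
    · exact hg m h1
  · intro S j f g hj hg hf
    rw [Finset.sum_insert hj]
    intro m hm
    have h1 := (R1_mul hg hf).1 m hm
    linarith
  · intro e u
    rw [Finset.sum_empty, add_zero]
    exact (R1_unit u (hup e)).1

/-- Orthogonality. -/
theorem orth {L : Type*} [Field L] {q g n s : ℕ} {Gh : Fin g → Fin n → MvPolynomial (Fin q) L}
    {Lh : Fin s → Fin n → MvPolynomial (Fin q) L} {τ : Fin q → ℝ} {h : Fin s → ℝ}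
    (hh : ∀ j l, ∀ m ∈ (Lh j l).support, SG.wt τ m ≤ h j) {J : Finset (Fin s)}
    (hJ : IndP Gh Lh τ h J) {z : Fin n → MvPolynomial (Fin q) L} (hz : InRow Gh z)
    (c : Fin s → MvPolynomial (Fin q) L) {w : ℝ}
    (hw : ∀ l, ∀ m ∈ (z l + ∑ j ∈ J, c j * Lh j l).support, SG.wt τ m ≤ w) :
    (∀ l, ∀ m ∈ (z l).support, SG.wt τ m ≤ w) ∧
      ∀ j ∈ J, ∀ m ∈ (c j).support, SG.wt τ m + h j ≤ w := by
  obtain ⟨e, m, hm, hmax⟩ := hJ
  set D := mnr (Sum.elim Gh fun j : J => Lh j) e with hD
  -- some minor of `Gh` is not zero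
  have hex : ∃ e' : Fin g → Fin n, mnr Gh e' ≠ 0 := by
    by_contra hno
    push Not at hno
    have h1 : D = 0 := by
      refine T1_lap (ι := Fin g) (κ := J) (fun _ (f : MvPolynomial (Fin q) L) => f = 0)
        (fun _ _ => True) (fun _ => rfl) (fun _ f g hf hg => by rw [hf, hg, add_zero])
        (fun _ _ f g _ _ hf => by rw [hf, mul_zero]) Finset.univ
        (Matrix.of fun x y => (Sum.elim Gh (fun j : J => Lh j) : Fin g ⊕ J → _) x (e y))
        (fun j => Sum.inr j) (fun j hj => absurd (Finset.mem_univ j) hj) (fun e' u => ?_)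
        (fun _ _ _ => trivial)
      have h2 := hno (fun i => e (e' i))
      have h3 : (Matrix.of fun i j => (Matrix.of fun x y =>
          (Sum.elim Gh (fun j : J => Lh j) : Fin g ⊕ J → _) x (e y)) (Sum.inl i) (e' j)).det = 0 := h2
      rw [h3, smul_zero]
    rw [h1, coeff_zero] at hm
    exact hm rfl
  -- the largest weight of the minors of `Gh`
  obtain ⟨e1, he1⟩ := hex
  obtain ⟨m1, hm1⟩ := ne_zero_iff.1 he1
  obtain ⟨⟨e0, m0⟩, hem0, hem⟩ := Finset.exists_max_image
    (Finset.univ.sigma fun e' : Fin g → Fin n => (mnr Gh e').support)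
    (fun x => SG.wt τ x.2) ⟨⟨e1, m1⟩, Finset.mem_sigma.2 ⟨Finset.mem_univ _, mem_support_iff.2 hm1⟩⟩
  have hm0 : m0 ∈ (mnr Gh e0).support := (Finset.mem_sigma.1 hem0).2
  have hW : ∀ e' : Fin g → Fin n, ∀ m' ∈ (mnr Gh e').support, SG.wt τ m' ≤ SG.wt τ m0 :=
    fun e' m' hm' => hem ⟨e', m'⟩ (Finset.mem_sigma.2 ⟨Finset.mem_univ _, hm'⟩)
  have hge := hmax e0 m0 (mem_support_iff.1 hm0)
  obtain ⟨μ, hμ1, hμ2, hμ3⟩ := T1_max (τ := τ) (mem_support_iff.2 hm)
  have hc : ∀ j ∈ J, ∀ m ∈ (c j).support, SG.wt τ m + h j ≤ w := by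
    intro j0 hj0 mc hmc
    obtain ⟨ν, hν1, hν2, hν3⟩ := T1_max (τ := τ) hmc
    obtain ⟨m2, hm2, hw2⟩ := T1_mul hν2 hμ2 hν3 hμ3
    have h1 := T1_replace (Λ := fun j : J => Lh j) hz e1 he1 (fun j : J => c j) e ⟨j0, hj0⟩
    rw [← hD] at h1
    rw [← h1] at hm2
    have h2 := T1_wt (τ := τ) _ (SG.wt τ m0)
      (Function.update (fun j : J => h j) ⟨j0, hj0⟩ w) ?_ ?_ m2 hm2
    · rw [Finset.sum_update_of_mem (Finset.mem_univ _)] at h2
      have h3 : ∑ j ∈ Finset.univ \ {(⟨j0, hj0⟩ : J)}, h j + h j0 = ∑ j ∈ J, h j := by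
        rw [← Finset.sum_coe_sort J h]
        have h4 := Finset.sum_sdiff (Finset.subset_univ {(⟨j0, hj0⟩ : J)}) (f := fun j : J => h j)
        rw [Finset.sum_singleton] at h4
        exact h4
      linarith
    · intro e' m' hm'
      refine hW (fun i => e (e' i)) m' ?_
      have h3 : (Matrix.of fun i j => ((Matrix.of fun x y =>
          (Sum.elim Gh (fun j : J => Lh j) : Fin g ⊕ J → _) x (e y)).updateRow
            (Sum.inr ⟨j0, hj0⟩) (fun y => z (e y) + ∑ j : J, c j * Lh j (e y)))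
              (Sum.inl i) (e' j)).det = mnr Gh fun i => e (e' i) := by
        rw [mnr]
        congr 1
      rw [h3] at hm'
      exact hm'
    · intro j l m' hm'
      by_cases hj : j = ⟨j0, hj0⟩
      · rw [hj, Function.update_self]
        rw [hj, Matrix.updateRow_self] at hm'
        refine hw (e l) m' ?_
        rw [← Finset.sum_coe_sort J (fun j => c j * Lh j (e l))]
        exact hm'
      · rw [Function.update_of_ne hj]
        rw [Matrix.updateRow_ne (fun h3 => hj (Sum.inr_injective h3))] at hm'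
        exact hh j (e l) m' hm'
  refine ⟨?_, hc⟩
  intro l m' hm'
  have h1 : z l = (z l + ∑ j ∈ J, c j * Lh j l) + (-1 : ℤˣ) • ∑ j ∈ J, c j * Lh j l := by
    rw [Units.neg_smul, one_smul, add_neg_cancel_right]
  have h2 : ∀ m ∈ (∑ j ∈ J, c j * Lh j l).support, SG.wt τ m ≤ w := by
    refine (R1_sum J w (fun j => c j * Lh j l) ?_).1
    intro j hj m hm
    have h3 := (R1_mul (τ := τ) (h := w - h j) (h' := h j) (p := c j) (p' := Lh j l)
      (fun m hm => by linarith [hc j hj m hm]) (hh j l)).1 m hm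
    linarith
  rw [h1] at hm'
  rcases Finset.mem_union.1 (support_add hm') with h3 | h3
  · exact hw l m' h3
  · exact (R1_unit (-1 : ℤˣ) h2).1 m' h3

end

end Pool.Agent.Lib.MP_17a322_nt.VB
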