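import Pool.Agent.Lib.MP_17a322_nt.VB.A1
import Pool.Agent.Lib.MP_17a322_nt.VB.T1
import Pool.Agent.Lib.MP_17a322_nt.SG.L3

/-!
Completion by coordinates with the inequality for the weights.
-/

namespace Pool.Agent.Lib.MP_17a322_nt.VB

open MvPolynomial
open Pool.Agent.Lib.MP_17a322_nt.SG (Bx toF shf Ix)

/-- A reduced basis of the space of the rows with respect to a minor of maximal weight. -/
theorem T2_red {L κ γ : Type*} [Field L] [Fintype γ] [DecidableEq γ] [Finite κ] (w : κ → ℝ)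
    (Z : γ → κ → L) (hZ : LinearIndependent L Z) :
    ∃ (e₀ : γ → κ) (Y : γ → κ → L),
      (∀ e : γ → κ, mnr Z e ≠ 0 → ∑ c, w (e c) ≤ ∑ c, w (e₀ c)) ∧
      (∀ c c', Y c (e₀ c') = if c = c' then 1 else 0) ∧
      (∀ c x, Y c x ≠ 0 → w x ≤ w (e₀ c)) ∧
      (∀ c, ∃ a : γ → L, Y c = ∑ i, a i • Z i) ∧
      ∀ c, Z c ∈ Submodule.span L (Set.range Y) := by
  classical
  have := Fintype.ofFinite κ
  obtain ⟨e₁, he₁⟩ := exists_mnr hZ
  obtain ⟨e₀, h0, hmax⟩ := Finset.exists_max_image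
    (Finset.univ.filter fun e : γ → κ => mnr Z e ≠ 0) (fun e => ∑ c, w (e c))
    ⟨e₁, Finset.mem_filter.mpr ⟨Finset.mem_univ _, he₁⟩⟩
  have h1 : mnr Z e₀ ≠ 0 := (Finset.mem_filter.mp h0).2
  obtain ⟨A, hA⟩ : ∃ A : Matrix γ γ L, A = Matrix.of fun i j => Z i (e₀ j) := ⟨_, rfl⟩
  have hdet : A.det ≠ 0 := by
    rw [hA]
    exact h1
  have hAu : IsUnit A.det := isUnit_iff_ne_zero.2 hdet
  obtain ⟨Y, hY⟩ : ∃ Y : γ → κ → L, ∀ c x, Y c x = ∑ i, A⁻¹ c i * Z i x :=
    ⟨fun c x => ∑ i, A⁻¹ c i * Z i x, fun _ _ => rfl⟩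
  refine ⟨e₀, Y, fun e he => hmax e (Finset.mem_filter.mpr ⟨Finset.mem_univ _, he⟩), ?_, ?_, ?_,
    ?_⟩
  · intro c c'
    rw [hY]
    have h2 := congrFun (congrFun (Matrix.nonsing_inv_mul A hAu) c) c'
    rw [Matrix.mul_apply, Matrix.one_apply] at h2
    rw [← h2]
    refine Finset.sum_congr rfl fun i _ => ?_
    rw [hA, Matrix.of_apply]
  · intro c x hx
    have h2 : Y c x = A.det⁻¹ * mnr Z (Function.update e₀ c x) := by
      have h3 : (Matrix.of fun i j => Z i (Function.update e₀ c x j)) =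
          A.updateCol c fun i => Z i x := by
        ext i j
        rw [Matrix.of_apply, Matrix.updateCol_apply, hA]
        by_cases h : j = c
        · rw [h, Function.update_self, if_pos rfl]
        · rw [Function.update_of_ne h, if_neg h, Matrix.of_apply]
      unfold mnr
      rw [h3, ← Matrix.cramer_apply, Matrix.cramer_eq_adjugate_mulVec, Matrix.mulVec, dotProduct,
        hY, Matrix.inv_def, Ring.inverse_eq_inv', Finset.mul_sum]
      refine Finset.sum_congr rfl fun i _ => ?_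
      rw [Matrix.smul_apply, smul_eq_mul, mul_assoc]
    have h3 : mnr Z (Function.update e₀ c x) ≠ 0 := by
      intro h4
      rw [h2, h4, mul_zero] at hx
      exact hx rfl
    have h4 := hmax _ (Finset.mem_filter.mpr ⟨Finset.mem_univ _, h3⟩)
    rw [← Finset.add_sum_erase _ _ (Finset.mem_univ c),
      ← Finset.add_sum_erase _ (fun i => w (e₀ i)) (Finset.mem_univ c),
      Function.update_self] at h4
    have h5 : ∑ i ∈ Finset.univ.erase c, w (Function.update e₀ c x i) =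
        ∑ i ∈ Finset.univ.erase c, w (e₀ i) :=
      Finset.sum_congr rfl fun i hi => by
        rw [Function.update_of_ne (Finset.ne_of_mem_erase hi)]
    rw [h5] at h4
    linarith
  · intro c
    refine ⟨fun i => A⁻¹ c i, ?_⟩
    funext x
    rw [hY, Finset.sum_apply]
    exact Finset.sum_congr rfl fun i _ => rfl
  · intro c
    have h2 : Z c = ∑ c', A c c' • Y c' := by
      funext x
      rw [Finset.sum_apply]
      have h3 : ∀ c', (A c c' • Y c') x = ∑ i, A c c' * A⁻¹ c' i * Z i x := by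
        intro c'
        rw [Pi.smul_apply, smul_eq_mul, hY, Finset.mul_sum]
        exact Finset.sum_congr rfl fun i _ => (mul_assoc _ _ _).symm
      rw [Finset.sum_congr rfl fun c' _ => h3 c', Finset.sum_comm]
      have h4 : ∀ i, ∑ c', A c c' * A⁻¹ c' i * Z i x = (if c = i then 1 else 0) * Z i x := by
        intro i
        rw [← Finset.sum_mul]
        have h5 := congrFun (congrFun (Matrix.mul_nonsing_inv A hAu) c) i
        rw [Matrix.mul_apply, Matrix.one_apply] at h5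
        rw [h5]
      rw [Finset.sum_congr rfl fun i _ => h4 i]
      simp
    rw [h2]
    exact Submodule.sum_mem _ fun c' _ =>
      Submodule.smul_mem _ _ (Submodule.subset_span ⟨c', rfl⟩)

theorem T2_coeff_pv {L : Type*} [Field L] {q M n : ℕ} (z : Bx q M × Fin n → L) (b : Bx q M)
    (l : Fin n) : coeff (toF b) (pv z l) = z (b, l) := by
  classical
  rw [pv, coeff_sum, Finset.sum_eq_single b]
  · rw [coeff_monomial, if_pos rfl]
  · intro b' _ hb
    rw [coeff_monomial, if_neg (fun h => hb (SG.L3_toF_inj h))]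
  · intro h
    exact (h (Finset.mem_univ b)).elim

theorem T2_coeff_pv' {L : Type*} [Field L] {q M n : ℕ} (z : Bx q M × Fin n → L)
    {m : Fin q →₀ ℕ} (hm : m ∉ Set.range (toF : Bx q M → Fin q →₀ ℕ)) (l : Fin n) :
    coeff m (pv z l) = 0 := by
  classical
  rw [pv, coeff_sum]
  refine Finset.sum_eq_zero fun b _ => ?_
  rw [coeff_monomial, if_neg (fun h => hm ⟨b, h⟩)]

theorem T2_pv_sum {L : Type*} [Field L] {q M n : ℕ} {γ : Type*} [Fintype γ]
    (Z : γ → Bx q M × Fin n → L) (a : γ → L) :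
    pv (∑ i, a i • Z i) = ∑ i, (C (a i) : MvPolynomial (Fin q) L) • pv (Z i) := by
  classical
  funext l
  rw [Finset.sum_apply]
  ext m
  rw [coeff_sum]
  have h2 : ∀ i, coeff m (((C (a i) : MvPolynomial (Fin q) L) • pv (Z i)) l) =
      a i * coeff m (pv (Z i) l) := by
    intro i
    rw [Pi.smul_apply, smul_eq_mul, coeff_C_mul]
  rw [Finset.sum_congr rfl fun i _ => h2 i]
  by_cases hm : m ∈ Set.range (toF : Bx q M → Fin q →₀ ℕ)
  · obtain ⟨b, rfl⟩ := hm
    rw [T2_coeff_pv, Finset.sum_apply]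
    refine Finset.sum_congr rfl fun i _ => ?_
    rw [T2_coeff_pv]
    rfl
  · rw [T2_coeff_pv' _ hm]
    symm
    refine Finset.sum_eq_zero fun i _ => ?_
    rw [T2_coeff_pv' _ hm, mul_zero]

theorem T2_inRow_sum {L : Type*} [Field L] {q g M n : ℕ}
    {Gh : Fin g → Fin n → MvPolynomial (Fin q) L} {γ : Type*} [Fintype γ]
    {Z : γ → Bx q M × Fin n → L} (hZ : ∀ i, InRow Gh (pv (Z i))) (a : γ → L) :
    InRow Gh (pv (∑ i, a i • Z i)) := by
  rw [T2_pv_sum]
  exact inRow_sum _ _ fun i _ => inRow_smul _ (hZ i)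

/-- A finite set of numbers smaller than `t` has an upper bound smaller than `t`. -/
theorem T2_bd {α : Type*} (S : Finset α) (f : α → ℝ) (t : ℝ) (h : ∀ x ∈ S, f x < t) :
    ∃ w < t, ∀ x ∈ S, f x ≤ w := by
  classical
  induction S using Finset.induction_on with
  | empty => exact ⟨t - 1, by linarith, fun x hx => (Finset.notMem_empty x hx).elim⟩
  | insert a S ha ih =>
    obtain ⟨w, hw, hS⟩ := ih fun x hx => h x (Finset.mem_insert_of_mem hx)
    refine ⟨max w (f a), max_lt hw (h a (Finset.mem_insert_self a S)), fun x hx => ?_⟩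
    rcases Finset.mem_insert.mp hx with rfl | hx
    · exact le_max_right _ _
    · exact (hS x hx).trans (le_max_left _ _)

theorem T2_shf_eq {L : Type*} [Field L] {q n M M' : ℕ} (Λ : Fin n → MvPolynomial (Fin q) L)
    (m : Bx q M') (b : Bx q M) (l : Fin n) :
    shf Λ m (b, l) = coeff (toF b) (monomial (toF m) 1 * Λ l) := rfl

/-- The initial parts of the reduced basis and of the shifted forms are independent. -/
theorem T2_ini {L : Type*} [Field L] {q g n s M d : ℕ} (hdM : d ≤ M) (τ : Fin q → ℝ)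
    (Gh : Fin g → Fin n → MvPolynomial (Fin q) L) (Lh : Fin s → Fin n → MvPolynomial (Fin q) L)
    (hd : ∀ j l, ∀ m ∈ (Lh j l).support, ∀ i, m i ≤ d) (h : Fin s → ℝ)
    (hh : ∀ j l, ∀ m ∈ (Lh j l).support, SG.wt τ m ≤ h j) (J : Finset (Fin s))
    (hJ : IndP Gh Lh τ h J) {γ : Type} [Fintype γ] [DecidableEq γ]
    (Y : γ → Bx q M × Fin n → L) (hYr : ∀ c, InRow Gh (pv (Y c))) (e₀ : γ → Bx q M × Fin n)
    (hY : ∀ c c', Y c (e₀ c') = if c = c' then 1 else 0)
    (hw : ∀ c x, Y c x ≠ 0 → SG.wt τ (toF x.1) ≤ SG.wt τ (toF (e₀ c).1)) :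
    LinearIndependent L fun i : γ ⊕ (J × Bx q (M - d)) =>
      SG.ini (fun x : Bx q M × Fin n => SG.wt τ (toF x.1))
        (Sum.elim (fun c => SG.wt τ (toF (e₀ c).1))
          (fun z : J × Bx q (M - d) => SG.wt τ (toF z.2) + h z.1) i)
        (Sum.elim Y (fun (z : J × Bx q (M - d)) (x : Bx q M × Fin n) => shf (Lh z.1) z.2 x) i) := by
  classical
  obtain ⟨w, hwdef⟩ : ∃ w : Bx q M × Fin n → ℝ, ∀ x, w x = SG.wt τ (toF x.1) :=
    ⟨fun x => SG.wt τ (toF x.1), fun _ => rfl⟩
  obtain ⟨H, hH1, hH2⟩ : ∃ H : γ ⊕ (J × Bx q (M - d)) → ℝ,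
      (∀ c, H (Sum.inl c) = w (e₀ c)) ∧
      ∀ z : J × Bx q (M - d), H (Sum.inr z) = SG.wt τ (toF z.2) + h z.1 :=
    ⟨Sum.elim (fun c => w (e₀ c)) (fun z : J × Bx q (M - d) => SG.wt τ (toF z.2) + h z.1),
      fun _ => rfl, fun _ => rfl⟩
  obtain ⟨x, hx1, hx2⟩ : ∃ x : γ ⊕ (J × Bx q (M - d)) → Bx q M × Fin n → L,
      (∀ c, x (Sum.inl c) = Y c) ∧
      ∀ z : J × Bx q (M - d), x (Sum.inr z) = fun x => shf (Lh z.1) z.2 x :=
    ⟨Sum.elim Y (fun (z : J × Bx q (M - d)) (x : Bx q M × Fin n) => shf (Lh z.1) z.2 x),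
      fun _ => rfl, fun _ => rfl⟩
  have hgoal : (fun i : γ ⊕ (J × Bx q (M - d)) =>
      SG.ini (fun x : Bx q M × Fin n => SG.wt τ (toF x.1))
        (Sum.elim (fun c => SG.wt τ (toF (e₀ c).1))
          (fun z : J × Bx q (M - d) => SG.wt τ (toF z.2) + h z.1) i)
        (Sum.elim Y (fun (z : J × Bx q (M - d)) (x : Bx q M × Fin n) => shf (Lh z.1) z.2 x) i)) =
      fun i => SG.ini w (H i) (x i) := by
    have hww : w = fun x : Bx q M × Fin n => SG.wt τ (toF x.1) := funext hwdef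
    funext i
    rcases i with c | z
    · rw [hH1, hx1, hww]
      rfl
    · rw [hH2, hx2, hww]
      rfl
  rw [hgoal, Fintype.linearIndependent_iff]
  -- the vectors vanish at the coordinates of larger weight
  have hxH : ∀ i k, H i < w k → x i k = 0 := by
    rintro (c | z) k hk
    · rw [hx1]
      by_contra h1
      have h2 := hw c k h1
      rw [hH1, hwdef, hwdef] at hk
      linarith
    · rw [hx2]
      rw [hH2, hwdef] at hk
      exact SG.vec_lt (ex := (toF : Bx q M → Fin q →₀ ℕ)) (y := Lh z.1)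
        (fun l m' hm' => hh z.1 l m' (mem_support_iff.mpr hm')) k hk
  intro a ha i₀
  by_contra hne
  obtain ⟨t, ht⟩ : ∃ t, t = H i₀ := ⟨_, rfl⟩
  obtain ⟨a', ha'⟩ : ∃ a' : γ ⊕ (J × Bx q (M - d)) → L, ∀ i, a' i = if H i = t then a i else 0 :=
    ⟨fun i => if H i = t then a i else 0, fun _ => rfl⟩
  obtain ⟨V, hV⟩ : ∃ V : Bx q M × Fin n → L, V = ∑ i, a' i • x i := ⟨_, rfl⟩
  -- the vector `V` has only weights smaller than `t`
  have hVt : ∀ k, V k ≠ 0 → w k < t := by
    intro k hk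
    by_contra hkt
    apply hk
    rcases lt_or_eq_of_le (not_lt.mp hkt) with h1 | h1
    · rw [hV, Finset.sum_apply]
      refine Finset.sum_eq_zero fun i _ => ?_
      rw [Pi.smul_apply, smul_eq_mul, ha']
      split_ifs with h2
      · rw [hxH i k (by rw [h2]; exact h1), mul_zero]
      · rw [zero_mul]
    · have h2 := congrFun ha k
      rw [Finset.sum_apply, Pi.zero_apply] at h2
      rw [hV, Finset.sum_apply, ← h2]
      refine Finset.sum_congr rfl fun i _ => ?_
      rw [Pi.smul_apply, Pi.smul_apply, smul_eq_mul, smul_eq_mul, ha']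
      split_ifs with h3
      · rw [SG.ini_eq (h1.symm.trans h3.symm)]
      · rw [SG.ini_ne (fun h4 => h3 (h4.symm.trans h1.symm)), mul_zero, zero_mul]
  -- the vectors of polynomials
  obtain ⟨z, hz⟩ : ∃ z : Bx q M × Fin n → L, z = ∑ c, a' (Sum.inl c) • Y c := ⟨_, rfl⟩
  obtain ⟨cj, hcj, hcj'⟩ : ∃ cj : Fin s → MvPolynomial (Fin q) L,
      (∀ j : J, cj j = ∑ m : Bx q (M - d), monomial (toF m) (a' (Sum.inr (j, m)))) ∧
      ∀ j, j ∉ J → cj j = 0 := by
    refine ⟨fun j => if hj : j ∈ J then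
      ∑ m : Bx q (M - d), monomial (toF m) (a' (Sum.inr (⟨j, hj⟩, m))) else 0, ?_, ?_⟩
    · intro j
      simp only
      rw [dif_pos j.2]
    · intro j hj
      simp only
      rw [dif_neg hj]
  have hF : ∀ l, ∑ j ∈ J, cj j * Lh j l = ∑ y : J × Bx q (M - d),
      C (a' (Sum.inr y)) * (monomial (toF y.2) 1 * Lh y.1 l) := by
    intro l
    rw [Fintype.sum_prod_type, ← Finset.sum_coe_sort J]
    refine Finset.sum_congr rfl fun j _ => ?_
    rw [hcj, Finset.sum_mul]
    refine Finset.sum_congr rfl fun m _ => ?_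
    rw [← mul_assoc, C_mul_monomial, mul_one]
  have hFc : ∀ (b : Bx q M) (l : Fin n),
      coeff (toF b) (pv z l + ∑ j ∈ J, cj j * Lh j l) = V (b, l) := by
    intro b l
    rw [hF, coeff_add, T2_coeff_pv, coeff_sum, hV, Fintype.sum_sum_type, Pi.add_apply]
    congr 1
    · rw [hz, Finset.sum_apply, Finset.sum_apply]
      refine Finset.sum_congr rfl fun c _ => ?_
      rw [hx1]
    · rw [Finset.sum_apply]
      refine Finset.sum_congr rfl fun y _ => ?_
      rw [coeff_C_mul, Pi.smul_apply, smul_eq_mul, hx2]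
      rfl
  have hFr : ∀ (l : Fin n) (m' : Fin q →₀ ℕ),
      coeff m' (pv z l + ∑ j ∈ J, cj j * Lh j l) ≠ 0 →
        m' ∈ Set.range (toF : Bx q M → Fin q →₀ ℕ) := by
    intro l m' hm'
    by_contra hr
    apply hm'
    rw [hF, coeff_add, T2_coeff_pv' _ hr, zero_add, coeff_sum]
    refine Finset.sum_eq_zero fun y _ => ?_
    rw [coeff_C_mul, coeff_monomial_mul', one_mul]
    split_ifs with hle
    · by_cases h0 : coeff (m' - toF y.2) (Lh y.1 l) = 0
      · rw [h0, mul_zero]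
      · exfalso
        apply hr
        refine SG.L3_mem_range fun k => ?_
        have h2 := hd y.1 l _ (mem_support_iff.mpr h0) k
        have h3 : (y.2 k : ℕ) ≤ M - d := Nat.lt_succ_iff.mp (y.2 k).2
        have h4 : m' k - (y.2 k : ℕ) ≤ d := h2
        omega
    · rw [mul_zero]
  have hFw : ∀ l, ∀ m' ∈ (pv z l + ∑ j ∈ J, cj j * Lh j l).support, SG.wt τ m' < t := by
    intro l m' hm'
    have h1 := mem_support_iff.mp hm'
    obtain ⟨b, rfl⟩ := hFr l m' h1
    rw [hFc] at h1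
    have h2 := hVt _ h1
    rw [hwdef] at h2
    exact h2
  obtain ⟨w', hw't, hw'⟩ := T2_bd
    (Finset.univ.biUnion fun l => (pv z l + ∑ j ∈ J, cj j * Lh j l).support)
    (fun m' => SG.wt τ m') t (fun m' hm' => by
      obtain ⟨l, -, hl⟩ := Finset.mem_biUnion.mp hm'
      exact hFw l m' hl)
  have hzr : InRow Gh (pv z) := by
    rw [hz]
    exact T2_inRow_sum hYr _
  obtain ⟨ho1, ho2⟩ := orth hh hJ hzr cj (w := w') (fun l m' hm' =>
    hw' m' (Finset.mem_biUnion.mpr ⟨l, Finset.mem_univ l, hm'⟩))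
  rcases i₀ with c₀ | ⟨j, m⟩
  · have h1 : coeff (toF (e₀ c₀).1) (pv z (e₀ c₀).2) = a (Sum.inl c₀) := by
      rw [T2_coeff_pv, hz, Finset.sum_apply, Finset.sum_eq_single c₀]
      · rw [Pi.smul_apply, smul_eq_mul]
        show a' (Sum.inl c₀) * Y c₀ (e₀ c₀) = _
        rw [hY, if_pos rfl, mul_one, ha', if_pos ht.symm]
      · intro c _ hc
        rw [Pi.smul_apply, smul_eq_mul]
        show a' (Sum.inl c) * Y c (e₀ c₀) = _
        rw [hY, if_neg hc, mul_zero]
      · intro h2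
        exact (h2 (Finset.mem_univ _)).elim
    have h2 := ho1 (e₀ c₀).2 (toF (e₀ c₀).1) (mem_support_iff.mpr (by rw [h1]; exact hne))
    rw [hH1, hwdef] at ht
    linarith
  · have h1 : coeff (toF m) (cj j) = a (Sum.inr (j, m)) := by
      rw [hcj, coeff_sum, Finset.sum_eq_single m]
      · rw [coeff_monomial, if_pos rfl, ha', if_pos ht.symm]
      · intro m' _ hm'
        rw [coeff_monomial, if_neg (fun h2 => hm' (SG.L3_toF_inj h2))]
      · intro h2
        exact (h2 (Finset.mem_univ _)).elim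
    have h2 := ho2 j j.2 (toF m) (mem_support_iff.mpr (by rw [h1]; exact hne))
    rw [hH2] at ht
    simp only at ht
    linarith

theorem L_mainV {L : Type*} [Field L] {q g n s M d : ℕ} (hdM : d ≤ M) (τ : Fin q → ℝ)
    (Gh : Fin g → Fin n → MvPolynomial (Fin q) L) (Lh : Fin s → Fin n → MvPolynomial (Fin q) L)
    (hd : ∀ j l, ∀ m ∈ (Lh j l).support, ∀ i, m i ≤ d) (h : Fin s → ℝ)
    (hh : ∀ j l, ∀ m ∈ (Lh j l).support, SG.wt τ m ≤ h j) (J : Finset (Fin s))
    (hJ : IndP Gh Lh τ h J) {γ : Type} [Fintype γ] [DecidableEq γ]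
    (Z : γ → Bx q M × Fin n → L) (hZ : LinearIndependent L Z)
    (hZr : ∀ c, InRow Gh (pv (Z c))) :
    ∃ W : Finset (Bx q M × Fin n),
      LinearIndependent L
        (Sum.elim Z (Sum.elim (fun (z : J × Bx q (M - d)) (x : Bx q M × Fin n) =>
            shf (Lh z.1) z.2 x)
          fun (z : W) (x : Bx q M × Fin n) => if x = z then (1 : L) else 0)) ∧
      W.card + J.card * (M - d + 1) ^ q + Fintype.card γ = n * (M + 1) ^ q ∧
      ∀ e : γ → Bx q M × Fin n, mnr Z e ≠ 0 →
        ∑ j ∈ J, ∑ m : Bx q (M - d), (SG.wt τ (toF m) + h j) +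
            ∑ z ∈ W, SG.wt τ (toF z.1) + ∑ c, SG.wt τ (toF (e c).1) ≤
          n * ∑ m : Bx q M, SG.wt τ (toF m) := by
  classical
  obtain ⟨e₀, Y, hmax, hY, hw, hYZ, hZY⟩ :=
    T2_red (fun x : Bx q M × Fin n => SG.wt τ (toF x.1)) Z hZ
  have hYr : ∀ c, InRow Gh (pv (Y c)) := by
    intro c
    obtain ⟨a, ha⟩ := hYZ c
    rw [ha]
    exact T2_inRow_sum hZr a
  have hini := T2_ini hdM τ Gh Lh hd h hh J hJ Y hYr e₀ hY hw
  set w : Bx q M × Fin n → ℝ := fun x => SG.wt τ (toF x.1) with hwdef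
  set H : (γ ⊕ (J × Bx q (M - d))) ⊕ (Bx q M × Fin n) → ℝ :=
    Sum.elim (Sum.elim (fun c => SG.wt τ (toF (e₀ c).1))
          (fun z : J × Bx q (M - d) => SG.wt τ (toF z.2) + h z.1)) w with hH
  set x : (γ ⊕ (J × Bx q (M - d))) ⊕ (Bx q M × Fin n) → Bx q M × Fin n → L :=
    Sum.elim (Sum.elim Y (fun (z : J × Bx q (M - d)) (x : Bx q M × Fin n) => shf (Lh z.1) z.2 x))
      (fun k => (Pi.single k 1 : Bx q M × Fin n → L)) with hx
  have h1 : LinearIndepOn L (fun i => SG.ini w (H i) (x i)) (Set.range Sum.inl) := by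
    rw [linearIndepOn_range_iff Sum.inl_injective]
    exact hini
  obtain ⟨b, hsb, hbs, hcard, hli⟩ := SG.ini_extend h1 Sum.inr (fun k => rfl) (fun k => rfl)
  have hb : b = (Finset.univ : Finset (γ ⊕ (J × Bx q (M - d)))).disjSum
      (Finset.univ.filter fun k => Sum.inr k ∈ b) := by
    ext i
    rw [Finset.mem_disjSum]
    constructor
    · intro hi
      rcases hbs hi with ⟨p, rfl⟩ | ⟨k, rfl⟩
      · exact Or.inl ⟨p, Finset.mem_univ p, rfl⟩
      · exact Or.inr ⟨k, Finset.mem_filter.mpr ⟨Finset.mem_univ k, hi⟩, rfl⟩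
    · rintro (⟨p, hp, rfl⟩ | ⟨k, hk, rfl⟩)
      · exact hsb ⟨p, rfl⟩
      · exact (Finset.mem_filter.mp hk).2
  obtain ⟨W, hW⟩ : ∃ W : Finset (Bx q M × Fin n), W = Finset.univ.filter fun k => Sum.inr k ∈ b :=
    ⟨_, rfl⟩
  rw [← hW] at hb
  have hxli : LinearIndepOn L x (b : Set _) := by
    refine SG.ini_li (w := w) (h := H) (fun i hi k hk => ?_) hli
    rcases i with (c | z) | k'
    · by_contra h2
      have h3 : w k ≤ w (e₀ c) := hw c k h2
      exact absurd hk (not_lt.mpr h3)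
    · exact SG.vec_lt (ex := (toF : Bx q M → Fin q →₀ ℕ)) (y := Lh z.1)
        (fun l m' hm' => hh z.1 l m' (mem_support_iff.mpr hm')) k hk
    · have hne : k ≠ k' := by
        rintro rfl
        exact lt_irrefl _ hk
      exact Pi.single_eq_of_ne hne 1
  refine ⟨W, ?_, ?_, ?_⟩
  · have hmemb : ∀ i, Sum.inl i ∈ (b : Set ((γ ⊕ (J × Bx q (M - d))) ⊕ (Bx q M × Fin n))) :=
      fun i => hsb ⟨i, rfl⟩
    have hmemW : ∀ k : W,
        Sum.inr k.1 ∈ (b : Set ((γ ⊕ (J × Bx q (M - d))) ⊕ (Bx q M × Fin n))) := by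
      intro k
      exact (Finset.mem_filter.mp ((Finset.ext_iff.mp hW k.1).mp k.2)).2
    obtain ⟨χ, hχ⟩ : ∃ χ : γ ⊕ ((J × Bx q (M - d)) ⊕ W) →
        (b : Set ((γ ⊕ (J × Bx q (M - d))) ⊕ (Bx q M × Fin n))),
        χ = Sum.elim (fun c => ⟨Sum.inl (Sum.inl c), hmemb _⟩)
          (Sum.elim (fun z => ⟨Sum.inl (Sum.inr z), hmemb _⟩) fun k => ⟨Sum.inr k.1, hmemW k⟩) :=
      ⟨_, rfl⟩
    have hχi : Function.Injective χ := by
      rw [hχ]
      rintro (p | p | k) (p' | p' | k') h0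
      · have h2 := Subtype.ext_iff.mp h0
        simpa using h2
      · have h2 := Subtype.ext_iff.mp h0
        simp at h2
      · have h2 := Subtype.ext_iff.mp h0
        simp at h2
      · have h2 := Subtype.ext_iff.mp h0
        simp at h2
      · have h2 := Subtype.ext_iff.mp h0
        simpa using h2
      · have h2 := Subtype.ext_iff.mp h0
        simp at h2
      · have h2 := Subtype.ext_iff.mp h0
        simp at h2
      · have h2 := Subtype.ext_iff.mp h0
        simp at h2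
      · have h2 := Subtype.ext_iff.mp h0
        have h3 : k.1 = k'.1 := Sum.inr_injective h2
        rw [Subtype.ext h3]
    have h2 := LinearIndependent.comp hxli χ hχi
    have h3 : (fun i : (b : Set ((γ ⊕ (J × Bx q (M - d))) ⊕ (Bx q M × Fin n))) => x i) ∘ χ =
        Sum.elim Y (Sum.elim (fun (z : J × Bx q (M - d)) (x : Bx q M × Fin n) =>
            shf (Lh z.1) z.2 x)
          fun (z : W) (x : Bx q M × Fin n) => if x = z then (1 : L) else 0) := by
      rw [hχ]
      funext i y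
      rcases i with c | z | k
      · rfl
      · rfl
      · show (Pi.single k.1 1 : Bx q M × Fin n → L) y = if y = k.1 then 1 else 0
        rw [Pi.single_apply]
    rw [h3] at h2
    obtain ⟨-, h4, h5⟩ := linearIndependent_sum.mp h2
    refine LinearIndependent.sum_type hZ h4 (h5.mono_left ?_)
    rw [Submodule.span_le]
    rintro _ ⟨c, rfl⟩
    exact hZY c
  · rw [hb, Finset.card_disjSum, Finset.card_univ, Fintype.card_sum, Fintype.card_prod,
      Fintype.card_coe, Fintype.card_prod, Fintype.card_fin] at hcard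
    simp only [Fintype.card_pi, Fintype.card_fin, Finset.prod_const, Finset.card_univ] at hcard
    rw [mul_comm n, ← hcard]
    ring
  · intro e he
    have h2 := SG.ini_sum hli hcard
    rw [hb, Finset.sum_disjSum, Fintype.sum_sum_type] at h2
    have h3 : ∑ z : J × Bx q (M - d), H (Sum.inl (Sum.inr z)) =
        ∑ j ∈ J, ∑ m : Bx q (M - d), (SG.wt τ (toF m) + h j) := by
      rw [Fintype.sum_prod_type, ← Finset.sum_coe_sort J]
      rfl
    have h4 : ∑ k : Bx q M × Fin n, w k = n * ∑ m : Bx q M, SG.wt τ (toF m) := by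
      rw [Fintype.sum_prod_type]
      simp [hwdef, Finset.mul_sum]
    have h5 : ∑ c, SG.wt τ (toF (e c).1) ≤ ∑ c, H (Sum.inl (Sum.inl c)) := hmax e he
    have h6 : ∑ k ∈ W, H (Sum.inr k) = ∑ z ∈ W, SG.wt τ (toF z.1) := rfl
    rw [h3, h4, h6] at h2
    linarith

end Pool.Agent.Lib.MP_17a322_nt.VB
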