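import Pool.Agent.Lib.MP_17a322_nt.TB.T1
import Pool.Agent.Lib.MP_17a322_nt.VB.Defs
import Pool.Agent.Lib.MP_17a322_nt.VB.T2

/-!
Vector bundles on principal torus bundles over `A`: completion of the forms by coordinates.
-/

universe u

namespace Pool.Agent.Lib.MP_17a322_nt.VB

open MvPolynomial Height
open Pool.Agent.Lib.MP_17a322_nt.VA
open Pool.Agent.Lib.MP_17a322_nt.SL
open Pool.Agent.Lib.MP_17a322_nt.SG (Bx toF shf Ix)
open Pool.Agent.Lib.MP_17a322_nt.TB (Tor Kp Cx ex ev maxWt wB LamT phi)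

/-- The determinant of a matrix of forms. -/
theorem T3_det {σ ι R : Type*} [Fintype ι] [DecidableEq ι] [CommRing R]
    (M : Matrix ι ι (MvPolynomial σ R)) (ρ δ : ι → ℕ)
    (h : ∀ i j, M i j = 0 ∨ ∃ m, (M i j).IsHomogeneous m ∧ m + ρ i = δ j) :
    M.det.IsHomogeneous (∑ j, δ j - ∑ i, ρ i) := by
  rw [Matrix.det_apply]
  refine IsHomogeneous.sum _ _ _ fun τ _ => ?_
  by_cases h0 : ∃ i, M (τ i) i = 0
  · obtain ⟨i, hi⟩ := h0
    have h1 : ∏ i, M (τ i) i = 0 := Finset.prod_eq_zero (Finset.mem_univ i) hi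
    rw [h1, smul_zero]
    exact isHomogeneous_zero _ _ _
  · have h0' : ∀ i, M (τ i) i ≠ 0 := fun i hi => h0 ⟨i, hi⟩
    choose m hm using fun i => (h (τ i) i).resolve_left (h0' i)
    have h1 : (∏ i, M (τ i) i).IsHomogeneous (∑ i, m i) :=
      IsHomogeneous.prod _ _ _ fun i _ => (hm i).1
    have h2 : ∑ j, δ j - ∑ i, ρ i = ∑ i, m i := by
      have h3 : ∑ i, m i + ∑ i, ρ i = ∑ j, δ j := by
        rw [← Equiv.sum_comp τ ρ, ← Finset.sum_add_distrib]
        exact Finset.sum_congr rfl fun i _ => (hm i).2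
      omega
    rw [h2]
    rcases Int.units_eq_one_or (Equiv.Perm.sign τ) with h4 | h4 <;> rw [h4]
    · rw [one_smul]
      exact h1
    · rw [Units.neg_smul, one_smul]
      exact h1.neg

section

variable {K : Type u} [Field K] {N q p : ℕ} {A : AV K N} (T : Tor A q p) {g n s : ℕ}

theorem T_mainV {D M d : ℕ} (hdM : d ≤ M) {G : Matrix (Fin g) (Fin n) (Pl K N q p)}
    (Λ : Matrix (Fin s) (Fin n) (Pl K N q p)) (hΛ : ∀ j l, T.WH D (Λ j l))
    (hd : ∀ j l, ∀ m ∈ (Λ j l).support, ∀ i, ∑ c, m (i, c) ≤ d) (𝓡 : Rel T G M)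
    (τ : Fin q → ℝ) (J : Finset (Fin s)) (hJ : IndV T G Λ τ J) :
    ∃ W : Finset (Bx q M × Fin n),
      (∀ (a : Fin (N + 1)) (ch : Fin q → Fin p),
        (X a : MvPolynomial (Fin (N + 1)) K) ∉ A.I → (∀ i, T.η i (ch i) ∉ A.I) →
        IndZ A 𝓡.G' (fun j => redZ (wV T M) (LamV (M := M) (d := d) T.k a ch D Λ j))
          ((J ×ˢ Finset.univ).disjSum W)) ∧
      W.card + J.card * (M - d + 1) ^ q + Fintype.card 𝓡.γ = n * (M + 1) ^ q ∧
      ∀ (L : Type u) [Field L] [Algebra K L] (P : A.Pts L) (e : 𝓡.γ → Bx q M × Fin n),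
        mnr (fun i x => aeval (A.x P) (𝓡.G' i x)) e ≠ 0 →
        ∑ j ∈ J, ∑ m : Bx q (M - d), (SG.wt τ (toF m) + maxWt τ (Λ j)) +
            ∑ z ∈ W, SG.wt τ (toF z.1) + ∑ c, SG.wt τ (toF (e c).1) ≤
          n * ∑ m : Bx q M, SG.wt τ (toF m) := by
  classical
  obtain ⟨L, _, _, _, P₀, hP₀⟩ := EF.T_gen A
  obtain ⟨W, hW, hWc, hWs⟩ := L_mainV hdM τ (fun i l => T.sp P₀ (G i l))
    (fun j l => T.sp P₀ (Λ j l))
    (fun j l m hm i => by
      rw [TB.sp_eq] at hm
      obtain ⟨μ, hμ, rfl⟩ := TB.spR_support _ _ _ hm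
      exact hd j l μ hμ i) (fun j => maxWt τ (Λ j))
    (fun j l m hm => by
      rw [TB.sp_eq] at hm
      obtain ⟨μ, hμ, rfl⟩ := TB.spR_support _ _ _ hm
      rw [TB.wt_yd]
      exact TB.le_maxWt τ (Λ j) hμ) J (hJ L P₀ hP₀)
    (fun c x => aeval (A.x P₀) (𝓡.G' c x)) (𝓡.li L P₀ hP₀) (fun c => 𝓡.row L P₀ c)
  refine ⟨W, ?_, hWc, ?_⟩
  · intro a ch ha hch
    have hxa : A.x P₀ a ≠ 0 := by
      have h2 := TB.T_gen_ne hP₀ (isHomogeneous_X K a) ha
      rwa [aeval_X] at h2
    have hη : ∀ i, aeval (A.x P₀) (T.η i (ch i)) ≠ 0 := fun i =>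
      TB.T_gen_ne hP₀ (T.hom i (ch i)) (hch i)
    have hy : ∀ i : ((J ×ˢ Finset.univ).disjSum W : Finset (Ix q M d n s)),
        ∃ y : (J × Bx q (M - d)) ⊕ W,
          Sum.map (fun p : J × Bx q (M - d) => ((p.1 : Fin s), p.2)) (fun p : W => p.1) y = i.1 := by
      rintro ⟨i, hi⟩
      rcases i with p | p
      · have h2 := Finset.inl_mem_disjSum.1 hi
        rw [Finset.mem_product] at h2
        exact ⟨Sum.inl (⟨p.1, h2.1⟩, p.2), rfl⟩
      · have h2 := Finset.inr_mem_disjSum.1 hi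
        exact ⟨Sum.inr ⟨p, h2⟩, rfl⟩
    choose y hy using hy
    have hyi : Function.Injective y := by
      intro i i' h
      refine Subtype.ext ?_
      rw [← hy i, ← hy i', h]
    obtain ⟨uu, huu⟩ : ∃ uu : (J × Bx q (M - d)) ⊕ W → Lˣ, ∀ z, (uu z : L) =
        Sum.elim (fun z : J × Bx q (M - d) => A.x P₀ a ^ (∑ i, T.k i * (M - z.2 i)) *
            ∏ i, aeval (A.x P₀) (T.η i (ch i)) ^ (z.2 i : ℕ))
          (fun z : W => A.x P₀ a ^ D * (A.x P₀ a ^ ex T.k z.1.1 *
            ∏ i, aeval (A.x P₀) (T.η i (ch i)) ^ (z.1.1 i : ℕ))) z := by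
      refine ⟨fun z => Units.mk0 _ ?_, fun z => rfl⟩
      rcases z with z | z
      · exact mul_ne_zero (pow_ne_zero _ hxa)
          (Finset.prod_ne_zero_iff.2 fun i _ => pow_ne_zero _ (hη i))
      · exact mul_ne_zero (pow_ne_zero _ hxa) (mul_ne_zero (pow_ne_zero _ hxa)
          (Finset.prod_ne_zero_iff.2 fun i _ => pow_ne_zero _ (hη i)))
    -- the degrees of the columns
    obtain ⟨E, hE⟩ : ∃ E : Bx q M → ℕ, ∀ b, E b = ex T.k b + ∑ i, T.e i * b i :=
      ⟨_, fun b => rfl⟩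
    obtain ⟨Et, hEt⟩ : ∃ Et : ℕ, Et = ∑ b, E b := ⟨_, rfl⟩
    have hEle : ∀ b, E b ≤ Et := fun b => by
      rw [hEt]
      exact Finset.single_le_sum (f := E) (fun _ _ => Nat.zero_le _) (Finset.mem_univ b)
    obtain ⟨fam, hfam⟩ : ∃ fam : 𝓡.γ ⊕
        ((J ×ˢ Finset.univ).disjSum W : Finset (Ix q M d n s)) → Bx q M × Fin n →
          MvPolynomial (Fin (N + 1)) K, fam =
        Sum.elim (fun (i : 𝓡.γ) (x : Bx q M × Fin n) => 𝓡.G' i x)
          (fun (j : ((J ×ˢ Finset.univ).disjSum W : Finset (Ix q M d n s))) x =>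
            TB.red (wB T M) (LamT (M := M) (d := d) T.k a ch D Λ j.1) x) := ⟨_, rfl⟩
    have hLI : LinearIndependent L (fun i x => aeval (A.x P₀) (fam i x)) := by
      have h2 := (hW.comp (Sum.map id y) (Function.injective_id.sumMap hyi)).units_smul
        (Sum.elim (fun _ => 1) fun i => uu (y i))
      refine TB.li_congr h2 ?_
      intro i
      funext x
      rw [hfam]
      rcases i with z | i
      · simp only [Pi.smul_apply', Function.comp_apply, Sum.map_inl, Sum.elim_inl, id, one_smul]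
      · simp only [Pi.smul_apply', Function.comp_apply, Sum.map_inr, Sum.elim_inr]
        have h3 := hy i
        rcases h4 : y i with z | z
        · rw [h4] at h3
          rw [← h3]
          simp only [Sum.elim_inl, Sum.map_inl]
          rw [TB.red_inl, Pi.smul_apply, Units.smul_def, huu]
          rfl
        · rw [h4] at h3
          rw [← h3]
          simp only [Sum.elim_inr, Sum.map_inr]
          rw [TB.red_inr, Pi.smul_apply, Units.smul_def, huu]
          simp only [Sum.elim_inr]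
          split_ifs with h5
          · rw [smul_eq_mul, mul_one]
          · rw [smul_eq_mul, mul_zero]
    intro L' _ _ P hP
    have hxa' : A.x P a ≠ 0 := by
      have h2 := TB.T_gen_ne hP (isHomogeneous_X K a) ha
      rwa [aeval_X] at h2
    have hLI2 := (TB.li_scale (fun x : Bx q M × Fin n => A.x P₀ a ^ (Et - E x.1))
      (fun x => pow_ne_zero _ hxa) _).2 hLI
    have hLI3 : LinearIndependent L fun i (x : Bx q M × Fin n) =>
        aeval (A.x P₀) (X a ^ (Et - E x.1) * fam i x) := by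
      refine TB.li_congr hLI2 fun i => ?_
      funext x
      rw [map_mul, map_pow, aeval_X]
    have h2 := EF.T_li A (fun i (x : Bx q M × Fin n) => X a ^ (Et - E x.1) * fam i x)
      (Sum.elim (fun i => Et + 𝓡.D' - 𝓡.ρ i) fun _ => Et + D) (by
        intro i x
        have h3 := (isHomogeneous_X K a).pow (Et - E x.1)
        rw [one_mul] at h3
        rw [hfam]
        rcases i with i | j
        · simp only [Sum.elim_inl]
          rcases 𝓡.hom i x with h4 | ⟨m, h4, h5⟩
          · rw [h4, mul_zero]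
            exact isHomogeneous_zero _ _ _
          · rw [← hE] at h5
            have h6 := h3.mul h4
            have h7 : Et - E x.1 + m = Et + 𝓡.D' - 𝓡.ρ i := by
              have := hEle x.1
              omega
            rw [h7] at h6
            exact h6
        · simp only [Sum.elim_inr]
          unfold TB.red
          rw [Finset.mul_sum]
          refine IsHomogeneous.sum _ _ _ fun κ _ => ?_
          have h4 := h3.mul ((TB.LamT_hom T a ch hΛ j.1 (x.1, κ, x.2)).mul (TB.wB_hom T M x.1 κ))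
          have h5 : Et - E x.1 + (D + (ex T.k x.1 + ∑ i, T.e i * x.1 i)) = Et + D := by
            rw [← hE]
            have := hEle x.1
            omega
          rw [h5] at h4
          exact h4) P₀ P hP₀ hP hLI3
    have h3 : LinearIndependent L' fun i (x : Bx q M × Fin n) => aeval (A.x P) (fam i x) := by
      refine (TB.li_scale (fun x : Bx q M × Fin n => A.x P a ^ (Et - E x.1))
        (fun x => pow_ne_zero _ hxa') _).1 (TB.li_congr h2 fun i => ?_)
      funext x
      rw [map_mul, map_pow, aeval_X]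
    refine TB.li_congr h3 ?_
    intro i
    funext x
    rw [hfam]
    rcases i with z | j
    · rfl
    · rfl
  · intro L' _ _ P e he
    refine hWs e ?_
    have h1 := T3_det (Matrix.of fun i j => 𝓡.G' i (e j)) 𝓡.ρ
      (fun j => 𝓡.D' + (ex T.k (e j).1 + ∑ i, T.e i * (e j).1 i)) fun i j => 𝓡.hom i (e j)
    have h2 : ∀ (L : Type u) [Field L] [Algebra K L] (P : A.Pts L),
        mnr (fun i x => aeval (A.x P) (𝓡.G' i x)) e =
          aeval (A.x P) (Matrix.of fun i j => 𝓡.G' i (e j)).det := by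
      intro L _ _ P
      rw [AlgHom.map_det]
      rfl
    rw [h2] at he
    rw [h2]
    exact TB.T_gen_ne hP₀ h1 fun h => he (A.x_isPt P _ h)

end

end Pool.Agent.Lib.MP_17a322_nt.VB
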