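import Pool.Agent.Lib.MP_17a322_nt.VB.Defs
import Pool.Agent.Lib.MP_17a322_nt.TB.V2

/-!
Vector bundles on principal torus bundles over `A`: the inequality at one place.
-/

universe u

namespace Pool.Agent.Lib.MP_17a322_nt.VB

open MvPolynomial Height
open Pool.Agent.Lib.MP_17a322_nt.VA
open Pool.Agent.Lib.MP_17a322_nt.SL
open Pool.Agent.Lib.MP_17a322_nt.SG (Bx toF shf Ix)
open Pool.Agent.Lib.MP_17a322_nt.TB (Tor Kp Cx ex ev maxWt wB LamT phi lamF V_x_pos V_y_pos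
  V_log V_phi V_val V_val')

/-- The change of the order of the columns. -/
private def V1_e (N q p M n : ℕ) : Cz N q p M n ≃ Cx N q p M n where
  toFun := toC
  invFun := fun x => ((x.1, x.2.2), x.2.1)
  left_inv := fun _ => rfl
  right_inv := fun _ => rfl

private theorem V1_sum {N q p M n : ℕ} {R : Type*} [AddCommMonoid R] (f : Cx N q p M n → R) :
    ∑ x : Cz N q p M n, f (toC x) = ∑ x, f x :=
  Equiv.sum_comp (V1_e N q p M n) f

private theorem V1_sup {N q p M n : ℕ} (f : Cx N q p M n → ℝ) :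
    ⨆ x : Cz N q p M n, f (toC x) = ⨆ x, f x :=
  Equiv.iSup_comp (g := f) (V1_e N q p M n)

section

variable {K : Type u} [Field K] {N q p : ℕ} {A : AV K N} (T : Tor A q p) {g n r s : ℕ}

private theorem V1_lam {D M d : ℕ} (Λ : Matrix (Fin s) (Fin n) (Pl K N q p))
    (v : AbsoluteValue K ℝ) (P : A.Pts K) (y : Fin q × Fin p → K) (a : Fin (N + 1))
    (ch : Fin q → Fin p) (Z : Fin n → K) (j : Ix q M d n s) :
    lamZ A v D (LamV (M := M) (d := d) T.k a ch D Λ j) P (phiV T.k M (A.x P) y Z) =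
      lamF A v D (LamT (M := M) (d := d) T.k a ch D Λ j) P (phi T.k M (A.x P) y Z) := by
  unfold lamZ lamF
  have h1 := V1_sup fun x => v (phi T.k M (A.x P) y Z x)
  have h2 := V1_sum fun x => aeval (A.x P) (LamT (M := M) (d := d) T.k a ch D Λ j x) *
    phi T.k M (A.x P) y Z x
  rw [← h1, ← h2]
  rfl

theorem V_mainV {D M d : ℕ} (hdM : d ≤ M) (Λ : Matrix (Fin s) (Fin n) (Pl K N q p))
    (hΛ : ∀ j l, T.WH D (Λ j l))
    (hd : ∀ j l, ∀ m ∈ (Λ j l).support, ∀ i, ∑ c, m (i, c) ≤ d) (v : AbsoluteValue K ℝ)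
    (P : A.Pts K) (y : Fin q × Fin p → K) (hy : T.On P y) (a : Fin (N + 1))
    (ha : v (A.x P a) = ⨆ j, v (A.x P j)) (ch : Fin q → Fin p)
    (hch : ∀ i, v (y (i, ch i)) = ⨆ c, v (y (i, c))) (Z : Fin n → K) (hZ : Z ≠ 0)
    (J : Finset (Fin s)) (W : Finset (Bx q M × Fin n)) (c : ℕ)
    (hc : W.card + J.card * (M - d + 1) ^ q + c = n * (M + 1) ^ q) (w : ℝ)
    (hs : ∑ j ∈ J, ∑ m : Bx q (M - d), (SG.wt (T.tau v P y) (toF m) +
        maxWt (T.tau v P y) (Λ j)) + ∑ z ∈ W, SG.wt (T.tau v P y) (toF z.1) + w ≤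
      n * ∑ m : Bx q M, SG.wt (T.tau v P y) (toF m))
    (hne : ∀ j ∈ (J ×ˢ Finset.univ).disjSum W,
      (∑ x, aeval (A.x P) (LamV (M := M) (d := d) T.k a ch D Λ j x) *
        phiV T.k M (A.x P) y Z x) ≠ 0) :
    (M - d + 1 : ℕ) ^ q * ∑ j ∈ J, T.lam v D (Λ j) P y Z +
        ((n * (M + 1) ^ q - c : ℝ) * M * ∑ i, max (T.tau v P y i) 0 -
          n * (M + 1) ^ q * (M / 2) * ∑ i, T.tau v P y i + w) ≤
      ∑ j ∈ (J ×ˢ Finset.univ).disjSum W,
        lamZ A v D (LamV (M := M) (d := d) T.k a ch D Λ j) P (phiV T.k M (A.x P) y Z) := by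
  have hne' : ∀ j ∈ (J ×ˢ Finset.univ).disjSum W,
      (∑ x, aeval (A.x P) (LamT (M := M) (d := d) T.k a ch D Λ j x) *
        phi T.k M (A.x P) y Z x) ≠ 0 := by
    intro j hj
    have h := hne j hj
    have h2 := V1_sum fun x => aeval (A.x P) (LamT (M := M) (d := d) T.k a ch D Λ j x) *
      phi T.k M (A.x P) y Z x
    rw [← h2]
    exact h
  rw [Finset.sum_congr rfl fun j _ => V1_lam T (M := M) (d := d) (D := D) Λ v P y a ch Z j]
  obtain ⟨τ, hτ⟩ : ∃ τ : Fin q → ℝ, τ = T.tau v P y := ⟨_, rfl⟩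
  obtain ⟨κ, hκ⟩ : ∃ κ : ℝ, κ = M * ∑ i, max (τ i) 0 := ⟨_, rfl⟩
  obtain ⟨ξ, hξ⟩ : ∃ ξ : ℝ, ξ = M * ∑ i, T.k i * Real.log (⨆ j, v (A.x P j)) := ⟨_, rfl⟩
  have hx := V_x_pos v P
  have hsup : Real.log (⨆ x, v (phi T.k M (A.x P) y Z x)) =
      Real.log (⨆ l, v (Z l)) + (ξ + κ) := by
    rw [V_phi T v M P hy hZ, Finset.sum_add_distrib, mul_add, hξ, hκ, hτ]
  have hlog := fun m : Bx q M => V_log T v hy m
  rw [← hτ] at hs ⊢
  simp only [← hτ, ← hξ] at hlog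
  -- the forms `x_a ^ .. y_ch ^ m Λ_j`
  have h1 : ∀ j ∈ J, ∀ m : Bx q (M - d),
      lamF A v D (LamT (M := M) (d := d) T.k a ch D Λ (Sum.inl (j, m))) P
        (phi T.k M (A.x P) y Z) =
        T.lam v D (Λ j) P y Z + κ - (SG.wt τ (toF m) + maxWt τ (Λ j)) := by
    intro j hj m
    have h2 := hne' (Sum.inl (j, m)) (Finset.inl_mem_disjSum.2
      (Finset.mk_mem_product hj (Finset.mem_univ _)))
    rw [V_val T hdM a ch Λ hd] at h2
    unfold lamF
    rw [V_val T hdM a ch Λ hd, hsup, map_mul, Real.log_mul (v.ne_zero (left_ne_zero_of_mul h2))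
      (v.ne_zero (right_ne_zero_of_mul h2))]
    obtain ⟨m', hm'⟩ : ∃ m' : Bx q M, ∀ i, (m' i : ℕ) = m i :=
      ⟨fun i => ⟨m i, by have := (m i).2; omega⟩, fun i => rfl⟩
    have h3 : v (A.x P a ^ (∑ i, T.k i * (M - m i)) * ∏ i, y (i, ch i) ^ (m i : ℕ)) =
        (⨆ j, v (A.x P j)) ^ ex T.k m' * ∏ i, (⨆ c, v (y (i, c))) ^ (m' i : ℕ) := by
      rw [map_mul, map_pow, map_prod, ha]
      unfold ex
      simp only [hm']
      congr 1
      refine Finset.prod_congr rfl fun i _ => ?_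
      rw [map_pow, hch i]
    have h4 : SG.wt τ (toF m') = SG.wt τ (toF m) := by
      unfold SG.wt
      refine Finset.sum_congr rfl fun i _ => ?_
      rw [SG.toF_apply, SG.toF_apply, hm' i]
    rw [h3, hlog m', h4]
    unfold Tor.lam
    rw [← hτ]
    ring
  -- the coordinates
  have h2 : ∀ z ∈ W, κ - SG.wt τ (toF z.1) ≤
      lamF A v D (LamT (M := M) (d := d) T.k a ch D Λ (Sum.inr z)) P
        (phi T.k M (A.x P) y Z) := by
    rintro ⟨m, l⟩ hz
    have h3 := hne' (Sum.inr (m, l)) (Finset.inr_mem_disjSum.2 hz)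
    rw [V_val' T a ch Λ] at h3
    have hxa := left_ne_zero_of_mul h3
    have h3' := right_ne_zero_of_mul h3
    have hZl : Z l ≠ 0 := right_ne_zero_of_mul h3'
    unfold lamF
    rw [V_val' T a ch Λ, hsup, map_mul, Real.log_mul (v.ne_zero hxa) (v.ne_zero h3'), map_mul,
      Real.log_mul (v.ne_zero (left_ne_zero_of_mul h3')) (v.ne_zero hZl), map_pow, Real.log_pow,
      ha]
    have h5 : v (A.x P a ^ ex T.k m * ∏ i, y (i, ch i) ^ (m i : ℕ)) =
        (⨆ j, v (A.x P j)) ^ ex T.k m * ∏ i, (⨆ c, v (y (i, c))) ^ (m i : ℕ) := by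
      rw [map_mul, map_pow, map_prod, ha]
      congr 1
      refine Finset.prod_congr rfl fun i _ => ?_
      rw [map_pow, hch i]
    rw [h5, hlog m]
    have h4 : Real.log (v (Z l)) ≤ Real.log (⨆ l, v (Z l)) :=
      Real.log_le_log (v.pos hZl) (le_ciSup (f := fun l => v (Z l))
        (Set.finite_range _).bddAbove l)
    simp only
    linarith
  rw [Finset.sum_disjSum, Finset.sum_product]
  have h3 : ∑ j ∈ J, ∑ m : Bx q (M - d),
      lamF A v D (LamT (M := M) (d := d) T.k a ch D Λ (Sum.inl (j, m))) P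
        (phi T.k M (A.x P) y Z) =
        (M - d + 1 : ℕ) ^ q * ∑ j ∈ J, T.lam v D (Λ j) P y Z +
          (J.card * (M - d + 1 : ℕ) ^ q) * κ -
          ∑ j ∈ J, ∑ m : Bx q (M - d), (SG.wt τ (toF m) + maxWt τ (Λ j)) := by
    rw [Finset.mul_sum, ← nsmul_eq_mul (n := J.card), smul_mul_assoc, ← Finset.sum_const,
      ← Finset.sum_add_distrib, ← Finset.sum_sub_distrib]
    refine Finset.sum_congr rfl fun j hj => ?_
    rw [Finset.sum_congr rfl fun m _ => h1 j hj m, Finset.sum_sub_distrib, Finset.sum_const,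
      Finset.card_univ, Fintype.card_fun, Fintype.card_fin, Fintype.card_fin, nsmul_eq_mul]
    push_cast
    ring
  have h4 : (W.card : ℝ) * κ - ∑ z ∈ W, SG.wt τ (toF z.1) ≤
      ∑ z ∈ W, lamF A v D (LamT (M := M) (d := d) T.k a ch D Λ (Sum.inr z)) P
        (phi T.k M (A.x P) y Z) := by
    rw [← nsmul_eq_mul, ← Finset.sum_const, ← Finset.sum_sub_distrib]
    exact Finset.sum_le_sum h2
  have hc' : (W.card : ℝ) + J.card * (M - d + 1 : ℕ) ^ q + c = n * (M + 1) ^ q := by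
    exact_mod_cast hc
  rw [SG.wt_sum] at hs
  rw [h3]
  have h6 : (n * (M + 1) ^ q - c : ℝ) * M * ∑ i, max (τ i) 0 =
      ((W.card : ℝ) + J.card * (M - d + 1 : ℕ) ^ q) * κ := by
    rw [← hc', hκ]
    ring
  rw [h6]
  have h7 : (n : ℝ) * (M + 1) ^ q * (M / 2) * ∑ i, τ i =
      n * ((M + 1) ^ q * (M / 2) * ∑ i, τ i) := by ring
  rw [h7]
  linarith

end

end Pool.Agent.Lib.MP_17a322_nt.VB
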