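import Pool.Agent.Lib.MP_17a322_nt.VB.Defs
import Pool.Agent.Lib.MP_17a322_nt.SG.X1

/-!
Vector bundles on principal torus bundles over `A`: exceptional forms.
-/

universe u

namespace Pool.Agent.Lib.MP_17a322_nt.VB

open MvPolynomial Height
open Pool.Agent.Lib.MP_17a322_nt.VA
open Pool.Agent.Lib.MP_17a322_nt.SL
open Pool.Agent.Lib.MP_17a322_nt.SG (Bx toF shf Ix)
open Pool.Agent.Lib.MP_17a322_nt.TB (Tor Kp Cx ex ev maxWt wB LamT phi Mt)

section

variable {R ι κ : Type*} [CommRing R] [Fintype ι] [DecidableEq ι]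

/-- Expansion along the last row. -/
private theorem X1_last (M : ι → κ → R) (e : ι ⊕ Unit → κ) :
    ∃ c : ι ⊕ Unit → R, ∀ z : κ → R, mnr (Sum.elim M fun _ => z) e = ∑ j, z (e j) * c j := by
  refine ⟨fun j => ((Matrix.of fun i j => (Sum.elim M fun _ : Unit => (0 : κ → R)) i
    (e j)).updateRow (Sum.inr ()) (Pi.single j 1)).det, fun z => ?_⟩
  unfold mnr
  rw [Matrix.det_eq_sum_mul_adjugate_row _ (Sum.inr ())]
  refine Finset.sum_congr rfl fun j _ => ?_
  rw [Matrix.adjugate_apply]
  congr 2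
  ext a b
  rcases a with a | a
  · rw [Matrix.updateRow_ne (by simp), Matrix.updateRow_ne (by simp)]
    rfl
  · rw [Matrix.updateRow_self, Matrix.updateRow_self]

private theorem X1_row (M : ι → κ → R) (i : ι) (e : ι ⊕ Unit → κ) :
    mnr (Sum.elim M fun _ => M i) e = 0 := by
  unfold mnr
  refine Matrix.det_zero_of_row_eq (i := Sum.inl i) (j := Sum.inr ()) (by simp) ?_
  rfl

/-- A vector outside the row space is detected by a linear form. -/
private theorem X1_not [Fintype κ] [DecidableEq κ] (M : ι → κ → R) (z : κ → R)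
    (h : ¬ InRow M z) :
    ∃ w : κ → R, (∀ i, ∑ l, M i l * w l = 0) ∧ ∑ l, z l * w l ≠ 0 := by
  unfold InRow at h
  push Not at h
  obtain ⟨e, he⟩ := h
  obtain ⟨cf, hcf⟩ := X1_last M e
  have hw : ∀ z : κ → R,
      ∑ l, z l * (∑ j, if e j = l then cf j else 0) = ∑ j, z (e j) * cf j := by
    intro z
    simp only [Finset.mul_sum]
    rw [Finset.sum_comm]
    refine Finset.sum_congr rfl fun j _ => ?_
    simp only [mul_ite, mul_zero]
    rw [Finset.sum_ite_eq, if_pos (Finset.mem_univ _)]
  refine ⟨fun l => ∑ j, if e j = l then cf j else 0, fun i => ?_, ?_⟩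
  · have a := hw (M i)
    have b := hcf (M i)
    have c := X1_row M i e
    exact a.trans (b.symm.trans c)
  · intro h6
    have a := hw z
    have b := hcf z
    exact he (b.trans (a.symm.trans h6))

end

section

variable {K : Type u} [Field K] {N q p : ℕ} {A : AV K N} (T : Tor A q p) {g n r s : ℕ}

theorem X_evalV' {M : ℕ} {R : Type*} [CommRing R] [Algebra K R] (k : Fin q → ℕ)
    (F : MvPolynomial (Fin (N + 1) ⊕ Cz N q p M n) K) (x : Fin (N + 1) → R)
    (y : Fin q × Fin p → R) (Z : Fin n → R) :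
    aeval (Sum.elim x (Sum.elim y Z)) (pullV k F) = aeval (Sum.elim x (phiV k M x y Z)) F := by
  unfold pullV
  rw [← AlgHom.comp_apply, comp_aeval]
  congr 2
  funext i
  rcases i with i | i
  · simp
  · simp only [Sum.elim_inr, phiV, phi]
    split_ifs
    · simp
    · simp

theorem X_evalV {M : ℕ} (k : Fin q → ℕ) (F : MvPolynomial (Fin (N + 1) ⊕ Cz N q p M n) K)
    (x : Fin (N + 1) → K) (y : Fin q × Fin p → K) (Z : Fin n → K) :
    aeval (Sum.elim x (Sum.elim y Z)) (pullV k F) = aeval (Sum.elim x (phiV k M x y Z)) F :=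
  X_evalV' k F x y Z

theorem X_mulV {G : Matrix (Fin g) (Fin n) (Pl K N q p)}
    {F F' : MvPolynomial (Fin (N + 1) ⊕ (Fin q × Fin p) ⊕ Fin n) K} (hF : ExcV T G F)
    (hF' : ExcV T G F') : ExcV T G (F * F') := by
  classical
  obtain ⟨⟨a, b, hab⟩, h⟩ := hF
  obtain ⟨⟨a', b', hab'⟩, h'⟩ := hF'
  refine ⟨⟨a + a', b + b', fun m hm => ?_⟩, fun L _ _ _ P hP => ?_⟩
  · have h1 := support_mul _ _ hm
    obtain ⟨m₁, hm₁, m₂, hm₂, rfl⟩ := Finset.mem_add.1 h1
    simp only [Finsupp.add_apply, Finset.sum_add_distrib, mul_add]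
    have h2 := hab m₁ hm₁
    have h3 := hab' m₂ hm₂
    constructor
    · rw [← h2.1, ← h3.1]
      ring
    · rw [h2.2, h3.2]
  · obtain ⟨c, m, y, hc, hy, hF⟩ := h L P hP
    obtain ⟨c', m', y', hc', hy', hF'⟩ := h' L P hP
    refine ⟨c * c', m + m', Fin.append y y', mul_ne_zero hc hc', fun k => ?_, ?_⟩
    · refine Fin.addCases (fun k => ?_) (fun k => ?_) k
      · rw [Fin.append_left]
        exact hy k
      · rw [Fin.append_right]
        exact hy' k
    · rw [map_mul, hF, hF', Fin.prod_univ_add]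
      simp only [Fin.append_left, Fin.append_right, map_mul]
      ring

theorem X_oneV {G : Matrix (Fin g) (Fin n) (Pl K N q p)} :
    ExcV T G (1 : MvPolynomial (Fin (N + 1) ⊕ (Fin q × Fin p) ⊕ Fin n) K) := by
  classical
  refine ⟨⟨0, 0, fun m hm => ?_⟩, fun L _ _ _ P hP => ⟨1, 0, fun _ _ => 0, one_ne_zero,
    fun k => k.elim0, ?_⟩⟩
  · have h1 : m = 0 := by
      have h2 := support_monomial_subset (R := K) (s := 0) (a := 1) hm
      simpa using h2
    rw [h1]
    simp
  · simp

/-- The weighted degree of the monomials in `phiV`. -/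
private theorem X1_wt {M : ℕ} (k : Fin q → ℕ) (b : Bx q M) (μ : Fin q × Fin p → Fin (M + 1))
    (hμ : Mt b μ) : ex k b + ∑ i, k i.1 * (μ i : ℕ) = M * ∑ i, k i := by
  unfold ex
  rw [Fintype.sum_prod_type, ← Finset.sum_add_distrib, Finset.mul_sum]
  refine Finset.sum_congr rfl fun i _ => ?_
  have h1 : ∑ c, k (i, c).1 * (μ (i, c) : ℕ) = k i * (b i : ℕ) := by
    rw [← hμ i, Finset.mul_sum]
  rw [h1, ← mul_add, Nat.sub_add_cancel (Nat.lt_succ_iff.1 (b i).2), mul_comm]

/-- The pullback of a monomial. -/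
theorem X_pull_monV {M : ℕ} (k : Fin q → ℕ) (d : Fin (N + 1) ⊕ Cz N q p M n →₀ ℕ) (c : K)
    (hd : ∀ x : Cz N q p M n, d (Sum.inr x) ≠ 0 → Mt x.1.1 x.2.2) :
    pullV k (monomial d c) =
        monomial (∑ i, Finsupp.single (Sum.inl i) (d (Sum.inl i)) +
          ∑ x : Cz N q p M n, (Finsupp.single (Sum.inl x.2.1) (d (Sum.inr x) * ex k x.1.1) +
            (∑ i, Finsupp.single (Sum.inr (Sum.inl i)) (d (Sum.inr x) * (x.2.2 i : ℕ)) +
              Finsupp.single (Sum.inr (Sum.inr x.1.2)) (d (Sum.inr x))))) c := by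
  have h3 : ∀ (e e' : Fin (N + 1) ⊕ (Fin q × Fin p) ⊕ Fin n →₀ ℕ) (c : K),
      monomial (e + e') c = C c * (monomial e 1 * monomial e' 1) := by
    intro e e' c
    rw [monomial_mul, C_mul_monomial, mul_one, mul_one]
  have h4 : ∀ (e e' : Fin (N + 1) ⊕ (Fin q × Fin p) ⊕ Fin n →₀ ℕ),
      monomial (e + e') (1 : K) = monomial e 1 * monomial e' 1 := by
    intro e e'
    rw [monomial_mul, mul_one]
  rw [h3, monomial_sum_one, monomial_sum_one]
  unfold pullV
  rw [aeval_monomial, Finsupp.prod_fintype _ _ (fun i => pow_zero _), Fintype.prod_sum_type,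
    algebraMap_eq]
  congr 1
  congr 1
  · refine Finset.prod_congr rfl fun i _ => ?_
    rw [Sum.elim_inl, X_pow_eq_monomial]
  · refine Finset.prod_congr rfl fun x _ => ?_
    rw [Sum.elim_inr]
    by_cases h5 : d (Sum.inr x) = 0
    · rw [h5, pow_zero]
      simp only [zero_mul, Finsupp.single_zero, Finset.sum_const_zero, add_zero]
      rfl
    · rw [phiV, phi, if_pos (show Mt (toC x).1 (toC x).2.1.2 from hd x h5), mul_pow, mul_pow, h4, h4, monomial_sum_one, mul_assoc]
      congr 1
      · rw [← pow_mul, X_pow_eq_monomial, mul_comm]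
        rfl
      congr 1
      · rw [← Finset.prod_pow]
        refine Finset.prod_congr rfl fun i _ => ?_
        rw [← pow_mul, X_pow_eq_monomial, mul_comm]
        rfl
      · rw [X_pow_eq_monomial]
        rfl

theorem X_pull_monV_zero {M : ℕ} (k : Fin q → ℕ) (d : Fin (N + 1) ⊕ Cz N q p M n →₀ ℕ) (c : K)
    (x : Cz N q p M n) (hx : d (Sum.inr x) ≠ 0) (hM : ¬ Mt x.1.1 x.2.2) :
    pullV k (monomial d c) = 0 := by
  unfold pullV
  rw [aeval_monomial, Finsupp.prod_fintype _ _ (fun i => pow_zero _), Fintype.prod_sum_type,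
    Finset.prod_eq_zero (Finset.mem_univ x) (by
      rw [Sum.elim_inr, phiV, phi, if_neg (show ¬ Mt (toC x).1 (toC x).2.1.2 from hM),
        zero_pow hx] :
        Sum.elim (fun i => X (Sum.inl i))
          (phiV k M (fun i => X (Sum.inl i)) (fun i => X (Sum.inr (Sum.inl i)))
            fun l => (X (Sum.inr (Sum.inr l)) :
              MvPolynomial (Fin (N + 1) ⊕ (Fin q × Fin p) ⊕ Fin n) K)) (Sum.inr x) ^
                d (Sum.inr x) = 0), mul_zero, mul_zero]

/-- The vector `phi` at a generic point. -/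
theorem X_phiV {M : ℕ} {L : Type u} [Field L] [Algebra K L] (P : A.Pts L) (x : Cz N q p M n) :
    phiV T.k M (fun i => (C (C (A.x P i)) : MvPolynomial (Fin n) (MvPolynomial (Fin q) L)))
        (fun i => C (C (aeval (A.x P) (T.η i.1 i.2)) * X i.1)) X x =
      C (C (aeval (A.x P) (wV T M x.1 x.2)) * ∏ i, X i ^ (x.1.1 i : ℕ)) * X x.1.2 := by
  unfold phiV wV phi wB
  by_cases h : Mt x.1.1 x.2.2
  · rw [if_pos (show Mt (toC x).1 (toC x).2.1.2 from h), if_pos h]
    show C (C (A.x P x.2.1)) ^ ex T.k x.1.1 * (∏ i : Fin q × Fin p,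
      C (C (aeval (A.x P) (T.η i.1 i.2)) * X i.1) ^ (x.2.2 i : ℕ)) * X x.1.2 = _
    congr 1
    have h1 : ∏ i : Fin q, (X i : MvPolynomial (Fin q) L) ^ (x.1.1 i : ℕ) =
        ∏ i : Fin q × Fin p, X i.1 ^ (x.2.2 i : ℕ) := by
      rw [Fintype.prod_prod_type]
      refine Finset.prod_congr rfl fun i _ => ?_
      show X i ^ (x.1.1 i : ℕ) = ∏ c, X i ^ (x.2.2 (i, c) : ℕ)
      rw [Finset.prod_pow_eq_pow_sum, h i]
    rw [h1]
    simp only [map_mul, map_pow, map_prod, mul_pow, Finset.prod_mul_distrib, aeval_X]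
    ring
  · rw [if_neg (show ¬ Mt (toC x).1 (toC x).2.1.2 from h), if_neg h, map_zero, C_0, zero_mul, C_0, zero_mul]

theorem X_excV {G : Matrix (Fin g) (Fin n) (Pl K N q p)} {M : ℕ}
    (𝓡 : Rel T G M) {F : MvPolynomial (Fin (N + 1) ⊕ Cz N q p M n) K}
    (hF : ExcZ A 𝓡.G' (wV T M) F) : ExcV T G (pullV T.k F) := by
  classical
  obtain ⟨⟨a, b, hab⟩, h⟩ := hF
  refine ⟨⟨a + b * (M * ∑ i, T.k i), b, ?_⟩, fun L _ _ _ P hP => ?_⟩
  · intro m hm
    have h1 : pullV T.k F = ∑ d ∈ F.support, pullV T.k (monomial d (coeff d F)) := by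
      conv_lhs => rw [F.as_sum]
      unfold pullV
      rw [map_sum]
    rw [h1] at hm
    obtain ⟨d, hd, hmd⟩ := Finset.mem_biUnion.1 (support_sum hm)
    obtain ⟨hd1, hd2⟩ := hab d hd
    by_cases hM : ∀ x : Cz N q p M n, d (Sum.inr x) ≠ 0 → Mt x.1.1 x.2.2
    · rw [X_pull_monV T.k d _ hM] at hmd
      have h3 := support_monomial_subset hmd
      rw [Finset.mem_singleton] at h3
      rw [h3]
      constructor
      · have h5 : ∀ i : Fin (N + 1), (∑ i, Finsupp.single (Sum.inl i) (d (Sum.inl i)) +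
            ∑ x : Cz N q p M n, (Finsupp.single (Sum.inl x.2.1) (d (Sum.inr x) * ex T.k x.1.1) +
            (∑ i, Finsupp.single (Sum.inr (Sum.inl i)) (d (Sum.inr x) * (x.2.2 i : ℕ)) +
              Finsupp.single (Sum.inr (Sum.inr x.1.2)) (d (Sum.inr x)))) :
                Fin (N + 1) ⊕ (Fin q × Fin p) ⊕ Fin n →₀ ℕ) (Sum.inl i) =
            d (Sum.inl i) + ∑ x : Cz N q p M n, if x.2.1 = i then
              d (Sum.inr x) * ex T.k x.1.1 else 0 := by
          intro i
          simp only [Finsupp.add_apply, Finsupp.finsetSum_apply, Finsupp.single_apply]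
          simp
        have h6 : ∀ i : Fin q × Fin p, (∑ i, Finsupp.single (Sum.inl i) (d (Sum.inl i)) +
            ∑ x : Cz N q p M n, (Finsupp.single (Sum.inl x.2.1) (d (Sum.inr x) * ex T.k x.1.1) +
            (∑ i, Finsupp.single (Sum.inr (Sum.inl i)) (d (Sum.inr x) * (x.2.2 i : ℕ)) +
              Finsupp.single (Sum.inr (Sum.inr x.1.2)) (d (Sum.inr x)))) :
                Fin (N + 1) ⊕ (Fin q × Fin p) ⊕ Fin n →₀ ℕ) (Sum.inr (Sum.inl i)) =
            ∑ x : Cz N q p M n, d (Sum.inr x) * (x.2.2 i : ℕ) := by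
          intro i
          simp only [Finsupp.add_apply, Finsupp.finsetSum_apply, Finsupp.single_apply]
          simp
        simp only [h5, h6]
        rw [Finset.sum_add_distrib, hd1, Finset.sum_comm, add_assoc]
        congr 1
        have h7 : ∀ x : Cz N q p M n, (∑ i, if x.2.1 = i then
            d (Sum.inr x) * ex T.k x.1.1 else 0) = d (Sum.inr x) * ex T.k x.1.1 := by
          intro x
          rw [Finset.sum_ite_eq, if_pos (Finset.mem_univ _)]
        rw [Finset.sum_congr rfl fun x _ => h7 x]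
        have h8 : ∑ i : Fin q × Fin p, T.k i.1 *
            ∑ x : Cz N q p M n, d (Sum.inr x) * (x.2.2 i : ℕ) =
            ∑ x : Cz N q p M n, d (Sum.inr x) * ∑ i, T.k i.1 * (x.2.2 i : ℕ) := by
          simp only [Finset.mul_sum]
          rw [Finset.sum_comm]
          refine Finset.sum_congr rfl fun x _ => Finset.sum_congr rfl fun i _ => ?_
          ring
        rw [h8, ← Finset.sum_add_distrib, ← hd2, Finset.sum_mul]
        refine Finset.sum_congr rfl fun x _ => ?_
        rw [← mul_add]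
        by_cases h9 : d (Sum.inr x) = 0
        · rw [h9, zero_mul, zero_mul]
        · rw [X1_wt T.k x.1.1 x.2.2 (hM x h9)]
      · rw [← hd2]
        simp only [Finsupp.add_apply, Finsupp.finsetSum_apply, Finsupp.single_apply]
        simp only [Sum.inr.injEq, reduceCtorEq, if_false, Finset.sum_const_zero, zero_add]
        rw [Finset.sum_comm]
        refine Finset.sum_congr rfl fun k _ => ?_
        simp
    · push Not at hM
      obtain ⟨x, hx, hxM⟩ := hM
      rw [X_pull_monV_zero T.k d _ x hx hxM] at hmd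
      exact absurd hmd (by simp)
  · obtain ⟨c, m, y, hc, hy, hFP⟩ := h L P hP
    refine ⟨C c, m, fun k => pv fun x => ∑ κ, y k (x, κ) * aeval (A.x P) (wV T M x κ),
      fun h0 => hc (C_injective _ _ (h0.trans C_0.symm)), fun k => ?_, ?_⟩
    · obtain ⟨Z, hZ, hne⟩ := hy k
      have hnot : ¬ InRow (fun i l => T.sp P (G i l))
          (pv fun x => ∑ κ, y k (x, κ) * aeval (A.x P) (wV T M x κ)) := by
        intro hin
        have h1 := 𝓡.sp L P hP _ hin
        refine hne ?_
        have h2 : ∀ z ∈ Submodule.span L (Set.range fun i x => aeval (A.x P) (𝓡.G' i x)),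
            ∑ x, z x * Z x = 0 := by
          intro z hz
          induction hz using Submodule.span_induction with
          | mem z hz =>
            obtain ⟨i, rfl⟩ := hz
            exact hZ i
          | zero => simp
          | add z z' _ _ hz hz' =>
            simp only [Pi.add_apply, add_mul, Finset.sum_add_distrib]
            rw [hz, hz', add_zero]
          | smul a z _ hz =>
            simp only [Pi.smul_apply, smul_eq_mul, mul_assoc]
            rw [← Finset.mul_sum, hz, mul_zero]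
        rw [← h2 _ h1, Fintype.sum_prod_type]
        refine Finset.sum_congr rfl fun x _ => ?_
        rw [Finset.sum_mul]
        refine Finset.sum_congr rfl fun κ _ => ?_
        ring
      exact X1_not (fun i l => T.sp P (G i l)) _ hnot
    · have h1 : aeval (Sum.elim (fun i => (C (C (A.x P i)) :
            MvPolynomial (Fin n) (MvPolynomial (Fin q) L)))
            (Sum.elim (fun i => C (C (aeval (A.x P) (T.η i.1 i.2)) * X i.1)) X))
          (pullV T.k F) = aeval (phiV T.k M (fun i => (C (C (A.x P i)) :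
              MvPolynomial (Fin n) (MvPolynomial (Fin q) L)))
            (fun i => (C (C (aeval (A.x P) (T.η i.1 i.2)) * X i.1))) X)
          (aeval (Sum.elim (fun i => (C (A.x P i) : MvPolynomial (Cz N q p M n) L)) X) F) := by
        rw [X_evalV']
        have h3 := comp_aeval (R := K) (B := MvPolynomial (Fin n) (MvPolynomial (Fin q) L))
          (Sum.elim (fun i => (C (A.x P i) : MvPolynomial (Cz N q p M n) L)) X)
          ((aeval (R := L) (phiV T.k M (fun i => (C (C (A.x P i)) :
              MvPolynomial (Fin n) (MvPolynomial (Fin q) L)))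
            (fun i => (C (C (aeval (A.x P) (T.η i.1 i.2)) * X i.1))) X)).restrictScalars K)
        have h4 := congrArg (fun φ => φ F) h3
        simp only [AlgHom.comp_apply, AlgHom.restrictScalars_apply] at h4
        rw [h4]
        congr 2
        funext i
        rcases i with i | i
        · simp [algebraMap_eq]
        · simp
      rw [h1, hFP]
      simp only [map_mul, map_prod, map_sum, aeval_X, aeval_C]
      congr 1
      refine Finset.prod_congr rfl fun k _ => ?_
      have h2 : ∀ x : Cz N q p M n, (algebraMap L (MvPolynomial (Fin n) (MvPolynomial (Fin q) L))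
          (y k x)) * phiV T.k M (fun i => (C (C (A.x P i)) :
              MvPolynomial (Fin n) (MvPolynomial (Fin q) L)))
            (fun i => C (C (aeval (A.x P) (T.η i.1 i.2))) * C (X i.1)) X x =
          C (C (y k x * aeval (A.x P) (wV T M x.1 x.2)) * ∏ i, X i ^ (x.1.1 i : ℕ)) *
            X x.1.2 := by
        intro x
        have h3 := X_phiV T (M := M) (n := n) P x
        simp only [C_mul] at h3 ⊢
        rw [h3]
        show C (C (y k x)) * _ = _
        ring
      rw [Finset.sum_congr rfl fun x _ => h2 x, Fintype.sum_prod_type, Fintype.sum_prod_type,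
        Finset.sum_comm]
      refine Finset.sum_congr rfl fun l _ => ?_
      unfold pv
      rw [map_sum, Finset.sum_mul]
      refine Finset.sum_congr rfl fun b _ => ?_
      have h5 : (monomial (toF b)) (∑ κ, y k ((b, l), κ) * aeval (A.x P) (wV T M (b, l) κ)) =
          C (∑ κ, y k ((b, l), κ) * aeval (A.x P) (wV T M (b, l) κ)) *
            ∏ i, (X i : MvPolynomial (Fin q) L) ^ (b i : ℕ) := by
        rw [SG.X_mon, C_mul_monomial, mul_one]
      rw [h5, map_sum, Finset.sum_mul, map_sum, Finset.sum_mul]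

/-- Exceptional forms without `X` for the trivial bundle of rank one are exceptional for all `G`. -/
theorem X_vertV {G : Matrix (Fin g) (Fin n) (Pl K N q p)}
    (G' : Matrix (Fin 0) (Fin 1) (MvPolynomial (Fin (N + 1)) K))
    {F : MvPolynomial (Fin (N + 1) ⊕ (Fin q × Fin p) ⊕ Fin 1) K} (hF : T.Exc G' F) :
    ExcV T G (aeval (Sum.elim (fun i => X (Sum.inl i))
      (Sum.elim (fun i => X (Sum.inr (Sum.inl i))) fun _ => 1)) F :
        MvPolynomial (Fin (N + 1) ⊕ (Fin q × Fin p) ⊕ Fin n) K) := by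
  classical
  obtain ⟨⟨a, b, hab⟩, h⟩ := hF
  refine ⟨⟨a, 0, ?_⟩, fun L _ _ _ P hP => ?_⟩
  · intro m hm
    rw [F.as_sum, map_sum] at hm
    obtain ⟨d, hd, hmd⟩ := Finset.mem_biUnion.1 (support_sum hm)
    obtain ⟨hd1, hd2⟩ := hab d hd
    have h3 : ∀ (e e' : Fin (N + 1) ⊕ (Fin q × Fin p) ⊕ Fin n →₀ ℕ) (c : K),
        monomial (e + e') c = C c * (monomial e 1 * monomial e' 1) := by
      intro e e' c
      rw [monomial_mul, C_mul_monomial, mul_one, mul_one]
    have h2 : (aeval (Sum.elim (fun i => X (Sum.inl i))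
        (Sum.elim (fun i => X (Sum.inr (Sum.inl i))) fun _ => 1)) (monomial d (coeff d F)) :
          MvPolynomial (Fin (N + 1) ⊕ (Fin q × Fin p) ⊕ Fin n) K) =
        monomial (∑ i, Finsupp.single (Sum.inl i) (d (Sum.inl i)) +
          ∑ i, Finsupp.single (Sum.inr (Sum.inl i)) (d (Sum.inr (Sum.inl i)))) (coeff d F) := by
      rw [h3, monomial_sum_one, monomial_sum_one, aeval_monomial,
        Finsupp.prod_fintype _ _ (fun i => pow_zero _), Fintype.prod_sum_type,
        Fintype.prod_sum_type, algebraMap_eq]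
      simp only [Sum.elim_inl, Sum.elim_inr, X_pow_eq_monomial, one_pow, Finset.prod_const_one,
        mul_one]
    rw [h2] at hmd
    have h4 := support_monomial_subset hmd
    rw [Finset.mem_singleton] at h4
    rw [h4]
    constructor
    · rw [← hd1]
      congr 1
      · refine Finset.sum_congr rfl fun i _ => ?_
        simp only [Finsupp.add_apply, Finsupp.finsetSum_apply, Finsupp.single_apply]
        simp
      · refine Finset.sum_congr rfl fun i _ => ?_
        simp only [Finsupp.add_apply, Finsupp.finsetSum_apply, Finsupp.single_apply]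
        simp
    · simp only [Finsupp.add_apply, Finsupp.finsetSum_apply, Finsupp.single_apply]
      simp
  · obtain ⟨c, m, y, hc, hy, hF⟩ := h L P hP
    refine ⟨c * ∏ k, y k 0, 0, fun _ _ => 0, mul_ne_zero hc (Finset.prod_ne_zero_iff.2
      fun k _ => ?_), fun k => k.elim0, ?_⟩
    · obtain ⟨z, -, hne⟩ := hy k
      intro h0
      refine hne ?_
      rw [Fin.sum_univ_one, h0, zero_mul]
    · have h1 : aeval (Sum.elim (fun i => (C (C (A.x P i)) :
            MvPolynomial (Fin n) (MvPolynomial (Fin q) L)))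
            (Sum.elim (fun i => C (C (aeval (A.x P) (T.η i.1 i.2)) * X i.1)) X))
          (aeval (Sum.elim (fun i => X (Sum.inl i))
            (Sum.elim (fun i => X (Sum.inr (Sum.inl i))) fun _ => 1)) F :
              MvPolynomial (Fin (N + 1) ⊕ (Fin q × Fin p) ⊕ Fin n) K) =
          aeval (R := MvPolynomial (Fin q) L) (fun _ : Fin 1 =>
            (1 : MvPolynomial (Fin n) (MvPolynomial (Fin q) L)))
          (aeval (Sum.elim (fun i => (C (C (A.x P i)) :
            MvPolynomial (Fin 1) (MvPolynomial (Fin q) L)))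
            (Sum.elim (fun i : Fin q × Fin p =>
              C (C (aeval (A.x P) (T.η i.1 i.2)) * X i.1)) X)) F) := by
        rw [← AlgHom.comp_apply, comp_aeval]
        have h3 := comp_aeval (R := K) (B := MvPolynomial (Fin n) (MvPolynomial (Fin q) L))
          (Sum.elim (fun i => (C (C (A.x P i)) :
            MvPolynomial (Fin 1) (MvPolynomial (Fin q) L)))
            (Sum.elim (fun i : Fin q × Fin p =>
              C (C (aeval (A.x P) (T.η i.1 i.2)) * X i.1)) X))
          ((aeval (R := MvPolynomial (Fin q) L) (fun _ : Fin 1 =>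
            (1 : MvPolynomial (Fin n) (MvPolynomial (Fin q) L)))).restrictScalars K)
        have h4 := congrArg (fun φ => φ F) h3
        simp only [AlgHom.comp_apply, AlgHom.restrictScalars_apply] at h4
        rw [h4]
        congr 2
        funext i
        rcases i with i | i | i
        · simp [algebraMap_eq]
        · simp [algebraMap_eq]
        · simp
      rw [h1, hF]
      simp [map_mul, map_prod, algebraMap_eq]

/-- The value of the polynomial `F` of a function on the bundle. -/
private theorem X1_val {R : Type*} [CommRing R] [Algebra K R] (f : Pl K N q p)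
    (x : Fin (N + 1) → R) (y : Fin q × Fin p → R) (Z : Fin n → R) :
    aeval (Sum.elim x (Sum.elim y Z))
      (∑ m ∈ f.support, rename Sum.inl (coeff m f) *
        ∏ i, (X (Sum.inr (Sum.inl i)) :
          MvPolynomial (Fin (N + 1) ⊕ (Fin q × Fin p) ⊕ Fin n) K) ^ (m i : ℕ)) =
      eval₂ (aeval x : MvPolynomial (Fin (N + 1)) K →ₐ[K] R).toRingHom y f := by
  rw [eval₂_eq', map_sum]
  refine Finset.sum_congr rfl fun m _ => ?_
  rw [map_mul, aeval_rename, Sum.elim_comp_inl, map_prod]
  congr 1
  refine Finset.prod_congr rfl fun i _ => ?_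
  rw [map_pow, aeval_X, Sum.elim_inr, Sum.elim_inl]

/-- A nonzero function on the bundle is exceptional. -/
theorem X_fun {G : Matrix (Fin g) (Fin n) (Pl K N q p)} {D : ℕ} {f : Pl K N q p}
    (hf : T.WH D f)
    (h0 : ∀ (L : Type u) [Field L] [Algebra K L] (P : A.Pts L), Gen A P → T.sp P f ≠ 0) :
    ∃ F : MvPolynomial (Fin (N + 1) ⊕ (Fin q × Fin p) ⊕ Fin n) K, ExcV T G F ∧
      ∀ (P : A.Pts K) (y : Fin q × Fin p → K) (Z : Fin n → K),
        aeval (Sum.elim (A.x P) (Sum.elim y Z)) F = ev P y f := by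
  classical
  refine ⟨∑ m ∈ f.support, rename Sum.inl (coeff m f) *
    ∏ i, (X (Sum.inr (Sum.inl i)) :
      MvPolynomial (Fin (N + 1) ⊕ (Fin q × Fin p) ⊕ Fin n) K) ^ (m i : ℕ),
    ⟨⟨D, 0, fun m' hm' => ?_⟩, fun L _ _ _ P hP => ⟨T.sp P f, 0, fun _ _ => 0, h0 L P hP,
      fun k => k.elim0, ?_⟩⟩, fun P y Z => ?_⟩
  · obtain ⟨m, hm, hmm⟩ := Finset.mem_biUnion.1 (support_sum hm')
    obtain ⟨δ, hδ, hD⟩ := hf m (mem_support_iff.1 hm)
    have h1 : (∏ i, (X (Sum.inr (Sum.inl i)) :
        MvPolynomial (Fin (N + 1) ⊕ (Fin q × Fin p) ⊕ Fin n) K) ^ (m i : ℕ)) =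
        monomial (∑ i, Finsupp.single (Sum.inr (Sum.inl i)) (m i)) 1 := by
      rw [monomial_sum_one]
      refine Finset.prod_congr rfl fun i _ => ?_
      rw [X_pow_eq_monomial]
    rw [h1] at hmm
    obtain ⟨m₁, hm₁, m₂, hm₂, rfl⟩ := Finset.mem_add.1 (support_mul _ _ hmm)
    have h2 := support_monomial_subset hm₂
    rw [Finset.mem_singleton] at h2
    rw [support_rename_of_injective Sum.inl_injective, Finset.mem_image] at hm₁
    obtain ⟨m₀, hm₀, rfl⟩ := hm₁
    have h3 := hδ (mem_support_iff.1 hm₀)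
    have h4 : ∑ i, m₀ i = δ := by
      rw [← h3, Finsupp.weight_apply, Finsupp.sum_fintype _ _ (fun i => by simp)]
      simp
    have h5 : ∀ i : Fin (N + 1), (Finsupp.mapDomain Sum.inl m₀ :
        Fin (N + 1) ⊕ (Fin q × Fin p) ⊕ Fin n →₀ ℕ) (Sum.inl i) = m₀ i := fun i =>
      Finsupp.mapDomain_apply Sum.inl_injective m₀ i
    have h6 : ∀ x : (Fin q × Fin p) ⊕ Fin n, (Finsupp.mapDomain Sum.inl m₀ :
        Fin (N + 1) ⊕ (Fin q × Fin p) ⊕ Fin n →₀ ℕ) (Sum.inr x) = 0 := fun x =>
      Finsupp.mapDomain_of_notMem_range _ _ (by simp)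
    constructor
    · simp only [Finsupp.add_apply, h2, Finsupp.finsetSum_apply, Finsupp.single_apply, h5, h6]
      rw [← hD, ← h4]
      simp
    · simp only [Finsupp.add_apply, h2, Finsupp.finsetSum_apply, Finsupp.single_apply, h6]
      simp
  · rw [X1_val]
    simp only [Finset.univ_eq_empty, Finset.prod_empty, mul_one]
    unfold Tor.sp
    rw [hom_eval₂]
    congr 1
    refine RingHom.ext fun z => ?_
    show aeval (fun i => C (C (A.x P i))) z = C (C (aeval (A.x P) z))
    have h7 := aeval_algebraMap_apply (A := L)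
      (MvPolynomial (Fin n) (MvPolynomial (Fin q) L)) (A.x P) z
    exact h7
  · rw [X1_val]
    unfold TB.ev
    rw [eval_map]

end

end Pool.Agent.Lib.MP_17a322_nt.VB
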