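import Pool.Agent.Lib.MP_17a322_nt.TB.M1
import Pool.Agent.Lib.MP_17a322_nt.TB.W4
import Pool.Agent.Lib.MP_17a322_nt.VB.H1
import Pool.Agent.Lib.MP_17a322_nt.VB.H2
import Pool.Agent.Lib.MP_17a322_nt.VB.J4
import Pool.Agent.Lib.MP_17a322_nt.VB.K2
import Pool.Agent.Lib.MP_17a322_nt.VB.K3
import Pool.Agent.Lib.MP_17a322_nt.VB.T3
import Pool.Agent.Lib.MP_17a322_nt.VB.V1
import Pool.Agent.Lib.MP_17a322_nt.VB.X1

/-!
Vector bundles on principal torus bundles over `A`: the inequality for independent leading parts.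
-/

universe u

namespace Pool.Agent.Lib.MP_17a322_nt.VB

open MvPolynomial Height
open Pool.Agent.Lib.MP_17a322_nt.VJ
open Pool.Agent.Lib.MP_17a322_nt.VA
open Pool.Agent.Lib.MP_17a322_nt.SL
open Pool.Agent.Lib.MP_17a322_nt.SG (Bx toF shf Ix)
open Pool.Agent.Lib.MP_17a322_nt.TB (Tor Kp Cx ex ev maxWt wB LamT phi)

/-- The inequality for the box. -/
theorem M_arith1 {n b γ M c Li Lf Ai Af Ti Tf wi wf U V Kx Bi Bf hu hw Ht hZ ns E C₁ : ℝ}
    (hγM : 0 ≤ γ * (M / 2))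
    (hSi : c * Li + ((n * b - γ) * (M / 2) * Ai - γ * (M / 2) * Ti + wi) ≤ Bi)
    (hSf : c * Lf + ((n * b - γ) * (M / 2) * Af - γ * (M / 2) * Tf + wf) ≤ Bf)
    (h2 : Bi + Bf + hw ≤ (n * b - γ) * (hZ + M * Ht) + E + C₁)
    (hT : 2 * Ht = Ai + Af + ns + U) (hT' : Ti + Tf ≤ V + ns)
    (hH : n * (b * (M / 2) * U) + hu ≤ hw + (wi + wf) + γ * M * (Kx + ns))
    (hUV : U - V = 2 * Kx) :
    c * (Li + Lf) + hu ≤ (n * b - γ) * hZ + (n * b * (M / 2) + γ * M) * ns + E + C₁ := by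
  have e2 : γ * (M / 2) * (Ti + Tf) ≤ γ * (M / 2) * (V + ns) :=
    mul_le_mul_of_nonneg_left hT' hγM
  obtain rfl : V = U - 2 * Kx := by linarith
  obtain rfl : Af = 2 * Ht - Ai - ns - U := by linarith
  linarith

/-- The last step. -/
theorem M_arith2 {n g r b c γ δ ε CV κ C₁ C₂ L hE hZ hx Ht ns hu E : ℝ} (hnb : n = g + r)
    (hg : 0 ≤ g) (hr : 0 ≤ r) (hδ : 0 ≤ δ) (hε : 0 ≤ ε) (hCV : 0 ≤ CV)
    (hδe : δ * (r + g * (1 + CV)) = ε / 4) (hc1 : 1 ≤ c) (hcb : c ≤ b)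
    (hbc : b ≤ (1 + δ) * c) (hγ2 : g * c ≤ γ) (hE0 : 0 ≤ hE) (hZ0 : 0 ≤ hZ)
    (hx0 : 0 ≤ hx) (hH0 : 0 ≤ Ht) (hns : 0 ≤ ns) (hEu : hE ≤ CV * (1 + hx + Ht)) (hκ : 0 ≤ κ)
    (hjet : (b - (g * b - γ)) * hE ≤ hu + C₂)
    (h3 : c * L + hu ≤ (n * b - γ) * hZ + κ * ns + E + C₁)
    (h5 : E ≤ ε / 2 * (hZ + hx + Ht)) :
    L + hE ≤ r * hZ + ε * (hZ + hx + Ht) + (κ + ε + |C₁| + |C₂|) * (1 + ns) := by
  have hc0 : 0 ≤ c := by linarith
  have hδ1 : g * b - γ ≤ g * (δ * c) := by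
    have h6 : g * b ≤ g * ((1 + δ) * c) := mul_le_mul_of_nonneg_left hbc hg
    linarith
  have e1 : (n * b - γ) * hZ ≤ c * ((r + ε / 4) * hZ) := by
    have h7 : n * b - γ ≤ c * (r + ε / 4) := by
      have h8 : r * b ≤ r * ((1 + δ) * c) := mul_le_mul_of_nonneg_left hbc hr
      have h9 : 0 ≤ c * (δ * (g * CV)) := by positivity
      have h10 : c * (δ * (r + g * (1 + CV))) = c * (ε / 4) := by rw [hδe]
      rw [hnb]
      linarith
    calc (n * b - γ) * hZ ≤ (c * (r + ε / 4)) * hZ := mul_le_mul_of_nonneg_right h7 hZ0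
      _ = _ := by ring
  have e2 : c * hE ≤ (b - (g * b - γ)) * hE + c * (ε / 4 * (1 + hx + Ht)) := by
    have h7 : (c - b + (g * b - γ)) * hE ≤ (g * b - γ) * hE :=
      mul_le_mul_of_nonneg_right (by linarith) hE0
    have h8 : (g * b - γ) * hE ≤ (g * (δ * c)) * (CV * (1 + hx + Ht)) :=
      mul_le_mul hδ1 hEu hE0 (by positivity)
    have h9 : 0 ≤ c * (δ * (r + g)) * (1 + hx + Ht) := by positivity
    have h10 : c * (δ * (r + g * (1 + CV))) * (1 + hx + Ht) =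
        c * (ε / 4) * (1 + hx + Ht) := by rw [hδe]
    linarith
  have e3 : κ * ns ≤ c * (κ * ns) := le_mul_of_one_le_left (mul_nonneg hκ hns) hc1
  have e4 : ε / 2 * (hZ + hx + Ht) ≤ c * (ε / 2 * (hZ + hx + Ht)) :=
    le_mul_of_one_le_left (by positivity) hc1
  have e5 : C₁ ≤ c * |C₁| := (le_abs_self C₁).trans
    (le_mul_of_one_le_left (abs_nonneg _) hc1)
  have e6 : C₂ ≤ c * |C₂| := (le_abs_self C₂).trans
    (le_mul_of_one_le_left (abs_nonneg _) hc1)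
  have e7 : 0 ≤ c * κ := mul_nonneg hc0 hκ
  have e8 : 0 ≤ c * ((|C₁| + |C₂| + ε) * ns) := mul_nonneg hc0 (mul_nonneg (by positivity) hns)
  have e9 : 0 ≤ c * (ε / 4 * (hZ + hx + Ht)) := mul_nonneg hc0 (by positivity)
  have e10 : 0 ≤ c * ε := mul_nonneg hc0 hε
  have h6 : c * (L + hE) ≤ c * (r * hZ + ε * (hZ + hx + Ht) +
      (κ + ε + |C₁| + |C₂|) * (1 + ns)) := by
    linarith
  exact le_of_mul_le_mul_left h6 (by linarith)

section

variable {K : Type u} [Field K] {N q p : ℕ} {A : AV K N} (T : Tor A q p) {g n r s : ℕ}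

/-- Transport of independence along an injective map of the indices. -/
theorem M_indV {γ ι : Type} {σ σ' : Type} {G : Matrix γ ι (MvPolynomial (Fin (N + 1)) K)}
    (e : σ' ↪ σ) (Λ' : σ → ι → MvPolynomial (Fin (N + 1)) K) {B : Finset σ'}
    (h : IndZ A G (fun j => Λ' (e j)) B) : IndZ A G Λ' (B.map e) := by
  classical
  intro L _ _ P hP
  have hy : ∀ j : (B.map e : Finset σ), ∃ i : B, e i.1 = j.1 := by
    rintro ⟨j, hj⟩
    obtain ⟨i, hi, hij⟩ := Finset.mem_map.1 hj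
    exact ⟨⟨i, hi⟩, hij⟩
  choose f hf using hy
  have hfi : Function.Injective f := by
    intro j j' hjj
    refine Subtype.ext ?_
    rw [← hf j, ← hf j', hjj]
  have h1 := (h L P hP).comp (Sum.map id f) (Function.injective_id.sumMap hfi)
  refine SG.li_congr h1 ?_
  rintro (x | j)
  · rfl
  · funext x
    simp only [Function.comp_apply, Sum.map_inr, Sum.elim_inr, hf j]

/-- A bound for the exponents. -/
theorem M_degV {R : Type*} [CommRing R]
    (G : Matrix (Fin g) (Fin n) (MvPolynomial (Fin q × Fin p) R))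
    (Λ : Matrix (Fin s) (Fin n) (MvPolynomial (Fin q × Fin p) R)) :
    ∃ d : ℕ, (∀ j l, ∀ m ∈ (G j l).support, ∀ i, ∑ c, m (i, c) ≤ d) ∧
      ∀ j l, ∀ m ∈ (Λ j l).support, ∀ i, ∑ c, m (i, c) ≤ d := by
  obtain ⟨d, hd⟩ := TB.M_deg G
  obtain ⟨d', hd'⟩ := TB.M_deg Λ
  exact ⟨max d d', fun j l m hm i => (hd j l m hm i).trans (le_max_left _ _),
    fun j l m hm i => (hd' j l m hm i).trans (le_max_right _ _)⟩

/-- The product formula. -/
theorem M_tau [NumberField K] (S : Finset (NumberField.FinitePlace K)) {P : A.Pts K}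
    {y : Fin q × Fin p → K} (hy : T.On P y) :
    (∑ w : NumberField.InfinitePlace K, (w.mult : ℝ) * ∑ i, T.tau w.val P y i) +
        (∑ v ∈ S, ∑ i, T.tau v.val P y i) ≤
      ∑ i, (logHeight (fun c => y (i, c)) - T.k i * logHeight (A.x P)) + T.NS S P y := by
  have h1 : ∀ i, (∑ w : NumberField.InfinitePlace K, (w.mult : ℝ) * T.tau w.val P y i) +
      (∑ v ∈ S, T.tau v.val P y i) ≤
      (logHeight (fun c => y (i, c)) - T.k i * logHeight (A.x P)) +
        ∑ᶠ v : {v : NumberField.FinitePlace K // v ∉ S}, |T.tau v.1.val P y i| := by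
    intro i
    have hyi : (fun c => y (i, c)) ≠ 0 := Function.ne_iff.mpr (hy i).1
    have h7 : FS fun v : AbsoluteValue K ℝ => Real.log (⨆ j, v (A.x P j)) :=
      FS_log_iSup (A.x_ne P)
    have h8 : FS fun v : AbsoluteValue K ℝ => Real.log (⨆ c, v (y (i, c))) := FS_log_iSup hyi
    have h9 : FS fun v : AbsoluteValue K ℝ => T.tau v P y i := FS_sub h8 (FS_const_mul _ h7)
    have h0 : FS fun v : AbsoluteValue K ℝ => |T.tau v P y i| := by
      refine h9.subset fun v hv => ?_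
      intro h
      exact hv (by simp only [h, abs_zero])
    have h2 : gs (fun v : AbsoluteValue K ℝ => T.tau v P y i) =
        logHeight (fun c => y (i, c)) - T.k i * logHeight (A.x P) := by
      unfold Tor.tau
      rw [gs_sub h8 (FS_const_mul _ h7), gs_const_mul, gs_log_iSup (A.x_ne P), gs_log_iSup hyi]
    have h3 := SG.H_gs S h9
    rw [h2] at h3
    have h5 : (Function.support fun v : {v : NumberField.FinitePlace K // v ∉ S} =>
        |T.tau v.1.val P y i|).Finite :=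
      (show (Function.support fun v : NumberField.FinitePlace K =>
        |T.tau v.val P y i|).Finite from h0).preimage (Subtype.val_injective.injOn (s := _))
    have h6 : (Function.support fun v : {v : NumberField.FinitePlace K // v ∉ S} =>
        T.tau v.1.val P y i).Finite :=
      (show (Function.support fun v : NumberField.FinitePlace K =>
        T.tau v.val P y i).Finite from h9).preimage (Subtype.val_injective.injOn (s := _))
    have h4 : 0 ≤ ∑ᶠ v : {v : NumberField.FinitePlace K // v ∉ S}, (|T.tau v.1.val P y i| +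
        T.tau v.1.val P y i) :=
      finsum_nonneg fun v => by linarith [neg_abs_le (T.tau v.1.val P y i)]
    rw [finsum_add_distrib h5 h6] at h4
    linarith
  have h2 := Finset.sum_le_sum fun i (_ : i ∈ (Finset.univ : Finset (Fin q))) => h1 i
  rw [Finset.sum_add_distrib, Finset.sum_add_distrib, Finset.sum_comm,
    Finset.sum_comm (t := S)] at h2
  have h3 : ∑ w : NumberField.InfinitePlace K, (w.mult : ℝ) * ∑ i, T.tau w.val P y i =
      ∑ w : NumberField.InfinitePlace K, ∑ i, (w.mult : ℝ) * T.tau w.val P y i :=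
    Finset.sum_congr rfl fun w _ => Finset.mul_sum _ _ _
  rw [h3]
  exact h2

/-- The largest weight of the columns of a minor that is not zero. -/
theorem M_wt {γ : Type} [Fintype γ] [DecidableEq γ] {L : Type*} [Field L] {M : ℕ}
    {Z : γ → Bx q M × Fin n → L} (hZ : LinearIndependent L Z) (τ : Fin q → ℝ) :
    ∃ w : ℝ, (∀ e : γ → Bx q M × Fin n, mnr Z e ≠ 0 → ∑ c, SG.wt τ (toF (e c).1) ≤ w) ∧
      ∃ e : γ → Bx q M × Fin n, mnr Z e ≠ 0 ∧ w = ∑ c, SG.wt τ (toF (e c).1) := by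
  classical
  obtain ⟨e₀, he₀⟩ := TB.W4_minor Z hZ
  obtain ⟨e, he, hmax⟩ := Finset.exists_max_image
    (Finset.univ.filter fun e : γ → Bx q M × Fin n => mnr Z e ≠ 0)
    (fun e => ∑ c, SG.wt τ (toF (e c).1)) ⟨e₀, Finset.mem_filter.2 ⟨Finset.mem_univ _, he₀⟩⟩
  exact ⟨_, fun e' he' => hmax e' (Finset.mem_filter.2 ⟨Finset.mem_univ _, he'⟩), e,
    (Finset.mem_filter.1 he).2, rfl⟩

/-- The values of the polynomials with the coefficients `z`. -/
theorem M_eval {L : Type*} [Field L] {M : ℕ} (z : Bx q M × Fin n → L) (t : Fin q → L)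
    (l : Fin n) : eval t (pv z l) = ∑ b : Bx q M, z (b, l) * ∏ i, t i ^ (b i : ℕ) := by
  unfold pv
  rw [map_sum]
  refine Finset.sum_congr rfl fun b _ => ?_
  rw [eval_monomial, Finsupp.prod_fintype _ _ fun i => pow_zero _]
  simp only [SG.toF_apply]

theorem M_phi_ne (M : ℕ) {P : A.Pts K} {y : Fin q × Fin p → K} (hy : T.On P y) {Z : Fin n → K}
    (hZ : Z ≠ 0) : phiV T.k M (A.x P) y Z ≠ 0 := by
  obtain ⟨x, hx⟩ := Function.ne_iff.1 (TB.H_phi_ne T M hy hZ)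
  exact Function.ne_iff.2 ⟨((x.1, x.2.2), x.2.1), hx⟩

omit [Field K] in
theorem M_toC {R : Type*} [AddCommMonoid R] {M : ℕ} (f : Cx N q p M n → R) :
    ∑ x : Cz N q p M n, f (toC x) = ∑ x, f x := by
  refine Fintype.sum_equiv ⟨toC, fun x => ((x.1, x.2.2), x.2.1), fun x => rfl, fun x => rfl⟩ _ _
    fun x => rfl

theorem M_sumV {M d : ℕ} (a : Fin (N + 1)) (ch : Fin q → Fin p) (D : ℕ)
    (Λ : Matrix (Fin s) (Fin n) (Pl K N q p)) (P : A.Pts K) (y : Fin q × Fin p → K)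
    (Z : Fin n → K) (j : Ix q M d n s) :
    ∑ x, aeval (A.x P) (LamV (M := M) (d := d) T.k a ch D Λ j x) *
        phiV T.k M (A.x P) y Z x =
      ∑ x, aeval (A.x P) (LamT (M := M) (d := d) T.k a ch D Λ j x) * phi T.k M (A.x P) y Z x :=
  M_toC fun x => aeval (A.x P) (LamT (M := M) (d := d) T.k a ch D Λ j x) *
    phi T.k M (A.x P) y Z x

theorem M_phi_h [NumberField K] (M : ℕ) {P : A.Pts K} {y : Fin q × Fin p → K} (hy : T.On P y)
    {Z : Fin n → K} (hZ : Z ≠ 0) :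
    logHeight (phiV T.k M (A.x P) y Z) = logHeight Z + M * ∑ i, T.ht P y i := by
  rw [← TB.H_phi T M hy hZ]
  obtain ⟨e, he⟩ : ∃ e : Cz N q p M n ≃ Cx N q p M n, ∀ x, e x = toC x :=
    ⟨{ toFun := toC
       invFun := fun x => ((x.1, x.2.2), x.2.1)
       left_inv := fun x => rfl
       right_inv := fun x => rfl }, fun x => rfl⟩
  have h1 := logHeight_comp_equiv e (phi T.k M (A.x P) y Z)
  rw [← h1]
  congr 1
  funext x
  rw [Function.comp_apply, he]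
  rfl

/-- The kernel of the relations. -/
theorem M_fib {G : Matrix (Fin g) (Fin n) (Pl K N q p)} {M : ℕ} (𝓡 : Rel T G M) {P : A.Pts K}
    {y : Fin q × Fin p → K} {t : Fin q → K}
    (ht : ∀ i c, y (i, c) = t i * aeval (A.x P) (T.η i c)) {Z : Fin n → K}
    (hli : LinearIndependent K fun i l => ev P y (G i l))
    (hZ : ∀ i, ∑ l, ev P y (G i l) * Z l = 0) (i : 𝓡.γ) :
    ∑ x, aeval (A.x P) (𝓡.G' i x) * ((∏ i, t i ^ (x.1 i : ℕ)) * Z x.2) = 0 := by
  classical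
  have hev : ∀ b, eval t (T.sp P b) = ev P y b := by
    intro b
    rw [TB.ev_sp]
    congr 1
    funext x
    exact (ht x.1 x.2).symm
  have h1 := inRow_map (eval t) (𝓡.row K P i)
  simp only [hev] at h1
  rw [inRow_iff hli] at h1
  obtain ⟨c, hc⟩ := (Submodule.mem_span_range_iff_exists_fun K).1 h1
  have h2 : ∀ l, ∑ b : Bx q M, aeval (A.x P) (𝓡.G' i (b, l)) * ∏ i, t i ^ (b i : ℕ) =
      ∑ j, c j * ev P y (G j l) := by
    intro l
    rw [← M_eval (fun x => aeval (A.x P) (𝓡.G' i x)) t l]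
    have h3 := (congrFun hc l).symm
    rw [h3, Finset.sum_apply]
    rfl
  rw [Fintype.sum_prod_type, Finset.sum_comm]
  have h3 : ∀ l, ∑ b : Bx q M, aeval (A.x P) (𝓡.G' i (b, l)) *
      ((∏ i, t i ^ (b i : ℕ)) * Z l) = ∑ j, c j * (ev P y (G j l) * Z l) := by
    intro l
    have h4 := congrArg (· * Z l) (h2 l)
    simp only [Finset.sum_mul] at h4
    rw [← Finset.sum_congr rfl fun j _ => mul_assoc (c j) _ _, ← h4]
    exact Finset.sum_congr rfl fun b _ => by ring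
  rw [Finset.sum_congr rfl fun l _ => h3 l, Finset.sum_comm]
  refine Finset.sum_eq_zero fun j _ => ?_
  rw [← Finset.mul_sum, hZ j, mul_zero]

theorem M_coreV [NumberField K] (Γ : AddSubgroup (A.Pts K)) (hΓ : Γ.FG) (hgr : g + r = n)
    (hr : 0 < r) (D : ℕ) (D' : Fin g → ℕ) (G : Matrix (Fin g) (Fin n) (Pl K N q p))
    (hG : ∀ i l, T.WH (D' i) (G i l)) (hRk : Rk T G)
    (Λ : Matrix (Fin s) (Fin n) (Pl K N q p)) (hΛ : ∀ j l, T.WH D (Λ j l))
    (S : Finset (NumberField.FinitePlace K)) (ε : ℝ) (hε : 0 < ε) :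
    ∃ (C : ℝ) (F : MvPolynomial (Fin (N + 1) ⊕ (Fin q × Fin p) ⊕ Fin n) K), ExcV T G F ∧
      ∀ P ∈ Γ, ∀ y : Fin q × Fin p → K, T.On P y → ∀ Z : Fin n → K, Z ≠ 0 →
        (∀ i, ∑ l, ev P y (G i l) * Z l = 0) → aeval (Sum.elim (A.x P) (Sum.elim y Z)) F ≠ 0 →
        LinearIndependent K (fun i l => ev P y (G i l)) ∧
        ∀ (Ji : NumberField.InfinitePlace K → Finset (Fin s))
          (Jf : NumberField.FinitePlace K → Finset (Fin s)),
          (∀ v, IndV T G Λ (T.tau v.val P y) (Ji v)) →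
          (∀ v ∈ S, IndV T G Λ (T.tau v.val P y) (Jf v)) →
          (∀ j, (∃ v, j ∈ Ji v) ∨ (∃ v ∈ S, j ∈ Jf v) → (∑ l, ev P y (Λ j l) * Z l) ≠ 0) ∧
          (∑ v : NumberField.InfinitePlace K, (v.mult : ℝ) *
              ∑ j ∈ Ji v, T.lam v.val D (Λ j) P y Z) +
            (∑ v ∈ S, ∑ j ∈ Jf v, T.lam v.val D (Λ j) P y Z) + hV G P y ≤
            r * logHeight Z + ε * (logHeight Z + logHeight (A.x P) + ∑ i, T.ht P y i) +
              C * (1 + T.NS S P y) := by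
  classical
  obtain ⟨d, hdG, hd⟩ := M_degV G Λ
  have hr' : (0 : ℝ) < r := by exact_mod_cast hr
  have hg' : (0 : ℝ) ≤ g := Nat.cast_nonneg _
  obtain ⟨CV, hCV0, hCV⟩ := hV_le T G hG
  obtain ⟨δ, hδd⟩ : ∃ δ : ℝ, δ = ε / (4 * (r + g * (1 + CV))) := ⟨_, rfl⟩
  have hden : 0 < r + g * (1 + CV) := by positivity
  have hδ : 0 < δ := by
    rw [hδd]
    positivity
  have hδe : δ * (r + g * (1 + CV)) = ε / 4 := by
    rw [hδd]
    field_simp
  obtain ⟨k, hk⟩ := SG.M_box q d (δ := δ) hδ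
  obtain ⟨M, hM⟩ : ∃ M, M = k + d := ⟨_, rfl⟩
  have hdM : d ≤ M := by omega
  have hMd : M - d = k := by omega
  obtain ⟨c, hc⟩ : ∃ c : ℝ, c = ((M - d + 1 : ℕ) : ℝ) ^ q := ⟨_, rfl⟩
  obtain ⟨b, hb⟩ : ∃ b : ℝ, b = ((M : ℝ) + 1) ^ q := ⟨_, rfl⟩
  have hc1 : 1 ≤ c := by
    rw [hc]
    refine one_le_pow₀ ?_
    push_cast
    have : (0 : ℝ) ≤ ((M - d : ℕ) : ℝ) := Nat.cast_nonneg _
    linarith
  have hcb : c ≤ b := by
    rw [hc, hb]
    refine pow_le_pow_left₀ (Nat.cast_nonneg _) ?_ _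
    have : (((M - d + 1 : ℕ)) : ℝ) ≤ ((M + 1 : ℕ) : ℝ) := by
      exact_mod_cast Nat.succ_le_succ (Nat.sub_le _ _)
    push_cast at this ⊢
    exact this
  have hbc : b ≤ (1 + δ) * c := by
    rw [hb, hc, hMd]
    have h2 : ((k + d + 1 : ℕ) : ℝ) = (M : ℝ) + 1 := by
      rw [hM]
      push_cast
      ring
    rw [← h2]
    exact hk
  have hM0 : (0 : ℝ) ≤ M := Nat.cast_nonneg _
  obtain ⟨𝓡⟩ := rel_exists T G hG M
  obtain ⟨γ, hγ⟩ : ∃ γ : ℝ, γ = (Fintype.card 𝓡.γ : ℝ) := ⟨_, rfl⟩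
  have hγ1 := rel_le T hRk 𝓡
  have hγ2 := rel_ge T hRk hdM hdG 𝓡
  have hγ1' : γ ≤ g * b := by
    rw [hγ, hb]
    exact_mod_cast hγ1
  have hγ2' : g * c ≤ γ := by
    rw [hγ, hc]
    exact_mod_cast hγ2
  have hγ0 : 0 ≤ γ := by
    rw [hγ]
    exact Nat.cast_nonneg _
  obtain ⟨e₀, he₀W, he₀G, he₀ev⟩ := rk_minor T hG hRk
  obtain ⟨F₂, hF₂, hF₂v⟩ := X_fun T (G := G) he₀W he₀G
  obtain ⟨C₂, hC₂⟩ := jets (K := K) 𝓡.γ q g n M
  have hcard : Fintype.card (Bx q M × Fin n) = n * (M + 1) ^ q := by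
    rw [Fintype.card_prod, Fintype.card_fun, Fintype.card_fin, Fintype.card_fin,
      Fintype.card_fin, mul_comm]
  obtain ⟨r', hr'c⟩ : ∃ r', Fintype.card 𝓡.γ + r' = n * (M + 1) ^ q := by
    refine ⟨n * (M + 1) ^ q - Fintype.card 𝓡.γ, ?_⟩
    have : g * (M + 1) ^ q ≤ n * (M + 1) ^ q := Nat.mul_le_mul_right _ (by omega)
    omega
  have hr'0 : 0 < r' := by
    have h1 : 0 < r * (M + 1) ^ q := by positivity
    have h2 : n * (M + 1) ^ q = g * (M + 1) ^ q + r * (M + 1) ^ q := by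
      rw [← hgr]
      ring
    omega
  have hr'e : (r' : ℝ) = n * b - γ := by
    have h1 : ((Fintype.card 𝓡.γ + r' : ℕ) : ℝ) = ((n * (M + 1) ^ q : ℕ) : ℝ) := by rw [hr'c]
    push_cast at h1
    rw [hγ, hb]
    linarith
  have hGi : ∃ (L : Type u) (_ : Field L) (_ : Algebra K L) (P : A.Pts L), Gen A P ∧
      LinearIndependent L (fun i p => aeval (A.x P) (𝓡.G' i p)) := by
    obtain ⟨L, _, _, _, P₀, hP₀⟩ := EF.T_gen A
    exact ⟨L, inferInstance, inferInstance, P₀, hP₀, 𝓡.li L P₀ hP₀⟩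
  obtain ⟨C₁, F₁, hF₁, h⟩ := TB.W_tw A Γ hΓ (γ := 𝓡.γ) (ι := Bx q M × Fin n)
    (κ := Kp N q p M) (σ := (Fin (N + 1) × (Fin q → Fin p)) × Ix q M d n s) (r := r')
    (by rw [hcard]; exact hr'c) hr'0 D 𝓡.D' 𝓡.ρ
    (fun x => ex T.k x.1 + ∑ i, T.e i * x.1 i) 𝓡.G' 𝓡.hom hGi (wV T M)
    (fun x κ => TB.wB_hom T M x.1 κ) (fun x => TB.wB_ne T M x.1)
    (fun j => LamV (M := M) (d := d) T.k j.1.1 j.1.2 D Λ j.2)
    (fun j x => TB.LamT_hom T j.1.1 j.1.2 hΛ j.2 (toC x)) S (ε / (2 * (M + 1))) (by positivity)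
  refine ⟨n * b * (M / 2) + γ * M + ε + |C₁| + |C₂|, pullV T.k F₁ * F₂,
    X_mulV T (X_excV T 𝓡 hF₁) hF₂, ?_⟩
  intro P hP y hy Z hZ hZE hne
  rw [map_mul] at hne
  have hne₂ := right_ne_zero_of_mul hne
  replace hne := left_ne_zero_of_mul hne
  rw [hF₂v, he₀ev] at hne₂
  rw [X_evalV] at hne
  have hli : LinearIndependent K (fun i l => ev P y (G i l)) := TB.W4_li_of_minor _ e₀ hne₂
  refine ⟨hli, ?_⟩
  intro Ji Jf hJi hJf
  choose t ht using fun i => (hy i).2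
  obtain ⟨Y, hYd⟩ : ∃ Y, Y = phiV T.k M (A.x P) y Z := ⟨_, rfl⟩
  have hY : Y ≠ 0 := by
    rw [hYd]
    exact M_phi_ne T M hy hZ
  obtain ⟨Z', hZd⟩ : ∃ Z' : Bx q M × Fin n → K, ∀ z, Z' z = (∏ i, t i ^ (z.1 i : ℕ)) * Z z.2 :=
    ⟨_, fun z => rfl⟩
  have hYe : ∀ x : (Bx q M × Fin n) × Kp N q p M,
      Y x = aeval (A.x P) (wV T M x.1 x.2) * Z' x.1 := by
    intro x
    rw [hYd, hZd]
    exact TB.M_phi T M ht Z (toC x)
  have hZf : Z' ∈ SG.FibT A 𝓡.G' P := by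
    intro i
    simp only [hZd]
    exact M_fib T 𝓡 ht hli hZE i
  rw [← hYd] at hne
  obtain ⟨-, hGP, h⟩ := h P hP Z' hZf Y hY hYe hne
  -- the largest coordinates at a place
  have hmax : ∀ v : AbsoluteValue K ℝ, ∃ (a : Fin (N + 1)) (ch : Fin q → Fin p),
      v (A.x P a) = (⨆ j, v (A.x P j)) ∧ (∀ i, v (y (i, ch i)) = ⨆ c, v (y (i, c))) ∧
      (X a : MvPolynomial (Fin (N + 1)) K) ∉ A.I ∧ ∀ i, T.η i (ch i) ∉ A.I := by
    intro v
    obtain ⟨a, ha⟩ := exists_eq_ciSup_of_finite (f := fun j => v (A.x P j))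
    have hch : ∀ i, ∃ c, v (y (i, c)) = ⨆ c, v (y (i, c)) := by
      intro i
      obtain ⟨⟨c, hc⟩, -⟩ := hy i
      have : Nonempty (Fin p) := ⟨c⟩
      exact exists_eq_ciSup_of_finite (f := fun c => v (y (i, c)))
    choose ch hch using hch
    refine ⟨a, ch, ha, hch, fun h0 => ?_, fun i h0 => ?_⟩
    · have h1 := P.2 _ h0
      rw [aeval_X] at h1
      have h2 := TB.V_x_pos v P
      rw [← ha] at h2
      rw [show A.x P a = 0 from h1, map_zero] at h2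
      exact lt_irrefl _ h2
    · have h1 : aeval (A.x P) (T.η i (ch i)) = 0 := P.2 _ h0
      have h2 := TB.V_y_pos T v hy i
      rw [← hch i, ht i (ch i), h1, mul_zero, map_zero] at h2
      exact lt_irrefl _ h2
  choose a ch ha hch haI hchI using hmax
  choose w hw ew hew hwe using fun τ : Fin q → ℝ => M_wt hGP τ
  choose Wi hWi hWic hWis using fun v => T_mainV T hdM Λ hΛ hd 𝓡 _ (Ji v) (hJi v)
  have hWf : ∀ v : NumberField.FinitePlace K, ∃ W : Finset (Bx q M × Fin n), v ∈ S →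
      (∀ (a : Fin (N + 1)) (ch : Fin q → Fin p),
        (X a : MvPolynomial (Fin (N + 1)) K) ∉ A.I → (∀ i, T.η i (ch i) ∉ A.I) →
        IndZ A 𝓡.G' (fun j => redZ (wV T M) (LamV (M := M) (d := d) T.k a ch D Λ j))
          ((Jf v ×ˢ Finset.univ).disjSum W)) ∧
      W.card + (Jf v).card * (M - d + 1) ^ q + Fintype.card 𝓡.γ = n * (M + 1) ^ q ∧
      ∑ j ∈ Jf v, ∑ m : Bx q (M - d), (SG.wt (T.tau v.val P y) (toF m) +
        maxWt (T.tau v.val P y) (Λ j)) + ∑ z ∈ W, SG.wt (T.tau v.val P y) (toF z.1) +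
          w (T.tau v.val P y) ≤
        n * ∑ m : Bx q M, SG.wt (T.tau v.val P y) (toF m) := by
    intro v
    by_cases hv : v ∈ S
    · obtain ⟨W, hW, hW', hW''⟩ := T_mainV T hdM Λ hΛ hd 𝓡 _ (Jf v) (hJf v hv)
      refine ⟨W, fun _ => ⟨hW, hW', ?_⟩⟩
      rw [hwe]
      exact hW'' K P _ (hew _)
    · exact ⟨∅, fun h => absurd h hv⟩
  choose Wf hWf using hWf
  obtain ⟨e, he⟩ : ∃ e : AbsoluteValue K ℝ → (Ix q M d n s ↪
      (Fin (N + 1) × (Fin q → Fin p)) × Ix q M d n s), ∀ v z, e v z = ((a v, ch v), z) :=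
    ⟨fun v => ⟨fun z => ((a v, ch v), z), fun z z' h => (Prod.ext_iff.1 h).2⟩, fun v z => rfl⟩
  have hind : ∀ (v : AbsoluteValue K ℝ) (B : Finset (Ix q M d n s)),
      IndZ A 𝓡.G' (fun j => redZ (wV T M) (LamV (M := M) (d := d) T.k (a v) (ch v) D Λ j)) B →
      IndZ A 𝓡.G' (fun j : (Fin (N + 1) × (Fin q → Fin p)) × Ix q M d n s =>
        redZ (wV T M) (LamV (M := M) (d := d) T.k j.1.1 j.1.2 D Λ j.2)) (B.map (e v)) := by
    intro v B hB
    refine M_indV (e v) _ ?_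
    simp only [he]
    exact hB
  obtain ⟨h1, h2⟩ := h (fun v => ((Ji v ×ˢ Finset.univ).disjSum (Wi v)).map (e v.val))
    (fun v => ((Jf v ×ˢ Finset.univ).disjSum (Wf v)).map (e v.val))
    (fun v => hind v.val _ (hWi v _ _ (haI v.val) (hchI v.val)))
    (fun v hv => hind v.val _ ((hWf v hv).1 _ _ (haI v.val) (hchI v.val)))
  rw [hYd] at h1 h2
  have h1i : ∀ v : NumberField.InfinitePlace K,
      ∀ j ∈ (Ji v ×ˢ Finset.univ).disjSum (Wi v),
      (∑ x, aeval (A.x P) (LamV (M := M) (d := d) T.k (a v.val) (ch v.val) D Λ j x) *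
        phiV T.k M (A.x P) y Z x) ≠ 0 := by
    intro v j hj
    have h3 := h1 (e v.val j) (Or.inl ⟨v, Finset.mem_map_of_mem _ hj⟩)
    rw [he] at h3
    exact h3
  have h1f : ∀ v ∈ S, ∀ j ∈ (Jf v ×ˢ Finset.univ).disjSum (Wf v),
      (∑ x, aeval (A.x P) (LamV (M := M) (d := d) T.k (a v.val) (ch v.val) D Λ j x) *
        phiV T.k M (A.x P) y Z x) ≠ 0 := by
    intro v hv j hj
    have h3 := h1 (e v.val j) (Or.inr ⟨v, hv, Finset.mem_map_of_mem _ hj⟩)
    rw [he] at h3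
    exact h3
  refine ⟨?_, ?_⟩
  · rintro j (⟨v, hj⟩ | ⟨v, hv, hj⟩)
    · have h3 := h1i v (Sum.inl (j, fun _ => 0)) (Finset.inl_mem_disjSum.2
        (Finset.mk_mem_product hj (Finset.mem_univ _)))
      rw [M_sumV, TB.V_val T hdM _ _ Λ hd] at h3
      exact right_ne_zero_of_mul h3
    · have h3 := h1f v hv (Sum.inl (j, fun _ => 0)) (Finset.inl_mem_disjSum.2
        (Finset.mk_mem_product hj (Finset.mem_univ _)))
      rw [M_sumV, TB.V_val T hdM _ _ Λ hd] at h3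
      exact right_ne_zero_of_mul h3
  · have hmap : ∀ (v : AbsoluteValue K ℝ) (B : Finset (Ix q M d n s)),
        ∑ j ∈ B.map (e v), SG.lamT A v D (LamV (M := M) (d := d) T.k j.1.1 j.1.2 D Λ j.2) P
            (phiV T.k M (A.x P) y Z) =
          ∑ j ∈ B, lamZ A v D (LamV (M := M) (d := d) T.k (a v) (ch v) D Λ j) P
            (phiV T.k M (A.x P) y Z) := by
      intro v B
      rw [Finset.sum_map]
      refine Finset.sum_congr rfl fun j _ => ?_
      rw [he]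
      rfl
    simp only [hmap] at h2
    obtain ⟨mx, hmx⟩ : ∃ mx : AbsoluteValue K ℝ → ℝ, ∀ v, mx v =
        (n * b - γ) * M * ∑ i, max (T.tau v P y i) 0 - n * b * (M / 2) * ∑ i, T.tau v P y i :=
      ⟨_, fun v => rfl⟩
    have hVi : ∀ v : NumberField.InfinitePlace K,
        c * ∑ j ∈ Ji v, T.lam v.val D (Λ j) P y Z + (mx v.val + w (T.tau v.val P y)) ≤
        ∑ j ∈ (Ji v ×ˢ Finset.univ).disjSum (Wi v),
          lamZ A v.val D (LamV (M := M) (d := d) T.k (a v.val) (ch v.val) D Λ j) P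
            (phiV T.k M (A.x P) y Z) := by
      intro v
      rw [hmx, hc, hb, hγ]
      exact V_mainV T hdM Λ hΛ hd v.val P y hy (a v.val) (ha v.val) (ch v.val) (hch v.val) Z hZ
        (Ji v) (Wi v) _ (hWic v) _ ((hwe (T.tau v.val P y)) ▸ hWis v K P _ (hew _)) (h1i v)
    have hVf : ∀ v ∈ S,
        c * ∑ j ∈ Jf v, T.lam v.val D (Λ j) P y Z + (mx v.val + w (T.tau v.val P y)) ≤
        ∑ j ∈ (Jf v ×ˢ Finset.univ).disjSum (Wf v),
          lamZ A v.val D (LamV (M := M) (d := d) T.k (a v.val) (ch v.val) D Λ j) P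
            (phiV T.k M (A.x P) y Z) := by
      intro v hv
      rw [hmx, hc, hb, hγ]
      exact V_mainV T hdM Λ hΛ hd v.val P y hy (a v.val) (ha v.val) (ch v.val) (hch v.val) Z hZ
        (Jf v) (Wf v) _ (hWf v hv).2.1 _ (hWf v hv).2.2 (h1f v hv)
    have hSi := Finset.sum_le_sum fun v (_ : v ∈ (Finset.univ :
      Finset (NumberField.InfinitePlace K))) =>
        mul_le_mul_of_nonneg_left (hVi v) (Nat.cast_nonneg v.mult)
    have hSf := Finset.sum_le_sum hVf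
    have hei : ∑ v : NumberField.InfinitePlace K, (v.mult : ℝ) *
        (c * ∑ j ∈ Ji v, T.lam v.val D (Λ j) P y Z + (mx v.val + w (T.tau v.val P y))) =
        c * (∑ v : NumberField.InfinitePlace K, (v.mult : ℝ) *
          ∑ j ∈ Ji v, T.lam v.val D (Λ j) P y Z) +
        (∑ v : NumberField.InfinitePlace K, (v.mult : ℝ) * mx v.val +
          ∑ v : NumberField.InfinitePlace K, (v.mult : ℝ) * w (T.tau v.val P y)) := by
      rw [Finset.mul_sum, ← Finset.sum_add_distrib, ← Finset.sum_add_distrib]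
      exact Finset.sum_congr rfl fun v _ => by ring
    have hef : ∑ v ∈ S, (c * ∑ j ∈ Jf v, T.lam v.val D (Λ j) P y Z +
          (mx v.val + w (T.tau v.val P y))) =
        c * (∑ v ∈ S, ∑ j ∈ Jf v, T.lam v.val D (Λ j) P y Z) +
        (∑ v ∈ S, mx v.val + ∑ v ∈ S, w (T.tau v.val P y)) := by
      rw [Finset.mul_sum, ← Finset.sum_add_distrib, ← Finset.sum_add_distrib]
    rw [hei] at hSi
    rw [hef] at hSf
    have hH := H_low T 𝓡 S hy ht hGP (fun v => w (T.tau v.val P y))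
      (fun v => w (T.tau v.val P y)) (fun v e he => hw _ e he) fun v _ e he => hw _ e he
    rw [TB.M_lines T M hy, ← hγ, ← hb] at hH
    have hev : ∀ f, eval t (T.sp P f) = ev P y f := by
      intro f
      rw [TB.ev_sp]
      congr 1
      funext x
      exact (ht x.1 x.2).symm
    have ht0 : ∀ i, t i ≠ 0 := by
      intro i h0
      obtain ⟨⟨c, hc⟩, -⟩ := hy i
      rw [ht i c, h0, zero_mul] at hc
      exact hc rfl
    have hjet := hC₂ (fun i l => T.sp P (G i l)) t ht0 (by simp only [hev]; exact hli)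
      (fun i x => aeval (A.x P) (𝓡.G' i x)) hGP (𝓡.row K P)
    simp only [hev] at hjet
    rw [← hγ, ← hb] at hjet
    rw [M_phi_h T M hy hZ, hr'e] at h2
    have hT := TB.M_two T S hy
    have hT' := M_tau T S hy
    have hN := TB.NS_nonneg T S P y
    have hEn : 0 ≤ hV G P y := logHeight_nonneg _
    have hEu := hCV P y hy
    have hZn : 0 ≤ logHeight Z := logHeight_nonneg _
    have hxn : 0 ≤ logHeight (A.x P) := logHeight_nonneg _
    have htn : 0 ≤ ∑ i, T.ht P y i := Finset.sum_nonneg fun i _ => logHeight_nonneg _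
    have hmx' : ∀ v, mx v = (n * b - γ) * (M / 2) * ∑ i, |T.tau v P y i| -
        γ * (M / 2) * ∑ i, T.tau v P y i := by
      intro v
      have h3 : ∑ i, max (T.tau v P y i) 0 =
          (∑ i, |T.tau v P y i| + ∑ i, T.tau v P y i) / 2 := by
        rw [← Finset.sum_add_distrib, Finset.sum_div]
        refine Finset.sum_congr rfl fun i _ => ?_
        rcases le_total 0 (T.tau v P y i) with h | h
        · rw [max_eq_left h, abs_of_nonneg h]
          ring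
        · rw [max_eq_right h, abs_of_nonpos h]
          ring
      rw [hmx, h3]
      ring
    simp only [hmx'] at hSi hSf
    have hsi : ∑ v : NumberField.InfinitePlace K, (v.mult : ℝ) *
        ((n * b - γ) * (M / 2) * ∑ i, |T.tau v.val P y i| -
          γ * (M / 2) * ∑ i, T.tau v.val P y i) =
        (n * b - γ) * (M / 2) *
          (∑ v : NumberField.InfinitePlace K, (v.mult : ℝ) * ∑ i, |T.tau v.val P y i|) -
        γ * (M / 2) * ∑ v : NumberField.InfinitePlace K, (v.mult : ℝ) * ∑ i, T.tau v.val P y i := by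
      rw [Finset.mul_sum, Finset.mul_sum, ← Finset.sum_sub_distrib]
      exact Finset.sum_congr rfl fun v _ => by ring
    have hsf : ∑ v ∈ S, ((n * b - γ) * (M / 2) * ∑ i, |T.tau v.val P y i| -
          γ * (M / 2) * ∑ i, T.tau v.val P y i) =
        (n * b - γ) * (M / 2) * (∑ v ∈ S, ∑ i, |T.tau v.val P y i|) -
          γ * (M / 2) * ∑ v ∈ S, ∑ i, T.tau v.val P y i := by
      rw [Finset.mul_sum, Finset.mul_sum, ← Finset.sum_sub_distrib]
    rw [hsi] at hSi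
    rw [hsf] at hSf
    have hUV : ∑ i, (T.k i * logHeight (A.x P) + logHeight (fun c => y (i, c))) -
        ∑ i, (logHeight (fun c => y (i, c)) - T.k i * logHeight (A.x P)) =
        2 * ∑ i, T.k i * logHeight (A.x P) := by
      rw [← Finset.sum_sub_distrib, Finset.mul_sum]
      exact Finset.sum_congr rfl fun i _ => by ring
    obtain ⟨Li, hLi⟩ : ∃ Li, Li = ∑ v : NumberField.InfinitePlace K, (v.mult : ℝ) *
      ∑ j ∈ Ji v, T.lam v.val D (Λ j) P y Z := ⟨_, rfl⟩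
    obtain ⟨Lf, hLf⟩ : ∃ Lf, Lf = ∑ v ∈ S, ∑ j ∈ Jf v, T.lam v.val D (Λ j) P y Z := ⟨_, rfl⟩
    obtain ⟨Ai, hAi⟩ : ∃ Ai, Ai = ∑ v : NumberField.InfinitePlace K, (v.mult : ℝ) *
      ∑ i, |T.tau v.val P y i| := ⟨_, rfl⟩
    obtain ⟨Af, hAf⟩ : ∃ Af, Af = ∑ v ∈ S, ∑ i, |T.tau v.val P y i| := ⟨_, rfl⟩
    obtain ⟨Ti, hTi⟩ : ∃ Ti, Ti = ∑ v : NumberField.InfinitePlace K, (v.mult : ℝ) *
      ∑ i, T.tau v.val P y i := ⟨_, rfl⟩
    obtain ⟨Tf, hTf⟩ : ∃ Tf, Tf = ∑ v ∈ S, ∑ i, T.tau v.val P y i := ⟨_, rfl⟩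
    obtain ⟨wi, hwi⟩ : ∃ wi, wi = ∑ v : NumberField.InfinitePlace K, (v.mult : ℝ) *
      w (T.tau v.val P y) := ⟨_, rfl⟩
    obtain ⟨wf, hwf⟩ : ∃ wf, wf = ∑ v ∈ S, w (T.tau v.val P y) := ⟨_, rfl⟩
    obtain ⟨U, hU⟩ : ∃ U, U = ∑ i, (T.k i * logHeight (A.x P) + logHeight (fun c => y (i, c))) :=
      ⟨_, rfl⟩
    obtain ⟨V, hV'⟩ : ∃ V, V = ∑ i, (logHeight (fun c => y (i, c)) -
      T.k i * logHeight (A.x P)) := ⟨_, rfl⟩
    obtain ⟨Kx, hKx⟩ : ∃ Kx, Kx = ∑ i, T.k i * logHeight (A.x P) := ⟨_, rfl⟩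
    obtain ⟨Bi, hBi⟩ : ∃ Bi, Bi = ∑ v : NumberField.InfinitePlace K, (v.mult : ℝ) *
      ∑ j ∈ (Ji v ×ˢ Finset.univ).disjSum (Wi v),
          lamZ A v.val D (LamV (M := M) (d := d) T.k (a v.val) (ch v.val) D Λ j) P
            (phiV T.k M (A.x P) y Z) := ⟨_, rfl⟩
    obtain ⟨Bf, hBf⟩ : ∃ Bf, Bf = ∑ v ∈ S, ∑ j ∈ (Jf v ×ˢ Finset.univ).disjSum (Wf v),
          lamZ A v.val D (LamV (M := M) (d := d) T.k (a v.val) (ch v.val) D Λ j) P
            (phiV T.k M (A.x P) y Z) := ⟨_, rfl⟩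
    obtain ⟨hu, hhu⟩ : ∃ hu, hu = logHeight (fun e : 𝓡.γ → Bx q M × Fin n =>
      mnr (fun i x => aeval (A.x P) (𝓡.G' i x) * ∏ i, t i ^ (x.1 i : ℕ)) e) := ⟨_, rfl⟩
    obtain ⟨hw', hhw⟩ : ∃ hw', hw' = logHeight
      (fun x : (𝓡.γ ↪ Bx q M × Fin n) × (Bx q M × Fin n → Kp N q p M) =>
          (Matrix.of fun a b => aeval (A.x P) (𝓡.G' a (x.1 b))).det *
            ∏ z ∈ (Finset.univ.map x.1)ᶜ, aeval (A.x P) (wV T M z (x.2 z))) := ⟨_, rfl⟩
    rw [← hLi, ← hLf]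
    rw [← hLi, ← hAi, ← hTi, ← hwi, ← hBi] at hSi
    rw [← hLf, ← hAf, ← hTf, ← hwf, ← hBf] at hSf
    rw [← hBi, ← hBf, ← hhw] at h2
    rw [← hAi, ← hAf, ← hU] at hT
    rw [← hTi, ← hTf, ← hV'] at hT'
    rw [← hU, ← hhu, ← hhw, ← hwi, ← hwf, ← hKx] at hH
    rw [← hU, ← hV', ← hKx] at hUV
    rw [← hhu] at hjet
    change (b - (g * b - γ)) * hV G P y ≤ hu + C₂ at hjet
    obtain ⟨Ht, hHt⟩ : ∃ Ht, Ht = ∑ i, T.ht P y i := ⟨_, rfl⟩
    rw [← hHt] at hT htn h2 hEu ⊢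
    obtain ⟨hZ', hhZ⟩ : ∃ x, x = logHeight Z := ⟨_, rfl⟩
    obtain ⟨hx', hhx⟩ : ∃ x, x = logHeight (A.x P) := ⟨_, rfl⟩
    obtain ⟨hE', hhE⟩ : ∃ x, x = hV G P y := ⟨_, rfl⟩
    obtain ⟨ns, hns⟩ : ∃ x, x = T.NS S P y := ⟨_, rfl⟩
    rw [← hhZ] at hZn h2 ⊢
    rw [← hhx] at hxn h2 hEu ⊢
    rw [← hhE] at hEn hEu hjet ⊢
    rw [← hns] at hN hT hT' hH ⊢
    have hb0 : 0 ≤ b := by linarith
    have hn : (n : ℝ) = g + r := by
      rw [← hgr]
      push_cast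
      ring
    have hσ0 : 0 ≤ γ * (M / 2) := by positivity
    have h3 := M_arith1 hσ0 hSi hSf h2 hT hT' hH hUV
    have h5 : ε / (2 * (M + 1)) * (hZ' + M * Ht + hx') ≤ ε / 2 * (hZ' + hx' + Ht) := by
      have h6 : ε / (2 * (M + 1)) * (hZ' + M * Ht + hx') ≤
          ε / (2 * (M + 1)) * ((M + 1) * (hZ' + hx' + Ht)) := by
        refine mul_le_mul_of_nonneg_left ?_ (by positivity)
        have h8 : 0 ≤ (M : ℝ) * (hZ' + hx') := by positivity
        linarith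
      have h7 : ε / (2 * (M + 1)) * (((M : ℝ) + 1) * (hZ' + hx' + Ht)) =
          ε / 2 * (hZ' + hx' + Ht) := by
        have : (M : ℝ) + 1 ≠ 0 := by positivity
        field_simp
      rw [h7] at h6
      exact h6
    exact M_arith2 hn hg' hr'.le hδ.le hε.le hCV0 hδe hc1 hcb hbc hγ2' hEn hZn hxn htn hN hEu
      (by positivity) hjet h3 h5

end

end Pool.Agent.Lib.MP_17a322_nt.VB
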